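import Pool.Agent.Lib.MP_06935a_al.BaseDefs

set_option autoImplicit false

namespace Pool.Agent.Lib.MP_06935a_al

/-- shift of a letter -/
def sw (a : ZMod 3) (p : ZMod 3 × Bool) : ZMod 3 × Bool := (p.1 + a, p.2)

theorem shift_mk (a : ZMod 3) (L : List (ZMod 3 × Bool)) :
    shift a (FreeGroup.mk L) = FreeGroup.mk (L.map (sw a)) := by
  show FreeGroup.map (Equiv.addRight a) (FreeGroup.mk L) = _
  rw [FreeGroup.map.mk]
  rfl

theorem isReduced_map (a : ZMod 3) (L : List (ZMod 3 × Bool)) (h : FreeGroup.IsReduced L) :
    FreeGroup.IsReduced (L.map (sw a)) := by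
  unfold FreeGroup.IsReduced at *
  rw [List.isChain_map]
  refine h.imp ?_
  intro x y hxy h1
  exact hxy (by simpa [sw] using h1)

theorem toWord_shift (a : ZMod 3) (f : F3) : (shift a f).toWord = f.toWord.map (sw a) := by
  conv_lhs => rw [← FreeGroup.mk_toWord (x := f)]
  rw [shift_mk, FreeGroup.toWord_mk]
  exact (isReduced_map a _ FreeGroup.isReduced_toWord).reduce_eq

theorem shift_fixed (a : ZMod 3) (ha : a ≠ 0) (f : F3) (h : shift a f = f) : f = 1 := by
  have h1 : f.toWord.map (sw a) = f.toWord := by rw [← toWord_shift, h]
  rw [← FreeGroup.toWord_eq_nil_iff]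
  rcases hL : f.toWord with _ | ⟨p, L⟩
  · rfl
  · exfalso
    rw [hL, List.map_cons] at h1
    have h2 := (List.cons.inj h1).1
    have h3 : p.1 + a = p.1 := congrArg Prod.fst h2
    exact ha (by simpa using h3)

theorem coboundary (a : ZMod 3) (n : ℕ) : ∀ f : F3, f.norm ≤ n →
    f * shift a f * shift (a + a) f = 1 → ∃ g : F3, f = g * (shift a g)⁻¹ := by
  induction n with
  | zero =>
    intro f hf _
    have : f = 1 := FreeGroup.norm_eq_zero.1 (Nat.le_zero.1 hf)
    exact ⟨1, by rw [this]; simp⟩
  | succ n ih =>
    intro f hf hprod
    rcases hL : f.toWord with _ | ⟨p, L⟩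
    · have : f = 1 := FreeGroup.toWord_eq_nil_iff.1 hL
      exact ⟨1, by rw [this]; simp⟩
    · have hred : FreeGroup.IsReduced (p :: L) := by rw [← hL]; exact FreeGroup.isReduced_toWord
      by_cases hcan : ∃ M q, p :: L = M ++ [q] ∧ q.1 = p.1 + a ∧ q.2 = !p.2
      · obtain ⟨M, q, hM, hq1, hq2⟩ := hcan
        rcases M with _ | ⟨p', M⟩
        · exfalso
          have : p = q := by simpa using (List.cons.inj hM).1
          rw [← this] at hq2
          cases h : p.2 <;> simp [h] at hq2
        · rw [List.cons_append] at hM
          obtain ⟨h1, h2⟩ := List.cons.inj hM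
          subst h1
          have hf1 : f = FreeGroup.mk [p] * FreeGroup.mk M * FreeGroup.mk [q] := by
            rw [FreeGroup.mul_mk, FreeGroup.mul_mk]
            conv_lhs => rw [← FreeGroup.mk_toWord (x := f), hL, h2]
            simp
          have hq : FreeGroup.mk [q] = (shift a (FreeGroup.mk [p]))⁻¹ := by
            rw [shift_mk, FreeGroup.inv_mk]
            congr 1
            simp [FreeGroup.invRev, sw]
            exact Prod.ext hq1 hq2
          have hss : ∀ y : F3, shift a (shift a y) = shift (a + a) y := by
            intro y
            have := DFunLike.congr_fun (map_mul shiftHom (Multiplicative.ofAdd a)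
              (Multiplicative.ofAdd a)) y
            exact this.symm
          have hsss : ∀ y : F3, shift (a + a) (shift a y) = y := by
            intro y
            have h3 := DFunLike.congr_fun (map_mul shiftHom (Multiplicative.ofAdd (a + a))
              (Multiplicative.ofAdd a)) y
            have h4 : Multiplicative.ofAdd (a + a) * Multiplicative.ofAdd a = 1 := by
              rw [← ofAdd_add]
              have : a + a + a = 0 := (by decide : ∀ b : ZMod 3, b + b + b = 0) a
              rw [this]; rfl
            rw [h4, map_one] at h3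
            exact h3.symm
          set u : F3 := FreeGroup.mk [p] with hu
          set f' : F3 := FreeGroup.mk M with hf'
          rw [hq] at hf1
          have hn : f'.norm ≤ n := by
            have h5 : f.norm = (p :: L).length := by
              unfold FreeGroup.norm; rw [hL]
            have h6 : f'.norm ≤ M.length := FreeGroup.norm_mk_le
            rw [h2] at h5
            simp at h5
            omega
          have hf'prod : f' * shift a f' * shift (a + a) f' = 1 := by
            rw [hf1] at hprod
            simp only [map_mul, map_inv, hss, hsss] at hprod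
            have h7 : u * (f' * shift a f' * shift (a + a) f') * u⁻¹ = 1 := by
              rw [← hprod]; group
            have h8 := conj_eq_one_iff.1 h7
            exact h8
          obtain ⟨g, hg⟩ := ih f' hn hf'prod
          refine ⟨u * g, ?_⟩
          rw [hf1, hg, map_mul]
          group
      · exfalso
        push Not at hcan
        obtain ⟨M, q, hMq⟩ : ∃ M q, p :: L = M ++ [q] :=
          ⟨(p :: L).dropLast, (p :: L).getLast (by simp), (List.dropLast_append_getLast _).symm⟩
        have hq := hcan M q hMq
        have key : FreeGroup.IsReduced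
            ((p :: L) ++ (p :: L).map (sw a) ++ (p :: L).map (sw (a + a))) := by
          have r1 := isReduced_map a _ hred
          have r2 := isReduced_map (a + a) _ hred
          unfold FreeGroup.IsReduced at *
          rw [List.isChain_append, List.isChain_append]
          refine ⟨⟨hred, r1, ?_⟩, r2, ?_⟩
          · intro x hx y hy
            rw [hMq] at hx
            simp at hx hy
            subst hx
            intro h1
            by_contra h2
            refine hq (by rw [h1, ← hy]; rfl) ?_
            have h3 : q.2 ≠ p.2 := fun h => h2 (by rw [h, ← hy]; rfl)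
            revert h3
            cases q.2 <;> cases p.2 <;> simp
          · intro x hx y hy
            rw [List.getLast?_append] at hx
            rw [hMq] at hx
            simp at hx hy
            subst hx
            intro h1
            by_contra h2
            have h1' : q.1 = p.1 + a := by
              rw [← hy] at h1
              simp only [sw] at h1
              have : q.1 + a = p.1 + a + a := by rw [h1, add_assoc]
              exact add_right_cancel this
            refine hq h1' ?_
            have h3 : q.2 ≠ p.2 := fun h => h2 (by rw [← hy]; simpa [sw] using h)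
            revert h3
            cases q.2 <;> cases p.2 <;> simp
        have h9 : (f * shift a f * shift (a + a) f).toWord =
            (p :: L) ++ (p :: L).map (sw a) ++ (p :: L).map (sw (a + a)) := by
          have h10 : f * shift a f * shift (a + a) f = FreeGroup.mk
              ((p :: L) ++ (p :: L).map (sw a) ++ (p :: L).map (sw (a + a))) := by
            rw [← FreeGroup.mul_mk, ← FreeGroup.mul_mk, ← shift_mk, ← shift_mk, ← hL,
              FreeGroup.mk_toWord]
          rw [h10, FreeGroup.toWord_mk, key.reduce_eq]
        rw [hprod, FreeGroup.toWord_one] at h9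
        simp at h9

theorem eq_inl (c : H0) (h : c.right = 1) : c = SemidirectProduct.inl c.left := by
  ext <;> simp [h]

theorem toAdd_cube (a : Multiplicative (ZMod 3)) : a ^ 3 = 1 := by
  revert a; decide

/-- T11b -/
theorem base_j4 (h : H0) (h1 : pi0 h = 1) (h2 : h * alpha0 = alpha0 * h) : h = 1 := by
  have hr : h.right = 1 := h1
  have hl := congrArg SemidirectProduct.left h2
  rw [SemidirectProduct.mul_left, SemidirectProduct.mul_left, hr] at hl
  simp only [alpha0, SemidirectProduct.left_inr, SemidirectProduct.right_inr, map_one, mul_one,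
    one_mul] at hl
  have h3 : h.left = 1 := shift_fixed 1 (by decide) _ hl.symm
  rw [eq_inl h hr, h3, map_one]

/-- T11b -/
theorem base_j3 (c : H0) (h : pi0 c = 1) (h3 : c ^ 3 = 1) : c = 1 := by
  have hr : c.right = 1 := h
  rw [eq_inl c hr, ← map_pow] at h3
  have h4 : c.left ^ 3 = 1 := SemidirectProduct.inl_injective (by rw [h3, map_one])
  have h5 : c.left = 1 := by
    by_contra hne
    exact (IsMulTorsionFree.pow_left_injective (M := F3) (n := 3) (by norm_num)).ne hne
      (by simp [h4])
  rw [eq_inl c hr, h5, map_one]

/-- T11b -/
theorem base_j2 (c : H0) (h : c ^ 2 = 1) : c = 1 := by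
  have hr : c.right = 1 := by
    have h1 : (pi0 c) ^ 2 = 1 := by rw [← map_pow, h, map_one]
    have h2 : ∀ a : Multiplicative (ZMod 3), a ^ 2 = 1 → a = 1 := by decide
    exact h2 _ h1
  rw [eq_inl c hr, ← map_pow] at h
  have h4 : c.left ^ 2 = 1 := SemidirectProduct.inl_injective (by rw [h, map_one])
  have h5 : c.left = 1 := by
    by_contra hne
    exact (IsMulTorsionFree.pow_left_injective (M := F3) (n := 2) (by norm_num)).ne hne
      (by simp [h4])
  rw [eq_inl c hr, h5, map_one]

theorem inl_finOrder (f : F3) (h : IsOfFinOrder (SemidirectProduct.inl f : H0)) : f = 1 := by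
  obtain ⟨n, hn, hp⟩ := isOfFinOrder_iff_pow_eq_one.1 h
  rw [← map_pow] at hp
  have h4 : f ^ n = 1 := SemidirectProduct.inl_injective (by rw [hp, map_one])
  by_contra hne
  exact (IsMulTorsionFree.pow_left_injective (M := F3) (n := n) (by omega)).ne hne
    (by simp [h4])

/-- T11b -/
theorem base_j1 (c h : H0) (hc : c ≠ 1) (ht : IsOfFinOrder c) (hch : c * h = h * c) :
    IsOfFinOrder h := by
  have hcr : c.right ≠ 1 := by
    intro h0
    have h1 := eq_inl c h0
    rw [h1] at ht
    have h2 := inl_finOrder _ ht
    exact hc (by rw [h1, h2, map_one])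
  have hpow : ∀ x : H0, (x ^ 3).right = 1 := by
    intro x
    have h1 : pi0 (x ^ 3) = 1 := by rw [map_pow]; exact toAdd_cube _
    exact h1
  have hc3 : c ^ 3 = 1 := by
    have h1 := eq_inl (c ^ 3) (hpow c)
    have h2 : IsOfFinOrder (c ^ 3) := ht.pow
    rw [h1] at h2
    rw [h1, inl_finOrder _ h2, map_one]
  set a : ZMod 3 := c.right.toAdd with ha
  have ha0 : a ≠ 0 := by
    intro h0
    exact hcr (by rw [ha] at h0; exact h0)
  have hs : ∀ y : F3, shiftHom c.right y = shift a y := fun y => rfl
  have hprod : c.left * shift a c.left * shift (a + a) c.left = 1 := by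
    have h1 := congrArg SemidirectProduct.left hc3
    rw [pow_succ, pow_two, SemidirectProduct.mul_left, SemidirectProduct.mul_left,
      SemidirectProduct.mul_right, SemidirectProduct.one_left] at h1
    exact h1
  obtain ⟨g, hg⟩ := coboundary a _ c.left le_rfl hprod
  have hh3 := eq_inl (h ^ 3) (hpow h)
  set x : F3 := (h ^ 3).left with hx
  have hcomm : c * h ^ 3 = h ^ 3 * c := ((show Commute c h from hch).pow_right 3).eq
  rw [hh3] at hcomm
  have hl := congrArg SemidirectProduct.left hcomm
  rw [SemidirectProduct.mul_left, SemidirectProduct.mul_left] at hl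
  simp only [SemidirectProduct.left_inl, SemidirectProduct.right_inl, map_one, MulAut.one_apply]
    at hl
  rw [hs, hg] at hl
  have hfix : shift a (g⁻¹ * x * g) = g⁻¹ * x * g := by
    rw [map_mul, map_mul, map_inv]
    have h5 : (shift a g)⁻¹ * shift a x * shift a g
        = g⁻¹ * (g * (shift a g)⁻¹ * shift a x) * shift a g := by group
    rw [h5, hl]
    group
  have h6 := shift_fixed a ha0 _ hfix
  have h7 : x = 1 := by
    have : x = g * (g⁻¹ * x * g) * g⁻¹ := by group
    rw [this, h6]; group
  refine isOfFinOrder_iff_pow_eq_one.2 ⟨3, by norm_num, ?_⟩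
  rw [hh3, h7, map_one]

end Pool.Agent.Lib.MP_06935a_al
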