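import Pool.Agent.Lib.MP_06935a_al.Basic

set_option autoImplicit false

namespace Pool.Agent.Lib.MP_06935a_al

/-- the free group on `ZMod 3` -/
abbrev F3 : Type := FreeGroup (ZMod 3)

/-- the shift of the generators by `a` -/
def shift (a : ZMod 3) : MulAut F3 := FreeGroup.freeGroupCongr (Equiv.addRight a)

theorem shift_of (a x : ZMod 3) : shift a (FreeGroup.of x) = FreeGroup.of (x + a) := by
  simp [shift]

/-- the action of the cyclic group of order three by shifts -/
def shiftHom : Multiplicative (ZMod 3) →* MulAut F3 where
  toFun a := shift a.toAdd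
  map_one' := by
    ext1 x
    show (shift 0).toMonoidHom x = (MonoidHom.id F3) x
    congr 1
    ext y
    simp [shift]
  map_mul' a b := by
    ext1 x
    show (shift (a * b).toAdd).toMonoidHom x = ((shift a.toAdd).toMonoidHom.comp
      (shift b.toAdd).toMonoidHom) x
    congr 1
    ext y
    simp [shift, add_comm, add_left_comm]

theorem shiftHom_of (a : Multiplicative (ZMod 3)) (x : ZMod 3) :
    shiftHom a (FreeGroup.of x) = FreeGroup.of (x + a.toAdd) := shift_of _ _

/-- the base group -/
abbrev H0 : Type := F3 ⋊[shiftHom] Multiplicative (ZMod 3)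

/-- the projection to the cyclic group of order three -/
def pi0 : H0 →* Multiplicative (ZMod 3) := SemidirectProduct.rightHom

/-- the distinguished element of order three -/
def alpha0 : H0 := SemidirectProduct.inr (Multiplicative.ofAdd 1)

/-- total exponent modulo five -/
def phi0 : H0 →* Multiplicative (ZMod 5) :=
  SemidirectProduct.lift (FreeGroup.lift fun _ => Multiplicative.ofAdd 1) 1 (by
    intro g
    ext x
    simp [shiftHom_of])

end Pool.Agent.Lib.MP_06935a_al
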