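import Pool.Agent.Lib.MP_06935a_al.BaseDefs

/-!
T11a: the base group is hyperbolic (tree metric of the free group up to an additive constant).
-/

set_option autoImplicit false

namespace Pool.Agent.Lib.MP_06935a_al

open scoped Pointwise

namespace BaseHyp

/-- length of the longest common prefix -/
def lcp {A : Type} [DecidableEq A] : List A → List A → ℕ
  | a :: l, b :: m => if a = b then lcp l m + 1 else 0
  | [], _ => 0
  | _ :: _, [] => 0

theorem lcp_ultra {A : Type} [DecidableEq A] : ∀ x y z : List A,
    lcp x z ≤ lcp x y ∨ lcp z y ≤ lcp x y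
  | [], _, _ => by simp [lcp]
  | _ :: _, _, [] => by simp [lcp]
  | _ :: _, [], _ :: _ => by simp [lcp]
  | a :: x, b :: y, c :: z => by
    simp only [lcp]
    rcases lcp_ultra x y z with h | h
    all_goals
      by_cases h1 : a = b
      · by_cases h2 : a = c
        · have h3 : c = b := by rw [← h2, h1]
          simp only [h1, h3, if_true]
          omega
        · have h3 : c ≠ b := by rw [← h1]; exact fun h => h2 h.symm
          simp [h1, h3]
      · by_cases h2 : a = c
        · have h3 : c ≠ b := by rw [← h2]; exact h1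
          simp [h3]
        · simp [h2]

variable {α : Type} [DecidableEq α]

theorem norm_mk {L : List (α × Bool)} (h : FreeGroup.IsReduced L) :
    (FreeGroup.mk L).norm = L.length := by
  rw [FreeGroup.norm, FreeGroup.toWord_mk, h.reduce_eq]

theorem key : ∀ L M : List (α × Bool), FreeGroup.IsReduced L → FreeGroup.IsReduced M →
    ((FreeGroup.mk L)⁻¹ * FreeGroup.mk M).norm + 2 * lcp L M = L.length + M.length
  | [], M => by
    intro _ hM
    rw [show (FreeGroup.mk ([] : List (α × Bool))) = 1 from rfl]
    simp [lcp, norm_mk hM]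
  | a :: L, [] => by
    intro hL _
    rw [show (FreeGroup.mk ([] : List (α × Bool))) = 1 from rfl]
    simp [lcp, FreeGroup.norm_inv_eq, norm_mk hL, -FreeGroup.inv_mk]
  | a :: L, b :: M => by
    intro hL hM
    by_cases h : a = b
    · subst h
      have ih := key L M (List.IsChain.tail hL) (List.IsChain.tail hM)
      have e : (FreeGroup.mk (a :: L))⁻¹ * FreeGroup.mk (a :: M) =
          (FreeGroup.mk L)⁻¹ * FreeGroup.mk M := by
        have h1 : FreeGroup.mk (a :: L) = FreeGroup.mk [a] * FreeGroup.mk L := by
          rw [FreeGroup.mul_mk]; rfl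
        have h2 : FreeGroup.mk (a :: M) = FreeGroup.mk [a] * FreeGroup.mk M := by
          rw [FreeGroup.mul_mk]; rfl
        rw [h1, h2]; group
      rw [e]
      simp only [lcp, if_true, List.length_cons]
      omega
    · have hred : FreeGroup.IsReduced (FreeGroup.invRev (a :: L) ++ (b :: M)) := by
        have h1 : FreeGroup.IsReduced (FreeGroup.invRev (a :: L)) := by
          rw [FreeGroup.isReduced_iff_reduce_eq] at hL ⊢
          rw [FreeGroup.reduce_invRev, hL]
        have h2 : FreeGroup.invRev (a :: L) = FreeGroup.invRev L ++ [(a.1, !a.2)] := by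
          simp [FreeGroup.invRev]
        rw [h2] at h1 ⊢
        have h3 : FreeGroup.IsReduced ([(a.1, !a.2)] ++ (b :: M)) := by
          rw [List.singleton_append, FreeGroup.isReduced_cons_cons]
          refine ⟨?_, hM⟩
          intro h4
          simp only at h4 ⊢
          by_contra h5
          apply h
          ext
          · exact h4
          · revert h5
            cases a.2 <;> cases b.2 <;> simp
        exact h1.append_overlap h3 (by simp)
      rw [FreeGroup.inv_mk, FreeGroup.mul_mk, norm_mk hred]
      simp [lcp, h, FreeGroup.invRev_length]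

theorem norm_inv_mul (x y : FreeGroup α) :
    (x⁻¹ * y).norm + 2 * lcp x.toWord y.toWord = x.norm + y.norm := by
  have := key x.toWord y.toWord FreeGroup.isReduced_toWord FreeGroup.isReduced_toWord
  rwa [FreeGroup.mk_toWord, FreeGroup.mk_toWord] at this

theorem four1 (x y z : FreeGroup α) :
    (x⁻¹ * y).norm + z.norm ≤ (x⁻¹ * z).norm + y.norm ∨
    (x⁻¹ * y).norm + z.norm ≤ x.norm + (y⁻¹ * z).norm := by
  have h1 := norm_inv_mul x y
  have h2 := norm_inv_mul x z
  have h3 := norm_inv_mul z y
  have h4 : (z⁻¹ * y).norm = (y⁻¹ * z).norm := by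
    rw [← FreeGroup.norm_inv_eq]; congr 1; group
  rcases lcp_ultra x.toWord y.toWord z.toWord with h | h
  · left; omega
  · right; omega

theorem four_free (x y z w : FreeGroup α) :
    (x⁻¹ * y).norm + (z⁻¹ * w).norm ≤ (x⁻¹ * z).norm + (y⁻¹ * w).norm ∨
    (x⁻¹ * y).norm + (z⁻¹ * w).norm ≤ (x⁻¹ * w).norm + (y⁻¹ * z).norm := by
  have h := four1 (w⁻¹ * x) (w⁻¹ * y) (w⁻¹ * z)
  have e : ∀ a b : FreeGroup α, (w⁻¹ * a)⁻¹ * (w⁻¹ * b) = a⁻¹ * b := by intro a b; group
  have e2 : ∀ a : FreeGroup α, (w⁻¹ * a).norm = (a⁻¹ * w).norm := by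
    intro a; rw [← FreeGroup.norm_inv_eq]; congr 1; group
  rw [e, e, e, e2, e2, e2] at h
  exact h

theorem norm_congr_le (e : Equiv.Perm α) (x : FreeGroup α) :
    (FreeGroup.freeGroupCongr e x).norm ≤ x.norm := by
  have h : FreeGroup.freeGroupCongr e x = FreeGroup.map e x := rfl
  rw [h]
  conv_lhs => rw [← x.mk_toWord]
  rw [FreeGroup.map.mk]
  refine FreeGroup.norm_mk_le.trans ?_
  simp [FreeGroup.norm]

theorem norm_congr (e : Equiv.Perm α) (x : FreeGroup α) :
    (FreeGroup.freeGroupCongr e x).norm = x.norm := by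
  apply le_antisymm (norm_congr_le e x)
  have := norm_congr_le e.symm (FreeGroup.freeGroupCongr e x)
  rwa [← FreeGroup.freeGroupCongr_symm, MulEquiv.symm_apply_apply] at this

theorem norm_shift (a : Multiplicative (ZMod 3)) (x : F3) : (shiftHom a x).norm = x.norm :=
  norm_congr _ x

/-- the norm of the free part -/
def N (g : H0) : ℕ := g.left.norm

theorem N_inv_mul (x y : H0) : N (x⁻¹ * y) = (x.left⁻¹ * y.left).norm := by
  unfold N
  rw [SemidirectProduct.mul_left, SemidirectProduct.inv_left, SemidirectProduct.inv_right,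
    ← map_mul, norm_shift]

theorem N_mul (x y : H0) : N (x * y) ≤ N x + N y := by
  unfold N
  rw [SemidirectProduct.mul_left]
  refine (FreeGroup.norm_mul_le _ _).trans ?_
  rw [norm_shift]

theorem N_inv (x : H0) : N x⁻¹ = N x := by
  unfold N
  rw [SemidirectProduct.inv_left, norm_shift, FreeGroup.norm_inv_eq]

/-- the generating set -/
def T : Set H0 := {g | N g ≤ 1}

theorem one_mem_T : (1 : H0) ∈ T := by
  show N 1 ≤ 1
  simp [N]

theorem N_le : ∀ (k : ℕ) (g : H0), g ∈ T ^ k → N g ≤ k := by
  intro k
  induction k with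
  | zero =>
    intro g hg
    simp at hg
    subst hg
    simp [N]
  | succ k ih =>
    intro g hg
    rw [pow_succ] at hg
    obtain ⟨y, hy, z, hz, rfl⟩ := Set.mem_mul.mp hg
    exact (N_mul y z).trans (Nat.add_le_add (ih y hy) hz)

theorem mem_pow : ∀ (k : ℕ) (g : H0), N g ≤ k + 1 → g ∈ T ^ (k + 1) := by
  intro k
  induction k with
  | zero =>
    intro g hg
    rw [zero_add, pow_one]
    exact hg
  | succ k ih =>
    intro g hg
    by_cases h : N g ≤ k + 1
    · exact pow_mono_one one_mem_T (by omega) (ih g h)
    · have hN : g.left.toWord.length = k + 2 := by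
        have : g.left.norm = k + 2 := by unfold N at h hg; omega
        exact this
      obtain ⟨x, L, hL⟩ : ∃ x L, g.left.toWord = x :: L := by
        cases hw : g.left.toWord with
        | nil => rw [hw] at hN; simp at hN
        | cons x L => exact ⟨x, L, rfl⟩
      have hleft : g.left = FreeGroup.mk [x] * FreeGroup.mk L := by
        rw [← g.left.mk_toWord, hL, FreeGroup.mul_mk]; rfl
      have hg2 : g = (⟨FreeGroup.mk [x], 1⟩ : H0) * (⟨FreeGroup.mk L, g.right⟩ : H0) := by
        apply SemidirectProduct.ext
        · rw [SemidirectProduct.mul_left]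
          simp only [map_one, MulAut.one_apply]
          exact hleft
        · rw [SemidirectProduct.mul_right]
          simp
      rw [hg2, pow_succ']
      apply Set.mul_mem_mul
      · show (FreeGroup.mk [x]).norm ≤ 1
        exact FreeGroup.norm_mk_le
      · apply ih
        show (FreeGroup.mk L).norm ≤ k + 1
        refine FreeGroup.norm_mk_le.trans ?_
        rw [hL] at hN
        simp at hN
        omega

theorem gen (g : H0) : ∃ k : ℕ, g ∈ T ^ k := ⟨N g + 1, mem_pow _ g (by omega)⟩

theorem N_le_wl (g : H0) : N g ≤ wl T g := N_le _ _ (mem_pow_wl gen g)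

theorem wl_le_N (g : H0) : wl T g ≤ N g + 1 := wl_le (mem_pow _ g (by omega))

end BaseHyp

open BaseHyp in
/-- T11a: the base group is hyperbolic (tree metric of the free group up to an additive constant). -/
theorem base_hyp : ∃ (ℓ : H0 → ℕ) (δ : ℕ), HypLen ℓ δ ∧ ProperLen ℓ := by
  refine ⟨wl T, 1, wl_hyp ?_ gen ?_, ?_⟩
  · intro x hx
    show N x⁻¹ ≤ 1
    rw [N_inv]
    exact hx
  · intro x y z w
    have h := four_free x.left y.left z.left w.left
    rw [← N_inv_mul, ← N_inv_mul, ← N_inv_mul, ← N_inv_mul, ← N_inv_mul, ← N_inv_mul] at h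
    unfold dst
    have h1 := wl_le_N (x⁻¹ * y)
    have h2 := wl_le_N (z⁻¹ * w)
    have h3 := N_le_wl (x⁻¹ * z)
    have h4 := N_le_wl (y⁻¹ * w)
    have h5 := N_le_wl (x⁻¹ * w)
    have h6 := N_le_wl (y⁻¹ * z)
    rcases h with h | h
    · left; omega
    · right; omega
  · intro r
    have hfin : {L : List (ZMod 3 × Bool) | L.length ≤ r}.Finite := List.finite_length_le _ r
    have hf2 : {x : F3 | x.norm ≤ r}.Finite := by
      apply Set.Finite.of_finite_image (f := FreeGroup.toWord)
      · apply hfin.subset
        rintro _ ⟨x, hx, rfl⟩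
        exact hx
      · exact FreeGroup.toWord_injective.injOn
    have hf3 : {g : H0 | N g ≤ r}.Finite := by
      have : ({x : F3 | x.norm ≤ r} ×ˢ (Set.univ : Set (Multiplicative (ZMod 3)))).Finite :=
        hf2.prod Set.finite_univ
      apply Set.Finite.of_finite_image (f := fun g : H0 => (g.left, g.right))
      · apply this.subset
        rintro _ ⟨x, hx, rfl⟩
        exact ⟨hx, Set.mem_univ _⟩
      · intro a _ b _ hab
        simp only [Prod.mk.injEq] at hab
        exact SemidirectProduct.ext hab.1 hab.2
    apply hf3.subset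
    intro g hg
    exact (N_le_wl g).trans hg

end Pool.Agent.Lib.MP_06935a_al
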