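import Pool.Agent.Lib.MP_06935a_al.Defs

set_option autoImplicit false

namespace Pool.Agent.Lib.MP_06935a_al

open scoped Pointwise

variable {Γ : Type} [Group Γ] {ℓ : Γ → ℕ} {δ : ℕ}

theorem dst_mul_left (ℓ : Γ → ℕ) (g x y : Γ) : dst ℓ (g * x) (g * y) = dst ℓ x y := by
  unfold dst
  congr 1
  group

theorem dst_one_left (ℓ : Γ → ℕ) (x : Γ) : dst ℓ 1 x = ℓ x := by
  simp [dst]

theorem dst_mul_right (ℓ : Γ → ℕ) (x s : Γ) : dst ℓ x (x * s) = ℓ s := by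
  simp [dst]

theorem HypLen.dst_self (H : HypLen ℓ δ) (x : Γ) : dst ℓ x x = 0 := by
  simp [dst, H.one]

theorem HypLen.dst_comm (H : HypLen ℓ δ) (x y : Γ) : dst ℓ x y = dst ℓ y x := by
  unfold dst
  rw [← H.inv (x⁻¹ * y)]
  congr 1
  group

theorem HypLen.dst_one_right (H : HypLen ℓ δ) (x : Γ) : dst ℓ x 1 = ℓ x := by
  rw [H.dst_comm, dst_one_left]

theorem HypLen.dst_tri (H : HypLen ℓ δ) (x y z : Γ) : dst ℓ x z ≤ dst ℓ x y + dst ℓ y z := by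
  unfold dst
  have h := H.mul (x⁻¹ * y) (y⁻¹ * z)
  have e : x⁻¹ * y * (y⁻¹ * z) = x⁻¹ * z := by group
  rwa [e] at h

theorem HypLen.dst_eq (H : HypLen ℓ δ) {x y : Γ} (h : dst ℓ x y = 0) : x = y := by
  have := H.eq_one _ h
  exact (inv_mul_eq_one.mp this)

theorem HypLen.zpow_neg (H : HypLen ℓ δ) (u : Γ) (i : ℤ) : ℓ (u ^ (-i)) = ℓ (u ^ i) := by
  rw [_root_.zpow_neg, H.inv]

theorem HypLen.zpow_natAbs (H : HypLen ℓ δ) (u : Γ) (i : ℤ) : ℓ (u ^ i) = ℓ (u ^ i.natAbs) := by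
  rcases Int.natAbs_eq i with h | h
  · conv_lhs => rw [h]
    rw [zpow_natCast]
  · conv_lhs => rw [h]
    rw [H.zpow_neg, zpow_natCast]

theorem HypLen.dst_zpow (H : HypLen ℓ δ) (u : Γ) (i j : ℤ) :
    dst ℓ (u ^ i) (u ^ j) = ℓ (u ^ (i - j)) := by
  unfold dst
  rw [← _root_.zpow_neg, ← zpow_add, ← H.zpow_neg u (i - j)]
  congr 2
  ring

/-- superadditivity up to `K` for integer exponents of the same sign -/
theorem QGeo.super_int {u : Γ} {K : ℕ} (Q : QGeo ℓ u K) {i j : ℤ}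
    (hi : 0 ≤ i) (hj : 0 ≤ j) : ℓ (u ^ i) + ℓ (u ^ j) ≤ ℓ (u ^ (i + j)) + K := by
  obtain ⟨a, rfl⟩ := Int.eq_ofNat_of_zero_le hi
  obtain ⟨b, rfl⟩ := Int.eq_ofNat_of_zero_le hj
  have := Q.super a b
  rw [← Nat.cast_add, zpow_natCast, zpow_natCast, zpow_natCast]
  exact this

theorem QGeo.unb_int {u : Γ} {K : ℕ} (H : HypLen ℓ δ) (Q : QGeo ℓ u K) (R : ℕ) :
    ∃ I : ℕ, ∀ i : ℤ, (I : ℤ) ≤ |i| → R ≤ ℓ (u ^ i) := by
  obtain ⟨I, hI⟩ := Q.unb R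
  refine ⟨I, fun i hi => ?_⟩
  rw [H.zpow_natAbs]
  apply hI
  have := Int.natCast_natAbs i
  omega

/-! ### word length -/

section wl

variable {T : Set Γ}

theorem mem_pow_wl (gen : ∀ x : Γ, ∃ k : ℕ, x ∈ T ^ k) (x : Γ) : x ∈ T ^ (wl T x) :=
  Nat.sInf_mem (s := {k | x ∈ T ^ k}) (gen x)

theorem wl_le {x : Γ} {k : ℕ} (h : x ∈ T ^ k) : wl T x ≤ k := Nat.sInf_le h

theorem pow_mono_one (h1 : (1 : Γ) ∈ T) {j k : ℕ} (h : j ≤ k) : T ^ j ⊆ T ^ k :=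
  Set.pow_subset_pow_right h1 h

theorem wl_one : wl T (1 : Γ) = 0 := by
  have : wl T (1 : Γ) ≤ 0 := wl_le (by simp)
  omega

theorem wl_le_one (gen : ∀ x : Γ, ∃ k : ℕ, x ∈ T ^ k) (h1 : (1 : Γ) ∈ T) {x : Γ} :
    wl T x ≤ 1 ↔ x ∈ T := by
  constructor
  · intro h
    have := pow_mono_one h1 h (mem_pow_wl gen x)
    simpa using this
  · intro h
    exact wl_le (by simpa using h)

theorem wl_eq_one (gen : ∀ x : Γ, ∃ k : ℕ, x ∈ T ^ k) {x : Γ} (h : wl T x = 0) : x = 1 := by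
  have := mem_pow_wl gen x
  rw [h] at this
  simpa using this

theorem inv_mem_pow (hi : ∀ x ∈ T, x⁻¹ ∈ T) : ∀ (k : ℕ) {x : Γ}, x ∈ T ^ k → x⁻¹ ∈ T ^ k := by
  intro k
  induction k with
  | zero => intro x hx; simpa using hx
  | succ k ih =>
    intro x hx
    rw [pow_succ] at hx
    obtain ⟨y, hy, z, hz, rfl⟩ := Set.mem_mul.mp hx
    rw [pow_succ', mul_inv_rev]
    exact Set.mul_mem_mul (hi _ hz) (ih hy)

theorem wl_inv (gen : ∀ x : Γ, ∃ k : ℕ, x ∈ T ^ k) (hi : ∀ x ∈ T, x⁻¹ ∈ T) (x : Γ) :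
    wl T x⁻¹ = wl T x := by
  apply le_antisymm
  · exact wl_le (inv_mem_pow hi _ (mem_pow_wl gen x))
  · apply wl_le
    have := inv_mem_pow hi _ (mem_pow_wl gen x⁻¹)
    simpa using this

theorem wl_mul (gen : ∀ x : Γ, ∃ k : ℕ, x ∈ T ^ k) (x y : Γ) :
    wl T (x * y) ≤ wl T x + wl T y := by
  apply wl_le
  rw [pow_add]
  exact Set.mul_mem_mul (mem_pow_wl gen x) (mem_pow_wl gen y)

theorem wl_split (gen : ∀ x : Γ, ∃ k : ℕ, x ∈ T ^ k) (x : Γ) (k : ℕ) (hk : k ≤ wl T x) :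
    ∃ y z, x = y * z ∧ wl T y = k ∧ k + wl T z = wl T x := by
  obtain ⟨m, hm⟩ := Nat.exists_eq_add_of_le hk
  have hx := mem_pow_wl gen x
  rw [hm, pow_add] at hx
  obtain ⟨y, hy, z, hz, rfl⟩ := Set.mem_mul.mp hx
  refine ⟨y, z, rfl, ?_, ?_⟩
  all_goals
    have h1 := wl_le hy
    have h2 := wl_le hz
    have h3 := wl_mul gen y z
    omega

/-- a word length satisfying the four point condition is a hyperbolic length -/
theorem wl_hyp (hi : ∀ x ∈ T, x⁻¹ ∈ T) (gen : ∀ x : Γ, ∃ k : ℕ, x ∈ T ^ k)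
    {δ : ℕ} (four : ∀ x y z w : Γ,
      dst (wl T) x y + dst (wl T) z w ≤ dst (wl T) x z + dst (wl T) y w + 2 * δ ∨
      dst (wl T) x y + dst (wl T) z w ≤ dst (wl T) x w + dst (wl T) y z + 2 * δ) :
    HypLen (wl T) δ where
  one := wl_one
  eq_one := fun _ h => wl_eq_one gen h
  inv := wl_inv gen hi
  mul := wl_mul gen
  split := wl_split gen
  four := four

end wl

theorem HypLen.mem_ball_pow (H : HypLen ℓ δ) :
    ∀ (k : ℕ) (x : Γ), ℓ x ≤ k → x ∈ {y : Γ | ℓ y ≤ 1} ^ k := by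
  intro k
  induction k with
  | zero =>
    intro x hx
    have : x = 1 := H.eq_one x (by omega)
    simp [this]
  | succ k ih =>
    intro x hx
    by_cases h : ℓ x ≤ k
    · exact pow_mono_one (by simp [H.one]) (Nat.le_succ k) (ih x h)
    · have hx' : ℓ x = k + 1 := by omega
      obtain ⟨y, z, rfl, hy, hz⟩ := H.split x k (by omega)
      rw [pow_succ]
      exact Set.mul_mem_mul (ih y hy.le) (by show ℓ z ≤ 1; omega)

theorem HypLen.gen (H : HypLen ℓ δ) (x : Γ) : ∃ k : ℕ, x ∈ {y : Γ | ℓ y ≤ 1} ^ k :=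
  ⟨ℓ x, H.mem_ball_pow _ x le_rfl⟩

theorem coneSet_one (H : HypLen ℓ δ) (u : Γ) : (1 : Γ) ∈ coneSet ℓ u := by
  left; simp [H.one]

theorem coneSet_inv (H : HypLen ℓ δ) (u : Γ) : ∀ x ∈ coneSet ℓ u, x⁻¹ ∈ coneSet ℓ u := by
  rintro x (hx | hx)
  · left; simpa [H.inv] using hx
  · right; exact (Subgroup.inv_mem _ hx)

theorem coneSet_gen (H : HypLen ℓ δ) (u : Γ) (x : Γ) : ∃ k : ℕ, x ∈ coneSet ℓ u ^ k := by
  obtain ⟨k, hk⟩ := H.gen x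
  exact ⟨k, Set.pow_subset_pow_left Set.subset_union_left hk⟩

theorem wl_coneSet_le (H : HypLen ℓ δ) (u : Γ) (x : Γ) : wl (coneSet ℓ u) x ≤ ℓ x :=
  wl_le (Set.pow_subset_pow_left Set.subset_union_left (H.mem_ball_pow _ x le_rfl))

end Pool.Agent.Lib.MP_06935a_al
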