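import Pool.Agent.Lib.MP_06935a_al.Basic

/-!
# T5a: Morse lemma for the coned-off metric

Chains of elements with increments in the generating set of the coned-off Cayley graph, the
logarithmic bisection lemma, and the Morse property.
-/

set_option autoImplicit false

namespace Pool.Agent.Lib.MP_06935a_al

open scoped Pointwise

variable {Γ : Type} [Group Γ] {ℓ : Γ → ℕ} {δ : ℕ}

/-- doubled Gromov product -/
def gpr (ℓ : Γ → ℕ) (x y z : Γ) : ℤ := (dst ℓ x z : ℤ) + dst ℓ y z - dst ℓ x y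

theorem gpr_mul_left (ℓ : Γ → ℕ) (g x y z : Γ) : gpr ℓ (g * x) (g * y) (g * z) = gpr ℓ x y z := by
  simp only [gpr, dst_mul_left]

/-- the four point condition for doubled Gromov products -/
theorem HypLen.gpr_min (H : HypLen ℓ δ) (x y w z : Γ) :
    gpr ℓ x w z - 2 * δ ≤ gpr ℓ x y z ∨ gpr ℓ w y z - 2 * δ ≤ gpr ℓ x y z := by
  unfold gpr
  have h := H.four x y z w
  have e1 := H.dst_comm z w
  have e2 := H.dst_comm y w
  have e3 := H.dst_comm y z
  have e4 := H.dst_comm z x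
  rcases h with h | h
  · right; omega
  · left; omega

/-- (QC) points close to a segment between two points of the axis are close to the axis -/
theorem qc (H : HypLen ℓ δ) {u : Γ} {p : Γ → ℤ} {K : ℕ} (M : MetProj ℓ u p K) (q : Γ) (i j : ℤ)
    (t : ℕ) (h : gpr ℓ (u ^ i) (u ^ j) q ≤ 2 * t) : dst ℓ q (u ^ p q) ≤ t + K := by
  have h1 := M.gp q i
  have h2 := M.gp q j
  have h3 := H.dst_tri (u ^ i) (u ^ p q) (u ^ j)
  rw [← H.dst_zpow] at h1 h2
  have e1 := H.dst_comm (u ^ p q) (u ^ i)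
  have e2 := H.dst_comm q (u ^ i)
  have e3 := H.dst_comm q (u ^ j)
  unfold gpr at h
  omega

/-! ### chains -/

/-- `Chain T S n x y`: there is a path of `n` steps in `T` from `x` to `y` all of whose vertices
satisfy `S` -/
def Chain (T : Set Γ) (S : Γ → Prop) : ℕ → Γ → Γ → Prop
  | 0, x, y => x = y ∧ S x
  | (n + 1), x, y => ∃ v, Chain T S n x v ∧ v⁻¹ * y ∈ T ∧ S y

section chain

variable {T : Set Γ} {S : Γ → Prop}

theorem Chain.left {n : ℕ} {x y : Γ} (h : Chain T S n x y) : S x := by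
  induction n generalizing y with
  | zero => exact h.2
  | succ n ih => obtain ⟨v, hv, -⟩ := h; exact ih hv

theorem Chain.right {n : ℕ} {x y : Γ} (h : Chain T S n x y) : S y := by
  cases n with
  | zero => obtain ⟨rfl, h⟩ := h; exact h
  | succ n => exact h.choose_spec.2.2

theorem Chain.mono {S' : Γ → Prop} (hS : ∀ v, S v → S' v) {n : ℕ} {x y : Γ}
    (h : Chain T S n x y) : Chain T S' n x y := by
  induction n generalizing y with
  | zero => exact ⟨h.1, hS _ h.2⟩
  | succ n ih =>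
    obtain ⟨v, hv, ht, hs⟩ := h
    exact ⟨v, ih hv, ht, hS _ hs⟩

theorem Chain.append {m n : ℕ} {x v y : Γ} (h1 : Chain T S m x v) (h2 : Chain T S n v y) :
    Chain T S (m + n) x y := by
  induction n generalizing y with
  | zero => obtain ⟨rfl, -⟩ := h2; exact h1
  | succ n ih =>
    obtain ⟨w, hw, ht, hs⟩ := h2
    exact ⟨w, ih hw, ht, hs⟩

theorem Chain.divide {m n : ℕ} {x y : Γ} (h : Chain T S (m + n) x y) :
    ∃ v, Chain T S m x v ∧ Chain T S n v y := by
  induction n generalizing y with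
  | zero => exact ⟨y, h, rfl, h.right⟩
  | succ n ih =>
    obtain ⟨w, hw, ht, hs⟩ := h
    obtain ⟨v, h1, h2⟩ := ih hw
    exact ⟨v, h1, w, h2, ht, hs⟩

theorem Chain.single {x y : Γ} (h : x⁻¹ * y ∈ T) (hx : S x) (hy : S y) : Chain T S 1 x y :=
  ⟨x, ⟨rfl, hx⟩, h, hy⟩

theorem Chain.symm (hi : ∀ x ∈ T, x⁻¹ ∈ T) {n : ℕ} {x y : Γ} (h : Chain T S n x y) :
    Chain T S n y x := by
  induction n generalizing y with
  | zero => obtain ⟨rfl, h⟩ := h; exact ⟨rfl, h⟩
  | succ n ih =>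
    obtain ⟨v, hv, ht, hs⟩ := h
    have h1 : Chain T S 1 y v := by
      refine Chain.single ?_ hs hv.right
      have := hi _ ht
      simpa using this
    have := h1.append (ih hv)
    rwa [Nat.add_comm] at this

/-- chains can be padded -/
theorem Chain.pad (h1 : (1 : Γ) ∈ T) {m n : ℕ} (hmn : m ≤ n) {x y : Γ} (h : Chain T S m x y) :
    Chain T S n x y := by
  induction n, hmn using Nat.le_induction with
  | base => exact h
  | succ n _ ih => exact ⟨y, ih, by simpa using h1, h.right⟩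

/-- a chain from a word -/
theorem chain_of_pow (n : ℕ) (x y : Γ) (h : x⁻¹ * y ∈ T ^ n) :
    Chain T (fun v => dst (wl T) x v ≤ n) n x y := by
  induction n generalizing y with
  | zero =>
    have : x⁻¹ * y = 1 := by simpa using h
    refine ⟨?_, ?_⟩
    · exact inv_mul_eq_one.mp this
    · simp [dst, wl_one]
  | succ n ih =>
    rw [pow_succ] at h
    obtain ⟨w, hw, t, ht, hwt⟩ := Set.mem_mul.mp h
    refine ⟨x * w, ?_, ?_, ?_⟩
    · refine (ih (x * w) (by simpa using hw)).mono fun v hv => ?_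
      exact Nat.le_succ_of_le hv
    · have e : (x * w)⁻¹ * y = t := by
        rw [mul_inv_rev, mul_assoc, ← hwt]; simp
      rw [e]; exact ht
    · show wl T (x⁻¹ * y) ≤ n + 1
      apply wl_le
      rw [← hwt, pow_succ]
      exact Set.mul_mem_mul hw ht

theorem chain_of_dst (gen : ∀ x : Γ, ∃ k : ℕ, x ∈ T ^ k) (x y : Γ) :
    Chain T (fun v => dst (wl T) x v ≤ dst (wl T) x y) (dst (wl T) x y) x y :=
  chain_of_pow _ x y (mem_pow_wl gen _)

/-- logarithmic bisection -/
theorem Chain.log (H : HypLen ℓ δ) (z : Γ) (k : ℕ) {x y : Γ} (h : Chain T S (2 ^ k) x y) :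
    ∃ v v', S v ∧ S v' ∧ v⁻¹ * v' ∈ T ∧ gpr ℓ v v' z ≤ gpr ℓ x y z + 2 * δ * k := by
  induction k generalizing x y with
  | zero =>
    obtain ⟨v, ⟨rfl, hx⟩, ht, hy⟩ := h
    exact ⟨x, y, hx, hy, ht, by simp⟩
  | succ k ih =>
    rw [pow_succ, mul_two] at h
    obtain ⟨w, h1, h2⟩ := h.divide
    rcases H.gpr_min x y w z with h3 | h3
    · obtain ⟨v, v', hv, hv', ht, hg⟩ := ih h1
      exact ⟨v, v', hv, hv', ht, by push_cast; linarith⟩
    · obtain ⟨v, v', hv, hv', ht, hg⟩ := ih h2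
      exact ⟨v, v', hv, hv', ht, by push_cast; linarith⟩

end chain

/-! ### the coned-off metric -/

theorem cone_le (H : HypLen ℓ δ) (u x y : Γ) : dst (wl (coneSet ℓ u)) x y ≤ dst ℓ x y :=
  wl_coneSet_le H u _

theorem cone_self (u x : Γ) : dst (wl (coneSet ℓ u)) x x = 0 := by
  simp [dst, wl_one]

theorem cone_comm (H : HypLen ℓ δ) (u x y : Γ) :
    dst (wl (coneSet ℓ u)) x y = dst (wl (coneSet ℓ u)) y x := by
  unfold dst
  rw [← wl_inv (coneSet_gen H u) (coneSet_inv H u) (x⁻¹ * y)]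
  congr 1
  group

theorem cone_tri (H : HypLen ℓ δ) (u x y z : Γ) :
    dst (wl (coneSet ℓ u)) x z ≤ dst (wl (coneSet ℓ u)) x y + dst (wl (coneSet ℓ u)) y z := by
  unfold dst
  have h := wl_mul (coneSet_gen H u) (x⁻¹ * y) (y⁻¹ * z)
  have e : x⁻¹ * y * (y⁻¹ * z) = x⁻¹ * z := by group
  rwa [e] at h

theorem cone_le_one (H : HypLen ℓ δ) (u x y : Γ) (h : x⁻¹ * y ∈ coneSet ℓ u) :
    dst (wl (coneSet ℓ u)) x y ≤ 1 :=
  (wl_le_one (coneSet_gen H u) (coneSet_one H u)).mpr h

/-- (jump) if a step of the coned-off graph has small Gromov product seen from `z`, then its initial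
point is close to `z` in the coned-off metric -/
theorem jump (H : HypLen ℓ δ) (u : Γ) (p : Γ → ℤ) (K : ℕ) (M : MetProj ℓ u p K) (a a' z : Γ)
    (ht : a⁻¹ * a' ∈ coneSet ℓ u) (t : ℕ) (h : gpr ℓ a a' z ≤ 2 * t) :
    dst (wl (coneSet ℓ u)) a z ≤ t + K + 1 := by
  rcases ht with ht | ht
  · have h1 : dst ℓ a a' ≤ 1 := ht
    have h2 := H.dst_tri a a' z
    have h3 := cone_le H u a z
    unfold gpr at h
    omega
  · obtain ⟨j, hj⟩ := Subgroup.mem_zpowers_iff.mp ht
    have e : a' = a * u ^ j := by rw [hj]; group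
    have h1 : gpr ℓ (u ^ (0 : ℤ)) (u ^ j) (a⁻¹ * z) ≤ 2 * t := by
      rw [← gpr_mul_left ℓ a]
      rw [← e]
      simpa using h
    have h2 := qc H M (a⁻¹ * z) 0 j t h1
    have h3 : dst (wl (coneSet ℓ u)) z (a * u ^ p (a⁻¹ * z)) ≤ t + K := by
      refine (cone_le H u _ _).trans ?_
      rw [← dst_mul_left ℓ a] at h2
      simpa using h2
    have h4 : dst (wl (coneSet ℓ u)) a (a * u ^ p (a⁻¹ * z)) ≤ 1 := by
      apply cone_le_one H
      right
      simp
    have h5 := cone_tri H u a (a * u ^ p (a⁻¹ * z)) z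
    rw [cone_comm H u (a * u ^ p (a⁻¹ * z)) z] at h5
    omega

/-- (*) a chain in the coned-off graph with endpoints `x`, `y` at most `2 ^ k` steps apart passes
close to every point `z` with small Gromov product -/
theorem chain_near (H : HypLen ℓ δ) (u : Γ) (p : Γ → ℤ) (K : ℕ) (M : MetProj ℓ u p K)
    {S : Γ → Prop} (k t n : ℕ) (hn : n ≤ 2 ^ k) (x y z : Γ) (hc : Chain (coneSet ℓ u) S n x y)
    (h : gpr ℓ x y z ≤ 2 * t) :
    ∃ v, S v ∧ dst (wl (coneSet ℓ u)) v z ≤ δ * k + t + K + 1 := by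
  obtain ⟨v, v', hv, -, ht, hg⟩ := (hc.pad (coneSet_one H u) hn).log H z k
  refine ⟨v, hv, ?_⟩
  have := jump H u p K M v v' z ht (δ * k + t) (by push_cast; linarith)
  omega

/-! ### geodesics of `ℓ` -/

theorem HypLen.exists_geod (H : HypLen ℓ δ) (n : ℕ) (x y : Γ) (h : dst ℓ x y = n) :
    ∃ c : ℕ → Γ, c 0 = x ∧ c n = y ∧ ∀ i < n, dst ℓ (c i) (c (i + 1)) ≤ 1 := by
  induction n generalizing x with
  | zero =>
    refine ⟨fun _ => x, rfl, H.dst_eq h, fun i hi => by omega⟩
  | succ n ih =>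
    obtain ⟨s, w, e, hs, hw⟩ := H.split (x⁻¹ * y) 1 (by unfold dst at h; omega)
    have hxy : dst ℓ (x * s) y = n := by
      have e' : (x * s)⁻¹ * y = w := by rw [mul_inv_rev, mul_assoc, e]; simp
      unfold dst at h ⊢
      rw [e']; omega
    obtain ⟨c, h0, h1, h2⟩ := ih (x * s) hxy
    refine ⟨fun i => Nat.casesOn i x c, rfl, h1, ?_⟩
    intro i hi
    cases i with
    | zero =>
      show dst ℓ x (c 0) ≤ 1
      rw [h0, dst_mul_right]; omega
    | succ i => exact h2 i (by omega)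

/-- a geodesic from `x` to `y` through `z` -/
theorem HypLen.exists_geod_through (H : HypLen ℓ δ) (x y z : Γ)
    (h : dst ℓ x z + dst ℓ z y = dst ℓ x y) :
    ∃ c : ℕ → Γ, c 0 = x ∧ c (dst ℓ x y) = y ∧ c (dst ℓ x z) = z ∧
      ∀ i j, i ≤ j → j ≤ dst ℓ x y → dst ℓ (c i) (c j) = j - i := by
  obtain ⟨c, c0, c1, c2⟩ := H.exists_geod _ x z rfl
  obtain ⟨d, d0, d1, d2⟩ := H.exists_geod _ z y rfl
  set m := dst ℓ x z with hm
  let e : ℕ → Γ := fun i => if i ≤ m then c i else d (i - m)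
  have e0 : e 0 = x := by simp [e, c0]
  have em : e m = z := by simp [e, c1]
  have en : e (dst ℓ x y) = y := by
    rcases Nat.eq_zero_or_pos (dst ℓ z y) with hz | hz
    · have : dst ℓ x y = m := by omega
      rw [this, em]
      exact H.dst_eq hz
    · simp only [e]
      rw [if_neg (by omega)]
      have : dst ℓ x y - m = dst ℓ z y := by omega
      rw [this, d1]
  have estep : ∀ i < dst ℓ x y, dst ℓ (e i) (e (i + 1)) ≤ 1 := by
    intro i hi
    simp only [e]
    by_cases h1 : i < m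
    · rw [if_pos (by omega), if_pos (by omega)]
      exact c2 i h1
    · by_cases h2 : i = m
      · subst h2
        rw [if_pos le_rfl, if_neg (by omega), c1]
        have := d2 0 (by omega)
        rw [d0] at this
        simpa using this
      · rw [if_neg (by omega), if_neg (by omega)]
        have := d2 (i - m) (by omega)
        have e' : i - m + 1 = i + 1 - m := by omega
        rwa [e'] at this
  have ele : ∀ i j, i ≤ j → j ≤ dst ℓ x y → dst ℓ (e i) (e j) ≤ j - i := by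
    intro i j hij
    induction j, hij using Nat.le_induction with
    | base => intro _; simp [H.dst_self]
    | succ j hj ih =>
      intro hjn
      have h1 := ih (by omega)
      have h2 := estep j (by omega)
      have h3 := H.dst_tri (e i) (e j) (e (j + 1))
      omega
  refine ⟨e, e0, en, em, ?_⟩
  intro i j hij hj
  apply le_antisymm (ele i j hij hj)
  have h1 := ele 0 i (by omega) (by omega)
  have h2 := ele j _ hj le_rfl
  have h3 := H.dst_tri (e 0) (e i) (e (dst ℓ x y))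
  have h4 := H.dst_tri (e i) (e j) (e (dst ℓ x y))
  rw [e0, en] at h3
  rw [en] at h2 h4
  rw [e0] at h1
  omega

/-- discrete intermediate value theorem -/
theorem nat_ivt (f : ℕ → ℕ) (r : ℕ) (j : ℕ) (h0 : r ≤ f 0) (hj : f j ≤ r)
    (hs : ∀ i < j, f i ≤ f (i + 1) + 1) : ∃ i ≤ j, f i = r := by
  induction j with
  | zero => exact ⟨0, le_rfl, by omega⟩
  | succ j ih =>
    by_cases h : f (j + 1) = r
    · exact ⟨j + 1, le_rfl, h⟩
    · have := hs j (by omega)
      obtain ⟨i, hi, he⟩ := ih (by omega) (fun i hi => hs i (by omega))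
      exact ⟨i, by omega, he⟩

/-- growth of powers of two -/
theorem exists_log_bound (δ K : ℕ) : ∃ k₀ : ℕ, ∀ k ≥ k₀, δ * (k + 4) + K + 1 < 2 ^ k := by
  refine ⟨2 * (2 * δ + K + 4), ?_⟩
  intro k hk
  induction k, hk using Nat.le_induction with
  | base =>
    set s := 2 * δ + K + 4 with hs
    have h1 : s < 2 ^ s := Nat.lt_two_pow_self
    have h2 : (s + 1) * (s + 1) ≤ 2 ^ s * 2 ^ s := Nat.mul_le_mul h1 h1
    rw [two_mul, pow_add]
    refine lt_of_lt_of_le ?_ h2
    have h3 : (s + 1) * (s + 1) = (2 * δ + K + 5) * (s + 1) := by rw [hs]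
    rw [h3]
    nlinarith
  | succ k hk ih =>
    rw [pow_succ]
    have : δ * (k + 1 + 4) ≤ δ * (k + 4) * 2 := by nlinarith
    omega

/-- chains along a path -/
theorem chain_along {T : Set Γ} {S : Γ → Prop} (a : ℕ → Γ) (m : ℕ)
    (ht : ∀ i < m, (a i)⁻¹ * a (i + 1) ∈ T) (hS : ∀ i ≤ m, S (a i)) (i j : ℕ) (hij : i ≤ j)
    (hj : j ≤ m) : Chain T S (j - i) (a i) (a j) := by
  induction j, hij using Nat.le_induction with
  | base => rw [Nat.sub_self]; exact ⟨rfl, hS _ hj⟩
  | succ j hij ih =>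
    rw [Nat.succ_sub hij]
    exact ⟨a j, ih (by omega), ht j (by omega), hS _ hj⟩

/-- T5a: Morse property: points on geodesics of `ℓ` are close, in the coned-off metric, to any
geodesic path of the coned-off metric with the same endpoints. -/
theorem cone_morse (H : HypLen ℓ δ) (u : Γ) (p : Γ → ℤ) (K : ℕ) (M : MetProj ℓ u p K) :
    ∃ R₀ : ℕ, ∀ (m : ℕ) (a : ℕ → Γ),
      (∀ i j, i ≤ j → j ≤ m → dst (wl (coneSet ℓ u)) (a i) (a j) = j - i) →
      ∀ z : Γ, dst ℓ (a 0) z + dst ℓ z (a m) = dst ℓ (a 0) (a m) →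
        ∃ i ≤ m, dst (wl (coneSet ℓ u)) z (a i) ≤ R₀ := by
  obtain ⟨k₀, hk₀⟩ := exists_log_bound δ K
  refine ⟨2 ^ k₀, ?_⟩
  intro m a ha z hz
  set T := coneSet ℓ u with hT
  set d := dst (wl T) with hd
  have dself : ∀ x, d x x = 0 := cone_self u
  have dcomm : ∀ x y, d x y = d y x := cone_comm H u
  have dtri : ∀ x y z, d x z ≤ d x y + d y z := cone_tri H u
  have dle : ∀ x y, d x y ≤ dst ℓ x y := cone_le H u
  obtain ⟨c, c0, cn, cz, cd⟩ := H.exists_geod_through (a 0) (a m) z hz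
  set n := dst ℓ (a 0) (a m) with hn
  -- the maximal distance
  let P : ℕ → Prop := fun R => ∃ j ≤ n, ∀ i ≤ m, R ≤ d (c j) (a i)
  have P0 : P 0 := ⟨0, Nat.zero_le _, fun _ _ => Nat.zero_le _⟩
  have Pbd : ∀ R, P R → R ≤ n := by
    rintro R ⟨j, hj, hR⟩
    have h1 := hR 0 (Nat.zero_le _)
    have h2 := dle (c j) (a 0)
    have h3 := cd 0 j (Nat.zero_le _) hj
    rw [c0, H.dst_comm] at h3
    omega
  obtain ⟨R, PR, PR1⟩ : ∃ R, P R ∧ ¬ P (R + 1) := by
    by_contra hcon
    push Not at hcon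
    have : ∀ r, P r := fun r => by
      induction r with
      | zero => exact P0
      | succ r ih => exact hcon r ih
    have := Pbd _ (this (n + 1))
    omega
  have hall : ∀ j ≤ n, ∃ i ≤ m, d (c j) (a i) ≤ R := by
    intro j hj
    by_contra hcon
    push Not at hcon
    exact PR1 ⟨j, hj, fun i hi => hcon i hi⟩
  -- suffices: R is bounded
  suffices hR : R ≤ 2 ^ k₀ by
    obtain ⟨i, hi, hle⟩ := hall (dst ℓ (a 0) z) (by omega)
    rw [cz] at hle
    exact ⟨i, hi, hle.trans hR⟩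
  obtain ⟨js, hjs, hfar⟩ := PR
  set z' := c js with hz'
  have step : ∀ i < n, d (c i) (c (i + 1)) ≤ 1 := by
    intro i hi
    have h1 := dle (c i) (c (i + 1))
    have h2 := cd i (i + 1) (by omega) (by omega)
    omega
  let S : Γ → Prop := fun v => R ≤ d v z'
  have Sa : ∀ i ≤ m, S (a i) := fun i hi => by
    show R ≤ d (a i) z'
    rw [dcomm]; exact hfar i hi
  -- a connecting chain
  have conn : ∀ j ≤ n, d (c j) z' = 2 * R → ∃ i ≤ m, d (c j) (a i) ≤ R ∧
      ∃ r ≤ R, Chain T S r (c j) (a i) := by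
    intro j hj hjz
    obtain ⟨i, hi, hle⟩ := hall j hj
    refine ⟨i, hi, hle, d (c j) (a i), hle, ?_⟩
    refine (chain_of_dst (coneSet_gen H u) (c j) (a i)).mono ?_
    intro v hv
    show R ≤ d v z'
    have h1 := dtri (c j) v z'
    have h2 : d (c j) v ≤ d (c j) (a i) := hv
    omega
  -- left end
  obtain ⟨j1, i1, hj1, hi1, hd1, hd1', r1, hr1, hc1⟩ : ∃ j1 i1, j1 ≤ js ∧ i1 ≤ m ∧
      d (c j1) (a i1) ≤ R ∧ d (c j1) z' ≤ 2 * R ∧ ∃ r ≤ R, Chain T S r (c j1) (a i1) := by
    by_cases h : 2 * R ≤ d (c 0) z'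
    · obtain ⟨j1, hj1, he⟩ := nat_ivt (fun i => d (c i) z') (2 * R) js h
        (by simp only [hz', dself]; omega) (by
          intro i hi
          have h1 := dtri (c i) (c (i + 1)) z'
          have h2 := step i (by omega)
          omega)
      obtain ⟨i1, hi1, hle, r, hr, hc⟩ := conn j1 (by omega) he
      exact ⟨j1, i1, hj1, hi1, hle, he.le, r, hr, hc⟩
    · refine ⟨0, 0, Nat.zero_le _, Nat.zero_le _, ?_, by omega, 0, Nat.zero_le _, ?_⟩
      · rw [c0, dself]; omega
      · rw [c0]; exact ⟨rfl, Sa 0 (Nat.zero_le _)⟩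
  -- right end
  obtain ⟨j2, i2, hj2, hj2n, hi2, hd2, hd2', r2, hr2, hc2⟩ : ∃ j2 i2, js ≤ j2 ∧ j2 ≤ n ∧ i2 ≤ m ∧
      d (c j2) (a i2) ≤ R ∧ d (c j2) z' ≤ 2 * R ∧ ∃ r ≤ R, Chain T S r (c j2) (a i2) := by
    by_cases h : 2 * R ≤ d (c n) z'
    · obtain ⟨j', hj', he⟩ := nat_ivt (fun i => d (c (n - i)) z') (2 * R) (n - js)
        (by simpa using h)
        (by
          have : n - (n - js) = js := by omega
          simp only [this, hz', dself]; omega) (by
          intro i hi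
          have h1 := dtri (c (n - i)) (c (n - (i + 1))) z'
          have h2 := step (n - (i + 1)) (by omega)
          have h3 : n - (i + 1) + 1 = n - i := by omega
          rw [h3, dcomm] at h2
          omega)
      obtain ⟨i2, hi2, hle, r, hr, hc⟩ := conn (n - j') (by omega) he
      exact ⟨n - j', i2, by omega, by omega, hi2, hle, he.le, r, hr, hc⟩
    · refine ⟨n, m, hjs, le_rfl, le_rfl, ?_, by omega, 0, Nat.zero_le _, ?_⟩
      · rw [cn, dself]; omega
      · rw [cn]; exact ⟨rfl, Sa m le_rfl⟩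
  -- the middle part
  have astep : ∀ i < m, (a i)⁻¹ * a (i + 1) ∈ T := by
    intro i hi
    rw [← wl_le_one (coneSet_gen H u) (coneSet_one H u)]
    have := ha i (i + 1) (by omega) (by omega)
    show d (a i) (a (i + 1)) ≤ 1
    omega
  obtain ⟨r3, hr3, hc3⟩ : ∃ r ≤ 6 * R, Chain T S r (a i1) (a i2) := by
    have h1 := dtri (a i1) (c j1) (a i2)
    have h2 := dtri (c j1) z' (a i2)
    have h3 := dtri z' (c j2) (a i2)
    have h4 := dcomm (a i1) (c j1)
    have h5 := dcomm z' (c j2)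
    rcases Nat.le_total i1 i2 with h | h
    · have h6 := ha i1 i2 h hi2
      exact ⟨i2 - i1, by omega, chain_along a m astep Sa i1 i2 h hi2⟩
    · have h6 := ha i2 i1 h hi1
      have h7 := dcomm (a i1) (a i2)
      exact ⟨i1 - i2, by omega,
        (chain_along a m astep Sa i2 i1 h hi1).symm (coneSet_inv H u)⟩
  have hchain := (hc1.append hc3).append (hc2.symm (coneSet_inv H u))
  have hg : gpr ℓ (c j1) (c j2) z' ≤ 2 * (0 : ℕ) := by
    unfold gpr
    have h1 := cd j1 js hj1 (by omega)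
    have h2 := cd js j2 hj2 hj2n
    have h3 := cd j1 j2 (by omega) hj2n
    rw [← hz'] at h1 h2
    rw [H.dst_comm] at h2
    omega
  -- conclusion
  by_contra hcon
  push Not at hcon
  have hR0 : R ≠ 0 := by
    have : 0 < 2 ^ k₀ := Nat.two_pow_pos k₀
    omega
  set k := Nat.log 2 R with hk
  have hk1 : 2 ^ k ≤ R := Nat.pow_log_le_self 2 hR0
  have hk2 : R < 2 ^ (k + 1) := Nat.lt_pow_succ_log_self (by norm_num) R
  have hkk : k₀ ≤ k := by
    by_contra hlt
    push Not at hlt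
    have : 2 ^ (k + 1) ≤ 2 ^ k₀ := Nat.pow_le_pow_right (by norm_num) hlt
    omega
  have h8 : r1 + r3 + r2 ≤ 2 ^ (k + 4) := by
    have : 2 ^ (k + 4) = 8 * 2 ^ (k + 1) := by ring
    omega
  obtain ⟨v, hv, hle⟩ := chain_near H u p K M (k + 4) 0 _ h8 _ _ z' hchain hg
  have hv' : R ≤ d v z' := hv
  have := hk₀ k hkk
  have hle' : d v z' ≤ δ * (k + 4) + 0 + K + 1 := hle
  omega

end Pool.Agent.Lib.MP_06935a_al
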