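import Pool.Agent.Lib.MP_06935a_al.Cone1

/-!
# T5b: the coned-off metric is hyperbolic
-/

set_option autoImplicit false

namespace Pool.Agent.Lib.MP_06935a_al

open scoped Pointwise

variable {Γ : Type} [Group Γ] {ℓ : Γ → ℕ} {δ : ℕ}

/-- geodesic paths for the coned-off metric -/
theorem cone_geod_aux (H : HypLen ℓ δ) (u : Γ) (n : ℕ) (x y : Γ)
    (h : dst (wl (coneSet ℓ u)) x y = n) :
    ∃ c : ℕ → Γ, c 0 = x ∧ c n = y ∧ ∀ i < n, dst (wl (coneSet ℓ u)) (c i) (c (i + 1)) ≤ 1 := by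
  induction n generalizing x with
  | zero =>
    refine ⟨fun _ => x, rfl, ?_, fun i hi => by omega⟩
    have := wl_eq_one (coneSet_gen H u) h
    exact inv_mul_eq_one.mp this
  | succ n ih =>
    obtain ⟨s, w, e, hs, hw⟩ := wl_split (coneSet_gen H u) (x⁻¹ * y) 1
      (by unfold dst at h; omega)
    have hxy : dst (wl (coneSet ℓ u)) (x * s) y = n := by
      have e' : (x * s)⁻¹ * y = w := by rw [mul_inv_rev, mul_assoc, e]; simp
      unfold dst at h ⊢
      rw [e']; omega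
    obtain ⟨c, h0, h1, h2⟩ := ih (x * s) hxy
    refine ⟨fun i => Nat.casesOn i x c, rfl, h1, ?_⟩
    intro i hi
    cases i with
    | zero =>
      show dst (wl (coneSet ℓ u)) x (c 0) ≤ 1
      rw [h0, dst_mul_right]; omega
    | succ i => exact h2 i (by omega)

theorem cone_geod (H : HypLen ℓ δ) (u : Γ) (x y : Γ) :
    ∃ c : ℕ → Γ, c 0 = x ∧ c (dst (wl (coneSet ℓ u)) x y) = y ∧
      ∀ i j, i ≤ j → j ≤ dst (wl (coneSet ℓ u)) x y →
        dst (wl (coneSet ℓ u)) (c i) (c j) = j - i := by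
  obtain ⟨e, e0, en, estep⟩ := cone_geod_aux H u _ x y rfl
  have ele : ∀ i j, i ≤ j → j ≤ dst (wl (coneSet ℓ u)) x y →
      dst (wl (coneSet ℓ u)) (e i) (e j) ≤ j - i := by
    intro i j hij
    induction j, hij using Nat.le_induction with
    | base => intro _; simp [cone_self]
    | succ j hj ih =>
      intro hjn
      have h1 := ih (by omega)
      have h2 := estep j (by omega)
      have h3 := cone_tri H u (e i) (e j) (e (j + 1))
      omega
  refine ⟨e, e0, en, ?_⟩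
  intro i j hij hj
  apply le_antisymm (ele i j hij hj)
  have h1 := ele 0 i (by omega) (by omega)
  have h2 := ele j _ hj le_rfl
  have h3 := cone_tri H u (e 0) (e i) (e (dst (wl (coneSet ℓ u)) x y))
  have h4 := cone_tri H u (e i) (e j) (e (dst (wl (coneSet ℓ u)) x y))
  rw [e0, en] at h3
  rw [en] at h2 h4
  rw [e0] at h1
  omega

/-- a point with Gromov product at most `2 t` is close to a geodesic -/
theorem HypLen.near_geod (H : HypLen ℓ δ) (x y z : Γ) (t : ℕ) (h : gpr ℓ x y z ≤ 2 * t) :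
    ∃ c, dst ℓ x c + dst ℓ c y = dst ℓ x y ∧ dst ℓ z c ≤ t + 2 * δ := by
  have t1 := H.dst_tri y x z
  have t2 := H.dst_tri x y z
  have t3 := H.dst_tri x z y
  have c1 := H.dst_comm x y
  have c2 := H.dst_comm x z
  have c3 := H.dst_comm y z
  obtain ⟨c, c0, cn, cs⟩ : ∃ c : Γ, dst ℓ x c = (dst ℓ x z + dst ℓ x y - dst ℓ y z) / 2 ∧
      dst ℓ x c + dst ℓ c y = dst ℓ x y ∧ True := by
    obtain ⟨v, w, e, hv, hw⟩ := H.split (x⁻¹ * y) ((dst ℓ x z + dst ℓ x y - dst ℓ y z) / 2)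
      (by show _ ≤ dst ℓ x y; omega)
    refine ⟨x * v, ?_, ?_, trivial⟩
    · rw [dst_mul_right, hv]
    · have e' : dst ℓ (x * v) y = ℓ w := by
        unfold dst
        rw [mul_inv_rev, mul_assoc, e]; simp
      rw [dst_mul_right, e', hv]
      exact hw
  refine ⟨c, cn, ?_⟩
  have c4 := H.dst_comm c x
  have c5 := H.dst_comm z c
  have c6 := H.dst_comm c y
  have f := H.four z c x y
  unfold gpr at h
  omega

/-- (star), vertex form: a `D^`-geodesic path passes close to points with small Gromov product -/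
theorem cone_near_path (H : HypLen ℓ δ) (u : Γ) (R₀ : ℕ)
    (hR : ∀ (m : ℕ) (a : ℕ → Γ),
      (∀ i j, i ≤ j → j ≤ m → dst (wl (coneSet ℓ u)) (a i) (a j) = j - i) →
      ∀ z : Γ, dst ℓ (a 0) z + dst ℓ z (a m) = dst ℓ (a 0) (a m) →
        ∃ i ≤ m, dst (wl (coneSet ℓ u)) z (a i) ≤ R₀)
    (m : ℕ) (a : ℕ → Γ) (ha : ∀ i j, i ≤ j → j ≤ m → dst (wl (coneSet ℓ u)) (a i) (a j) = j - i)
    (z : Γ) (t : ℕ) (h : gpr ℓ (a 0) (a m) z ≤ 2 * t) :
    ∃ i ≤ m, dst (wl (coneSet ℓ u)) z (a i) ≤ R₀ + t + 2 * δ := by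
  obtain ⟨c, hc, hz⟩ := H.near_geod _ _ z t h
  obtain ⟨i, hi, hle⟩ := hR m a ha c hc
  refine ⟨i, hi, ?_⟩
  have h1 := cone_tri H u z c (a i)
  have h2 := cone_le H u z c
  omega

/-- (star) -/
theorem cone_star (H : HypLen ℓ δ) (u : Γ) (R₀ : ℕ)
    (hR : ∀ (m : ℕ) (a : ℕ → Γ),
      (∀ i j, i ≤ j → j ≤ m → dst (wl (coneSet ℓ u)) (a i) (a j) = j - i) →
      ∀ z : Γ, dst ℓ (a 0) z + dst ℓ z (a m) = dst ℓ (a 0) (a m) →
        ∃ i ≤ m, dst (wl (coneSet ℓ u)) z (a i) ≤ R₀)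
    (x y z : Γ) (t : ℕ) (h : gpr ℓ x y z ≤ 2 * t) :
    dst (wl (coneSet ℓ u)) x z + dst (wl (coneSet ℓ u)) z y ≤
      dst (wl (coneSet ℓ u)) x y + 2 * (R₀ + t + 2 * δ) := by
  obtain ⟨a, a0, am, ha⟩ := cone_geod H u x y
  obtain ⟨i, hi, hle⟩ := cone_near_path H u R₀ hR _ a ha z t (by rw [a0, am]; exact h)
  have h1 := ha 0 i (Nat.zero_le _) hi
  have h2 := ha i _ hi le_rfl
  rw [a0] at h1
  rw [am] at h2
  have h3 := cone_tri H u x (a i) z
  have h4 := cone_tri H u z (a i) y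
  have h5 := cone_comm H u z (a i)
  omega

/-- centre of a quadrilateral -/
theorem HypLen.centre (H : HypLen ℓ δ) (x y z w : Γ)
    (h : dst ℓ x w + dst ℓ y z ≤ dst ℓ x z + dst ℓ y w) :
    ∃ c, dst ℓ x c + dst ℓ c z = dst ℓ x z ∧ dst ℓ y c + dst ℓ c w ≤ dst ℓ y w + 6 * δ + 2 := by
  have t1 := H.dst_tri x y z
  have t2 := H.dst_tri y x z
  have t3 := H.dst_tri x z y
  have c1 := H.dst_comm x y
  have c2 := H.dst_comm x z
  have c3 := H.dst_comm y z
  obtain ⟨c, c0, cn⟩ : ∃ c : Γ, dst ℓ x c = (dst ℓ x y + dst ℓ x z - dst ℓ y z) / 2 ∧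
      dst ℓ x c + dst ℓ c z = dst ℓ x z := by
    obtain ⟨v, v', e, hv, hw⟩ := H.split (x⁻¹ * z) ((dst ℓ x y + dst ℓ x z - dst ℓ y z) / 2)
      (by show _ ≤ dst ℓ x z; omega)
    refine ⟨x * v, ?_, ?_⟩
    · rw [dst_mul_right, hv]
    · have e' : dst ℓ (x * v) z = ℓ v' := by
        unfold dst
        rw [mul_inv_rev, mul_assoc, e]; simp
      rw [dst_mul_right, e', hv]
      exact hw
  refine ⟨c, cn, ?_⟩
  have c4 := H.dst_comm c x
  have c5 := H.dst_comm y c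
  have c6 := H.dst_comm c z
  have c7 := H.dst_comm w c
  have c8 := H.dst_comm w x
  have c9 := H.dst_comm w z
  have f1 := H.four y c x z
  have f2 := H.four w c x z
  have f3 := H.four x y z w
  omega

/-- T5b: the coned-off metric is hyperbolic. -/
theorem cone_hyp (H : HypLen ℓ δ) (u : Γ) (p : Γ → ℤ) (K : ℕ) (M : MetProj ℓ u p K) :
    ∃ δ' : ℕ, HypLen (wl (coneSet ℓ u)) δ' := by
  obtain ⟨R₀, hR⟩ := cone_morse H u p K M
  refine ⟨2 * R₀ + 7 * δ + 1, wl_hyp (coneSet_inv H u) (coneSet_gen H u) ?_⟩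
  have key : ∀ x y z w : Γ, dst ℓ x w + dst ℓ y z ≤ dst ℓ x z + dst ℓ y w →
      dst (wl (coneSet ℓ u)) x y + dst (wl (coneSet ℓ u)) z w ≤
        dst (wl (coneSet ℓ u)) x z + dst (wl (coneSet ℓ u)) y w + 2 * (2 * R₀ + 7 * δ + 1) := by
    intro x y z w h
    obtain ⟨c, h1, h2⟩ := H.centre x y z w h
    have s1 := cone_star H u R₀ hR x z c 0 (by
      unfold gpr
      rw [H.dst_comm z c]; push_cast; omega)
    have s2 := cone_star H u R₀ hR y w c (3 * δ + 1) (by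
      unfold gpr
      rw [H.dst_comm w c]; push_cast; omega)
    have e1 := cone_tri H u x c y
    have e2 := cone_tri H u z c w
    have e3 := cone_comm H u c y
    have e4 := cone_comm H u z c
    omega
  intro x y z w
  rcases Nat.le_total (dst ℓ x w + dst ℓ y z) (dst ℓ x z + dst ℓ y w) with h | h
  · exact Or.inl (key x y z w h)
  · right
    have := key x y w z h
    rw [cone_comm H u w z] at this
    exact this

end Pool.Agent.Lib.MP_06935a_al
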