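import Pool.Agent.Lib.MP_06935a_al.Cone2

/-!
# T5c: bounded geodesic image for the coned-off metric
-/

set_option autoImplicit false

namespace Pool.Agent.Lib.MP_06935a_al

open scoped Pointwise

variable {Γ : Type} [Group Γ] {ℓ : Γ → ℕ} {δ : ℕ}

/-- one step of the coned-off graph not inside the coset `h E` moves the projection to `h E` by a
bounded amount -/
theorem step_bound (u : Γ) (p : Γ → ℤ) (C θ : ℕ) (P : ProjSys ℓ u p C θ) (h a b : Γ)
    (hab : a⁻¹ * b ∈ coneSet ℓ u)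
    (hn : ¬ (h⁻¹ * a ∈ Subgroup.zpowers u ∧ h⁻¹ * b ∈ Subgroup.zpowers u)) :
    |p (h⁻¹ * a) - p (h⁻¹ * b)| ≤ (C : ℤ) + θ := by
  rcases hab with hab | hab
  · have h1 := P.lip (h⁻¹ * a) (a⁻¹ * b) hab
    have e : h⁻¹ * a * (a⁻¹ * b) = h⁻¹ * b := by group
    rw [e, abs_sub_comm] at h1
    have : (0 : ℤ) ≤ θ := Int.natCast_nonneg _
    linarith
  · obtain ⟨j, hj⟩ := Subgroup.mem_zpowers_iff.mp hab
    have hna : h⁻¹ * a ∉ Subgroup.zpowers u := by
      intro ha
      apply hn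
      refine ⟨ha, ?_⟩
      have := (Subgroup.zpowers u).mul_mem ha hab
      have e : h⁻¹ * a * (a⁻¹ * b) = h⁻¹ * b := by group
      rwa [e] at this
    have h1 := P.bdd (h⁻¹ * a) hna j
    rw [hj] at h1
    have e : h⁻¹ * a * (a⁻¹ * b) = h⁻¹ * b := by group
    rw [e, abs_sub_comm] at h1
    have : (0 : ℤ) ≤ C := Int.natCast_nonneg _
    linarith

/-- T5c: if the projections to a coset are far apart, some geodesic of the coned-off metric
jumps along this coset. -/
theorem cone_bgi (H : HypLen ℓ δ) (u : Γ) (p : Γ → ℤ) (K : ℕ) (M : MetProj ℓ u p K)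
    (C θ : ℕ) (P : ProjSys ℓ u p C θ) :
    ∃ B : ℕ, ∀ x y h : Γ, (B : ℤ) ≤ |p (h⁻¹ * x) - p (h⁻¹ * y)| →
      ∃ i j : ℤ, dst (wl (coneSet ℓ u)) x (h * u ^ i) + 1 +
        dst (wl (coneSet ℓ u)) (h * u ^ j) y ≤ dst (wl (coneSet ℓ u)) x y := by
  obtain ⟨R₀, hR⟩ := cone_morse H u p K M
  set R₁ := R₀ + K + 2 * δ with hR₁
  refine ⟨2 * K + (2 * R₁ + 4) * (C + θ) + 1, ?_⟩
  intro x y h hB
  obtain ⟨a, a0, am, ha⟩ := cone_geod H u x y
  set d := dst (wl (coneSet ℓ u)) with hd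
  set m := d x y with hm
  have dcomm : ∀ x y, d x y = d y x := cone_comm H u
  have dtri : ∀ x y z, d x z ≤ d x y + d y z := cone_tri H u
  by_contra hcon
  -- no step inside the coset
  have astep : ∀ i < m, (a i)⁻¹ * a (i + 1) ∈ coneSet ℓ u := by
    intro i hi
    rw [← wl_le_one (coneSet_gen H u) (coneSet_one H u)]
    have := ha i (i + 1) (by omega) (by omega)
    show d (a i) (a (i + 1)) ≤ 1
    omega
  have hno : ∀ t < m, ¬ (h⁻¹ * a t ∈ Subgroup.zpowers u ∧ h⁻¹ * a (t + 1) ∈ Subgroup.zpowers u) := by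
    rintro t ht ⟨h1, h2⟩
    obtain ⟨i, hi⟩ := Subgroup.mem_zpowers_iff.mp h1
    obtain ⟨j, hj⟩ := Subgroup.mem_zpowers_iff.mp h2
    apply hcon
    refine ⟨i, j, ?_⟩
    have e1 : h * u ^ i = a t := by rw [hi]; group
    have e2 : h * u ^ j = a (t + 1) := by rw [hj]; group
    rw [e1, e2]
    have h3 := ha 0 t (Nat.zero_le _) (by omega)
    have h4 := ha (t + 1) m (by omega) le_rfl
    rw [a0] at h3
    rw [am] at h4
    omega
  let f : ℕ → ℤ := fun i => p (h⁻¹ * a i)
  set L : ℕ := C + θ with hL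
  have fstep : ∀ i < m, |f i - f (i + 1)| ≤ L := by
    intro i hi
    have := step_bound u p C θ P h _ _ (astep i hi) (hno i hi)
    rw [hL]; push_cast; exact this
  have fbd : ∀ i j, i ≤ j → j ≤ m → |f i - f j| ≤ L * (j - i : ℕ) := by
    intro i j hij
    induction j, hij using Nat.le_induction with
    | base => intro _; simp
    | succ j hj ih =>
      intro hjm
      have h1 := ih (by omega)
      have h2 := fstep j (by omega)
      have h3 : |f i - f (j + 1)| ≤ |f i - f j| + |f j - f (j + 1)| := abs_sub_le _ _ _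
      have h4 : j + 1 - i = (j - i) + 1 := by omega
      rw [h4]; push_cast
      push_cast at h1
      nlinarith
  let near : ℕ → Prop := fun i => ∃ k : ℤ, d (h * u ^ k) (a i) ≤ R₁
  -- large projection implies a near vertex
  have key : ∀ i j, i ≤ j → j ≤ m → (K : ℤ) ≤ |f i - f j| → ∃ l, i ≤ l ∧ l ≤ j ∧ near l := by
    intro i j hij hj hK
    have h1 := M.two (h⁻¹ * a i) (h⁻¹ * a j) hK
    set z := h * u ^ p (h⁻¹ * a i) with hz
    have e1 : dst ℓ (h⁻¹ * a i) (u ^ p (h⁻¹ * a i)) = dst ℓ (a i) z := by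
      rw [← dst_mul_left ℓ h]; congr 1; group
    have e2 : dst ℓ (u ^ p (h⁻¹ * a j)) (h⁻¹ * a j) = dst ℓ (h * u ^ p (h⁻¹ * a j)) (a j) := by
      rw [← dst_mul_left ℓ h]; congr 1; group
    have e3 : dst ℓ (h⁻¹ * a i) (h⁻¹ * a j) = dst ℓ (a i) (a j) := dst_mul_left _ _ _ _
    have e4 : ℓ (u ^ (p (h⁻¹ * a i) - p (h⁻¹ * a j))) = dst ℓ z (h * u ^ p (h⁻¹ * a j)) := by
      rw [hz, dst_mul_left, H.dst_zpow]
    rw [e1, e2, e3, e4] at h1
    have h2 := H.dst_tri z (h * u ^ p (h⁻¹ * a j)) (a j)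
    have h3 : gpr ℓ (a i) (a j) z ≤ 2 * K := by
      unfold gpr
      rw [H.dst_comm (a j) z]
      omega
    obtain ⟨l, hl, hle⟩ := cone_near_path H u R₀ hR (j - i) (fun l => a (i + l)) (by
        intro l l' hl hl'
        have h7 : dst (wl (coneSet ℓ u)) (a (i + l)) (a (i + l')) = (i + l') - (i + l) :=
          ha (i + l) (i + l') (by omega) (by omega)
        rw [h7]
        omega) z K (by
        simp only [add_zero]
        rw [show i + (j - i) = j by omega]
        exact h3)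
    exact ⟨i + l, by omega, by omega, p (h⁻¹ * a i), by rw [hR₁]; exact hle⟩
  have hfm : (2 * K + (2 * R₁ + 4) * L + 1 : ℤ) ≤ |f 0 - f m| := by
    have : |p (h⁻¹ * x) - p (h⁻¹ * y)| = |f 0 - f m| := by simp only [f, a0, am]
    rw [← this]
    push_cast at hB
    rw [hL]; push_cast
    exact hB
  have hKL : (0 : ℤ) ≤ (2 * R₁ + 4) * L := by positivity
  -- the first near vertex
  have ex : ∃ l, l ≤ m ∧ near l := by
    obtain ⟨l, -, hl, hn⟩ := key 0 m (Nat.zero_le _) le_rfl (by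
      have : (0 : ℤ) ≤ K := Int.natCast_nonneg _
      linarith)
    exact ⟨l, hl, hn⟩
  classical
  set i1 := Nat.find ex with hi1
  obtain ⟨hi1m, hn1⟩ := Nat.find_spec ex
  rw [← hi1] at hi1m hn1
  have hf1 : |f 0 - f i1| ≤ K + L := by
    rcases Nat.eq_zero_or_pos i1 with h0 | h0
    · rw [h0, sub_self, abs_zero]; positivity
    · have h1 : |f 0 - f (i1 - 1)| < K := by
        by_contra hge
        push Not at hge
        obtain ⟨l, -, hl, hn⟩ := key 0 (i1 - 1) (Nat.zero_le _) (by omega) hge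
        exact Nat.find_min ex (m := l) (by omega) ⟨by omega, hn⟩
      have h2 := fstep (i1 - 1) (by omega)
      rw [show i1 - 1 + 1 = i1 by omega] at h2
      have h3 : |f 0 - f i1| ≤ |f 0 - f (i1 - 1)| + |f (i1 - 1) - f i1| := abs_sub_le _ _ _
      linarith
  -- the last near vertex
  obtain ⟨i2, hi2m, hn2, hlast⟩ : ∃ i2 ≤ m, near i2 ∧ ∀ l, l ≤ m → near l → l ≤ i2 := by
    refine ⟨Nat.findGreatest near m, Nat.findGreatest_le m, ?_, ?_⟩
    · exact Nat.findGreatest_spec (P := near) hi1m hn1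
    · intro l hl hn
      exact Nat.le_findGreatest hl hn
  have hf2 : |f i2 - f m| ≤ K + L := by
    rcases Nat.eq_or_lt_of_le hi2m with h0 | h0
    · rw [h0, sub_self, abs_zero]; positivity
    · have h1 : |f (i2 + 1) - f m| < K := by
        by_contra hge
        push Not at hge
        obtain ⟨l, hl, hl', hn⟩ := key (i2 + 1) m (by omega) le_rfl hge
        have := hlast l hl' hn
        omega
      have h2 := fstep i2 h0
      have h3 : |f i2 - f m| ≤ |f i2 - f (i2 + 1)| + |f (i2 + 1) - f m| := abs_sub_le _ _ _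
      linarith
  have h12 : i1 ≤ i2 := hlast i1 hi1m hn1
  have hlen : i2 - i1 ≤ 2 * R₁ + 1 := by
    obtain ⟨k1, hk1⟩ := hn1
    obtain ⟨k2, hk2⟩ := hn2
    have h1 : d (h * u ^ k1) (h * u ^ k2) ≤ 1 := by
      rw [hd, dst_mul_left]
      apply cone_le_one H
      right
      exact (Subgroup.zpowers u).mul_mem
        ((Subgroup.zpowers u).inv_mem (Subgroup.zpow_mem_zpowers u k1))
        (Subgroup.zpow_mem_zpowers u k2)
    have h2 := dtri (a i1) (h * u ^ k1) (a i2)
    have h3 := dtri (h * u ^ k1) (h * u ^ k2) (a i2)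
    have h4 := dcomm (a i1) (h * u ^ k1)
    have h5 := ha i1 i2 h12 hi2m
    omega
  have hf3 := fbd i1 i2 h12 hi2m
  have hlen' : ((i2 - i1 : ℕ) : ℤ) ≤ 2 * R₁ + 1 := by exact_mod_cast hlen
  have hf3' : |f i1 - f i2| ≤ L * (2 * R₁ + 1) := by
    refine hf3.trans ?_
    exact mul_le_mul_of_nonneg_left hlen' (Int.natCast_nonneg _)
  have h1 : |f 0 - f m| ≤ |f 0 - f i1| + |f i1 - f i2| + |f i2 - f m| := by
    have h2 : |f 0 - f m| ≤ |f 0 - f i1| + |f i1 - f m| := abs_sub_le _ _ _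
    have h3 : |f i1 - f m| ≤ |f i1 - f i2| + |f i2 - f m| := abs_sub_le _ _ _
    linarith
  have hL0 : (0 : ℤ) ≤ L := Int.natCast_nonneg _
  nlinarith

end Pool.Agent.Lib.MP_06935a_al
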