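import Mathlib

set_option autoImplicit false

namespace Pool.Agent.Lib.MP_06935a_al

open scoped Pointwise

variable {Γ : Type} [Group Γ]

/-- left-invariant distance attached to a length function -/
def dst (ℓ : Γ → ℕ) (x y : Γ) : ℕ := ℓ (x⁻¹ * y)

/-- a geodesic length function whose left-invariant distance satisfies the four point condition -/
structure HypLen (ℓ : Γ → ℕ) (δ : ℕ) : Prop where
  one : ℓ 1 = 0
  eq_one : ∀ x, ℓ x = 0 → x = 1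
  inv : ∀ x, ℓ x⁻¹ = ℓ x
  mul : ∀ x y, ℓ (x * y) ≤ ℓ x + ℓ y
  split : ∀ x k, k ≤ ℓ x → ∃ y z, x = y * z ∧ ℓ y = k ∧ k + ℓ z = ℓ x
  four : ∀ x y z w,
    dst ℓ x y + dst ℓ z w ≤ dst ℓ x z + dst ℓ y w + 2 * δ ∨
    dst ℓ x y + dst ℓ z w ≤ dst ℓ x w + dst ℓ y z + 2 * δ

/-- finite balls -/
def ProperLen (ℓ : Γ → ℕ) : Prop := ∀ r : ℕ, {x | ℓ x ≤ r}.Finite

/-- the powers of `u` form a quasi-geodesic without backtracking -/
structure QGeo (ℓ : Γ → ℕ) (u : Γ) (K : ℕ) : Prop where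
  super : ∀ i j : ℕ, ℓ (u ^ i) + ℓ (u ^ j) ≤ ℓ (u ^ (i + j)) + K
  unb : ∀ R : ℕ, ∃ I : ℕ, ∀ i : ℕ, I ≤ i → R ≤ ℓ (u ^ i)

/-- malnormality of the cyclic group generated by `u` -/
def Mal (u : Γ) : Prop := ∀ (g : Γ) (i j : ℤ), i ≠ 0 → g * u ^ i * g⁻¹ = u ^ j → g ∈ Subgroup.zpowers u

/-- `p x` is the index of a nearest point to `x` on the axis of `u` -/
structure MetProj (ℓ : Γ → ℕ) (u : Γ) (p : Γ → ℤ) (K : ℕ) : Prop where
  shift : ∀ x, p (u * x) = p x + 1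
  near : ∀ x (i : ℤ), dst ℓ x (u ^ p x) ≤ dst ℓ x (u ^ i)
  gp : ∀ x (i : ℤ), dst ℓ x (u ^ p x) + ℓ (u ^ (p x - i)) ≤ dst ℓ x (u ^ i) + K
  two : ∀ x y, (K : ℤ) ≤ |p x - p y| →
    dst ℓ x (u ^ p x) + ℓ (u ^ (p x - p y)) + dst ℓ (u ^ p y) y ≤ dst ℓ x y + K

/-- projection axioms for the family of cosets of the cyclic group generated by `u` -/
structure ProjSys (ℓ : Γ → ℕ) (u : Γ) (p : Γ → ℤ) (C θ : ℕ) : Prop where
  shift : ∀ x, p (u * x) = p x + 1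
  lip : ∀ x s, ℓ s ≤ 1 → |p (x * s) - p x| ≤ C
  bdd : ∀ g, g ∉ Subgroup.zpowers u → ∀ i : ℤ, |p (g * u ^ i) - p g| ≤ θ
  behr : ∀ g, g ∉ Subgroup.zpowers u → ∀ a, |p a - p g| ≤ θ ∨ |p (g⁻¹ * a) - p g⁻¹| ≤ θ

/-- elements resolvable by large rotations, seen from `x` -/
inductive Res (u : Γ) (p : Γ → ℤ) (n : ℕ) (c : ℤ) (x : Γ) : Γ → Prop
  | one : Res u p n c x 1
  | step (g h : Γ) (k : ℤ) : (n : ℤ) - c ≤ |p (h⁻¹ * x) - p (h⁻¹ * (g * x))| →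
      Res u p n c x (h * u ^ ((n : ℤ) * k) * h⁻¹ * g) → Res u p n c x g

/-- word length with respect to a set -/
noncomputable def wl (T : Set Γ) (x : Γ) : ℕ := sInf {k | x ∈ T ^ k}

/-- generating set of the coned-off Cayley graph -/
def coneSet (ℓ : Γ → ℕ) (u : Γ) : Set Γ := {x | ℓ x ≤ 1} ∪ (Subgroup.zpowers u : Set Γ)

/-- normal closure of a power -/
abbrev NC (u : Γ) (n : ℕ) : Subgroup Γ := Subgroup.normalClosure {u ^ n}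

/-- the invariants carried through the tower of quotients -/
structure Good (Γ : Type) [Group Γ] (π : Γ →* Multiplicative (ZMod 3)) (α : Γ) : Prop where
  hyp : ∃ (ℓ : Γ → ℕ) (δ : ℕ), HypLen ℓ δ ∧ ProperLen ℓ
  j1 : ∀ c h : Γ, c ≠ 1 → IsOfFinOrder c → c * h = h * c → IsOfFinOrder h
  j2 : ∀ c : Γ, c ^ 2 = 1 → c = 1
  j3 : ∀ c : Γ, π c = 1 → c ^ 3 = 1 → c = 1
  j4 : ∀ h : Γ, π h = 1 → h * α = α * h → h = 1
  a1 : π α ≠ 1
  a3 : α ^ 3 = 1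

end Pool.Agent.Lib.MP_06935a_al
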