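import Pool.Agent.Lib.MP_06935a_al.Step
import Pool.Agent.Lib.MP_06935a_al.BaseHyp
import Pool.Agent.Lib.MP_06935a_al.BaseAlg

set_option autoImplicit false

namespace Pool.Agent.Lib.MP_06935a_al

theorem IsOfFinOrder_iff_pow {Γ : Type} [Group Γ] (x : Γ) :
    IsOfFinOrder x ↔ ∃ m : ℕ, 0 < m ∧ x ^ m = 1 := isOfFinOrder_iff_pow_eq_one

theorem HypLen.map {Γ Γ' : Type} [Group Γ] [Group Γ'] (e : Γ ≃* Γ') {ℓ : Γ → ℕ} {δ : ℕ}
    (H : HypLen ℓ δ) : HypLen (fun x : Γ' => ℓ (e.symm x)) δ where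
  one := by simp [H.one]
  eq_one := fun x hx => by
    have := H.eq_one _ hx
    simpa using this
  inv := fun x => by simp [H.inv]
  mul := fun x y => by simpa using H.mul _ _
  split := fun x k hk => by
    obtain ⟨y, z, h1, h2, h3⟩ := H.split _ k hk
    refine ⟨e y, e z, ?_, by simpa using h2, by simpa using h3⟩
    rw [← map_mul, ← h1]; simp
  four := fun x y z w => by
    have := H.four (e.symm x) (e.symm y) (e.symm z) (e.symm w)
    simpa [dst] using this

theorem Good.map {Γ Γ' : Type} [Group Γ] [Group Γ'] (e : Γ ≃* Γ')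
    {π : Γ →* Multiplicative (ZMod 3)} {α : Γ} (G : Good Γ π α)
    {π' : Γ' →* Multiplicative (ZMod 3)} {α' : Γ'} (hπ : ∀ x, π' (e x) = π x)
    (hα : e α = α') : Good Γ' π' α' := by
  have hfin : ∀ x : Γ', IsOfFinOrder x → IsOfFinOrder (e.symm x) := by
    intro x hx
    rw [isOfFinOrder_iff_pow_eq_one] at hx ⊢
    obtain ⟨m, hm, h⟩ := hx
    exact ⟨m, hm, by rw [← map_pow, h, map_one]⟩
  have hfin' : ∀ x : Γ', IsOfFinOrder (e.symm x) → IsOfFinOrder x := by
    intro x hx
    rw [isOfFinOrder_iff_pow_eq_one] at hx ⊢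
    obtain ⟨m, hm, h⟩ := hx
    refine ⟨m, hm, ?_⟩
    apply e.symm.injective
    rw [map_pow, h, map_one]
  have hπ' : ∀ x, π (e.symm x) = π' x := fun x => by rw [← hπ]; simp
  have hα' : e.symm α' = α := by rw [← hα]; simp
  constructor
  · obtain ⟨ℓ, δ, H, hp⟩ := G.hyp
    refine ⟨_, δ, H.map e, ?_⟩
    intro r
    have := (hp r).image e
    refine this.subset ?_
    intro x hx
    exact ⟨e.symm x, hx, by simp⟩
  · intro c h hc ht hch
    apply hfin'
    refine G.j1 (e.symm c) (e.symm h) ?_ (hfin _ ht) ?_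
    · intro h1
      apply hc
      apply e.symm.injective
      rw [h1, map_one]
    · rw [← map_mul, hch, map_mul]
  · intro c hc
    apply e.symm.injective
    rw [map_one]
    exact G.j2 _ (by rw [← map_pow, hc, map_one])
  · intro c h1 hc
    apply e.symm.injective
    rw [map_one]
    exact G.j3 _ (by rw [hπ', h1]) (by rw [← map_pow, hc, map_one])
  · intro h h1 h2
    apply e.symm.injective
    rw [map_one]
    refine G.j4 _ (by rw [hπ', h1]) ?_
    rw [← hα', ← map_mul, h2, map_mul]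
  · rw [← hα, hπ]
    exact G.a1
  · rw [← hα, ← map_pow, G.a3, map_one]

/-- the properties of the kernels of the tower -/
def Stage (N : Subgroup H0) : Prop :=
  ∃ _ : N.Normal, N ≤ phi0.ker ∧ ∃ π' : H0 ⧸ N →* Multiplicative (ZMod 3),
    (∀ x : H0, π' (QuotientGroup.mk x) = pi0 x) ∧ Good (H0 ⧸ N) π' (QuotientGroup.mk alpha0)

theorem base_good : Good H0 pi0 alpha0 where
  hyp := base_hyp
  j1 := base_j1
  j2 := base_j2
  j3 := base_j3
  j4 := base_j4
  a1 := by
    unfold pi0 alpha0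
    rw [SemidirectProduct.rightHom_inr]
    decide
  a3 := by
    unfold alpha0
    rw [← map_pow]
    have : (Multiplicative.ofAdd (1 : ZMod 3)) ^ 3 = 1 := by decide
    rw [this, map_one]

theorem stage_bot : Stage ⊥ := by
  refine ⟨inferInstance, bot_le, pi0.comp QuotientGroup.quotientBot.toMonoidHom, ?_, ?_⟩
  · intro x
    rfl
  · exact base_good.map QuotientGroup.quotientBot.symm (fun x => rfl) rfl

theorem stage_step (N : Subgroup H0) (hN : Stage N) (w : H0) :
    ∃ N' : Subgroup H0, N ≤ N' ∧ Stage N' ∧ ∃ m : ℕ, 0 < m ∧ w ^ m ∈ N' := by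
  obtain ⟨hNn, hN5, π', hπ', G⟩ := hN
  by_cases hw : IsOfFinOrder (QuotientGroup.mk w : H0 ⧸ N)
  · rw [isOfFinOrder_iff_pow_eq_one] at hw
    obtain ⟨m, hm, h⟩ := hw
    refine ⟨N, le_rfl, ⟨hNn, hN5, π', hπ', G⟩, m, hm, ?_⟩
    rw [← QuotientGroup.mk_pow] at h
    exact (QuotientGroup.eq_one_iff _).mp h
  · obtain ⟨u, n, hn, h5, hwu, hπu, π'', hπ'', G'⟩ := step π' (QuotientGroup.mk alpha0) G _ hw
    let f : H0 →* (H0 ⧸ N) ⧸ NC u n := (QuotientGroup.mk' (NC u n)).comp (QuotientGroup.mk' N)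
    have hf : Function.Surjective f :=
      (QuotientGroup.mk'_surjective _).comp (QuotientGroup.mk'_surjective _)
    let e : H0 ⧸ f.ker ≃* (H0 ⧸ N) ⧸ NC u n := QuotientGroup.quotientKerEquivOfSurjective f hf
    have he : ∀ x : H0, e (QuotientGroup.mk x) = f x := fun x => rfl
    refine ⟨f.ker, ?_, ⟨inferInstance, ?_, π''.comp e.toMonoidHom, ?_, ?_⟩, n, hn, ?_⟩
    · intro x hx
      rw [MonoidHom.mem_ker]
      show (QuotientGroup.mk (QuotientGroup.mk x : H0 ⧸ N) : (H0 ⧸ N) ⧸ NC u n) = 1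
      rw [(QuotientGroup.eq_one_iff x).mpr hx]
      rfl
    · -- total exponent
      let φ' : H0 ⧸ N →* Multiplicative (ZMod 5) := QuotientGroup.lift N phi0 hN5
      have hφ' : ∀ x : H0, φ' (QuotientGroup.mk x) = phi0 x := fun x => rfl
      have hle : NC u n ≤ φ'.ker := by
        apply Subgroup.normalClosure_le_normal
        intro y hy
        rw [Set.mem_singleton_iff] at hy
        subst hy
        show _ ∈ φ'.ker
        rw [MonoidHom.mem_ker, map_pow]
        obtain ⟨t, rfl⟩ := h5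
        rw [pow_mul]
        have : ∀ z : Multiplicative (ZMod 5), z ^ 5 = 1 := by decide
        rw [this, one_pow]
      intro x hx
      rw [MonoidHom.mem_ker] at hx
      have hx' : (QuotientGroup.mk x : H0 ⧸ N) ∈ NC u n := (QuotientGroup.eq_one_iff _).mp hx
      have := hle hx'
      rw [MonoidHom.mem_ker, hφ'] at this
      exact this
    · intro x
      show π'' (e (QuotientGroup.mk x)) = pi0 x
      rw [he, ← hπ' x]
      exact hπ'' _
    · refine G'.map e.symm ?_ ?_
      · intro x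
        show π'' (e (e.symm x)) = π'' x
        simp
      · rw [MulEquiv.symm_apply_eq]
        rfl
    · rw [MonoidHom.mem_ker]
      show (QuotientGroup.mk (QuotientGroup.mk (w ^ n) : H0 ⧸ N) : (H0 ⧸ N) ⧸ NC u n) = 1
      rw [QuotientGroup.eq_one_iff]
      obtain ⟨i, hi⟩ := hwu
      have hi' : u ^ i = (QuotientGroup.mk w : H0 ⧸ N) := hi
      rw [QuotientGroup.mk_pow, ← hi', ← zpow_natCast, ← zpow_mul, mul_comm, zpow_mul, zpow_natCast]
      exact Subgroup.zpow_mem _ (Subgroup.subset_normalClosure (Set.mem_singleton _)) _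

instance : Countable H0 := by
  have : Countable F3 := by
    unfold F3
    infer_instance
  exact Countable.of_equiv _ (SemidirectProduct.equivProd).symm

/-- the limit of the tower -/
theorem exists_limit : ∃ N : Subgroup H0, N.Normal ∧ (∀ w : H0, ∃ m : ℕ, 0 < m ∧ w ^ m ∈ N) ∧
    N ≤ phi0.ker ∧ (∀ c : H0, pi0 c = 1 → c ^ 3 ∈ N → c ∈ N) ∧
    (∀ h : H0, pi0 h = 1 → (h * alpha0)⁻¹ * (alpha0 * h) ∈ N → h ∈ N) := by
  obtain ⟨enum, henum⟩ := exists_surjective_nat H0
  choose! nxt h1 h2 h3 using stage_step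
  obtain ⟨N, hN0, hNs⟩ : ∃ N : ℕ → Subgroup H0, N 0 = ⊥ ∧
      ∀ k, N (k + 1) = nxt (N k) (enum k) :=
    ⟨fun k => Nat.rec ⊥ (fun i M => nxt M (enum i)) k, rfl, fun _ => rfl⟩
  have hst : ∀ k, Stage (N k) := by
    intro k
    induction k with
    | zero => rw [hN0]; exact stage_bot
    | succ k ih => rw [hNs]; exact h2 _ ih _
  have hmono : Monotone N := by
    apply monotone_nat_of_le_succ
    intro k
    rw [hNs]
    exact h1 _ (hst k) _
  have hmem : ∀ x : H0, x ∈ (⨆ k, N k) ↔ ∃ k, x ∈ N k := by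
    intro x
    exact Subgroup.mem_iSup_of_directed hmono.directed_le
  refine ⟨⨆ k, N k, ?_, ?_, ?_, ?_, ?_⟩
  · constructor
    intro x hx g
    rw [hmem] at hx ⊢
    obtain ⟨k, hk⟩ := hx
    obtain ⟨hn, -⟩ := hst k
    exact ⟨k, hn.conj_mem x hk g⟩
  · intro w
    obtain ⟨k, rfl⟩ := henum w
    obtain ⟨m, hm, hw⟩ := h3 (N k) (hst k) (enum k)
    refine ⟨m, hm, ?_⟩
    rw [hmem]
    exact ⟨k + 1, by rw [hNs]; exact hw⟩
  · apply iSup_le
    intro k
    obtain ⟨hn, h5, -⟩ := hst k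
    exact h5
  · intro c hc h
    rw [hmem] at h ⊢
    obtain ⟨k, hk⟩ := h
    obtain ⟨hn, h5, π', hπ', G⟩ := hst k
    have h1 : (QuotientGroup.mk c : H0 ⧸ N k) ^ 3 = 1 := by
      rw [← QuotientGroup.mk_pow]
      exact (QuotientGroup.eq_one_iff _).mpr hk
    exact ⟨k, (QuotientGroup.eq_one_iff c).mp (G.j3 _ (by rw [hπ', hc]) h1)⟩
  · intro c hc h
    rw [hmem] at h ⊢
    obtain ⟨k, hk⟩ := h
    obtain ⟨hn, h5, π', hπ', G⟩ := hst k
    have h1 : (QuotientGroup.mk c : H0 ⧸ N k) * QuotientGroup.mk alpha0 =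
        QuotientGroup.mk alpha0 * QuotientGroup.mk c := by
      rw [← QuotientGroup.mk_mul, ← QuotientGroup.mk_mul]
      exact QuotientGroup.eq.mpr hk
    exact ⟨k, (QuotientGroup.eq_one_iff c).mp (G.j4 _ (by rw [hπ', hc]) h1)⟩

theorem main :
    ¬ (∀ (G : Type) [Group G], (∀ g : G, IsOfFinOrder g) →
      ∀ (p : ℕ), p.Prime →
        ∀ (α : MulAut G), orderOf α = p →
          (∀ g : G, α g = g → g = 1) →
          (∀ g : G, g ^ p = 1 → g = 1) →
          ∀ x : G, ((List.range p).map (fun i => (α ^ i) x)).prod = 1) := by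
  intro hyp
  obtain ⟨N, hNn, hfin, h5, h3, hfix⟩ := exists_limit
  let K : Subgroup F3 := N.comap (SemidirectProduct.inl : F3 →* H0)
  have hK : ∀ x : F3, x ∈ K ↔ (SemidirectProduct.inl x : H0) ∈ N := fun x => Iff.rfl
  have hpi : ∀ x : F3, pi0 (SemidirectProduct.inl x) = 1 := fun x => rfl
  have hsh : ∀ x : F3, (SemidirectProduct.inl (shift 1 x) : H0) =
      alpha0 * SemidirectProduct.inl x * alpha0⁻¹ := by
    intro x
    exact SemidirectProduct.inl_aut (φ := shiftHom) (Multiplicative.ofAdd (1 : ZMod 3)) x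
  have hshK : ∀ x : F3, shift 1 x ∈ K ↔ x ∈ K := by
    intro x
    rw [hK, hK, hsh]
    constructor
    · intro h
      have := hNn.conj_mem _ h alpha0⁻¹
      simpa [mul_assoc] using this
    · intro h
      exact hNn.conj_mem _ h alpha0
  have hmap : K.map (shift 1 : F3 ≃* F3).toMonoidHom = K := by
    ext y
    constructor
    · rintro ⟨x, hx, rfl⟩
      exact (hshK x).mpr hx
    · intro hy
      refine ⟨(shift 1 : F3 ≃* F3).symm y, ?_, by simp⟩
      show (shift 1 : F3 ≃* F3).symm y ∈ K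
      rw [← hshK]
      simpa using hy
  let α : MulAut (F3 ⧸ K) := QuotientGroup.congr K K (shift 1) hmap
  have hα : ∀ x : F3, α (QuotientGroup.mk x) = QuotientGroup.mk (shift 1 x) := fun x => rfl
  -- finite order
  have c1 : ∀ g : F3 ⧸ K, IsOfFinOrder g := by
    intro g
    obtain ⟨x, rfl⟩ := QuotientGroup.mk_surjective g
    obtain ⟨m, hm, h⟩ := hfin (SemidirectProduct.inl x)
    rw [isOfFinOrder_iff_pow_eq_one]
    refine ⟨m, hm, ?_⟩
    rw [← QuotientGroup.mk_pow, QuotientGroup.eq_one_iff, hK, map_pow]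
    exact h
  have c3 : ∀ g : F3 ⧸ K, α g = g → g = 1 := by
    intro g hg
    obtain ⟨x, rfl⟩ := QuotientGroup.mk_surjective g
    rw [hα] at hg
    rw [QuotientGroup.eq_one_iff, hK]
    apply hfix _ (hpi x)
    have h1 := QuotientGroup.eq.mp hg.symm
    rw [hK, map_mul, hsh, map_inv] at h1
    have h2 := hNn.conj_mem _ h1 alpha0⁻¹
    convert h2 using 1
    group
  have c4 : ∀ g : F3 ⧸ K, g ^ 3 = 1 → g = 1 := by
    intro g hg
    obtain ⟨x, rfl⟩ := QuotientGroup.mk_surjective g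
    rw [← QuotientGroup.mk_pow, QuotientGroup.eq_one_iff, hK, map_pow] at hg
    rw [QuotientGroup.eq_one_iff, hK]
    exact h3 _ (hpi x) hg
  have hnotK : FreeGroup.of (0 : ZMod 3) * FreeGroup.of 1 * FreeGroup.of 2 ∉ K := by
    intro h
    have := h5 h
    rw [MonoidHom.mem_ker] at this
    revert this
    unfold phi0
    simp only [SemidirectProduct.lift_inl, map_mul, FreeGroup.lift_apply_of]
    decide
  have hα3 : α ^ 3 = 1 := by
    ext g
    obtain ⟨x, rfl⟩ := QuotientGroup.mk_surjective g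
    show α (α (α (QuotientGroup.mk x))) = QuotientGroup.mk x
    rw [hα, hα, hα]
    congr 1
    have : (((shift 1 : F3 ≃* F3).toMonoidHom.comp ((shift 1 : F3 ≃* F3).toMonoidHom.comp
      (shift 1 : F3 ≃* F3).toMonoidHom))) = MonoidHom.id F3 := by
      ext y
      show shift 1 (shift 1 (shift 1 (FreeGroup.of y))) = FreeGroup.of y
      rw [shift_of, shift_of, shift_of]
      congr 1
      have h3 : ∀ y : ZMod 3, y + 1 + 1 + 1 = y := by decide
      exact h3 y
    exact congrArg (fun f : F3 →* F3 => f x) this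
  have hα1 : α ≠ 1 := by
    intro h
    apply hnotK
    rw [← QuotientGroup.eq_one_iff]
    apply c3
    rw [h]
    rfl
  have c2 : orderOf α = 3 := by
    have h := orderOf_dvd_of_pow_eq_one hα3
    rcases (Nat.dvd_prime Nat.prime_three).mp h with h | h
    · exact absurd (orderOf_eq_one_iff.mp h) hα1
    · exact h
  have key := hyp (F3 ⧸ K) c1 3 Nat.prime_three α c2 c3 c4 (QuotientGroup.mk (FreeGroup.of 0))
  apply hnotK
  rw [← QuotientGroup.eq_one_iff]
  rw [← key]
  have e1 : (α ^ 1) (QuotientGroup.mk (FreeGroup.of 0)) = QuotientGroup.mk (FreeGroup.of 1) := by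
    rw [pow_one, hα, shift_of]
    rfl
  have e2 : (α ^ 2) (QuotientGroup.mk (FreeGroup.of 0)) = QuotientGroup.mk (FreeGroup.of 2) := by
    rw [pow_two, MulAut.mul_apply, hα, hα, shift_of, shift_of]
    rfl
  have e0 : (α ^ 0) (QuotientGroup.mk (FreeGroup.of 0)) = QuotientGroup.mk (FreeGroup.of 0) := rfl
  simp only [List.range_succ, List.range_zero, List.nil_append, List.map_append, List.map_cons,
    List.map_nil, List.prod_append, List.prod_cons, List.prod_nil, mul_one, e0, e1, e2]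
  rfl

end Pool.Agent.Lib.MP_06935a_al
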