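import Pool.Agent.Lib.MP_06935a_al.Basic

set_option autoImplicit false

namespace Pool.Agent.Lib.MP_06935a_al

variable {Γ : Type} [Group Γ] {ℓ : Γ → ℕ} {δ : ℕ}

/-- upper bound for the distance after a rotation -/
theorem dst_rot_le (H : HypLen ℓ δ) (u : Γ) (p : Γ → ℤ) (a b h : Γ) (t : ℤ) :
    dst ℓ a (h * u ^ t * h⁻¹ * b) ≤ dst ℓ (h⁻¹ * a) (u ^ p (h⁻¹ * a)) +
      ℓ (u ^ (p (h⁻¹ * a) - (p (h⁻¹ * b) + t))) + dst ℓ (u ^ p (h⁻¹ * b)) (h⁻¹ * b) := by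
  have e1 : dst ℓ a (h * u ^ t * h⁻¹ * b) = dst ℓ (h⁻¹ * a) (u ^ t * (h⁻¹ * b)) := by
    rw [← dst_mul_left ℓ h⁻¹]
    congr 1
    group
  have e2 : dst ℓ (u ^ p (h⁻¹ * b)) (h⁻¹ * b) =
      dst ℓ (u ^ (p (h⁻¹ * b) + t)) (u ^ t * (h⁻¹ * b)) := by
    rw [← dst_mul_left ℓ (u ^ t), ← zpow_add, add_comm]
  rw [e1, e2, ← H.dst_zpow]
  have h1 := H.dst_tri (h⁻¹ * a) (u ^ p (h⁻¹ * a)) (u ^ t * (h⁻¹ * b))
  have h2 := H.dst_tri (u ^ p (h⁻¹ * a)) (u ^ (p (h⁻¹ * b) + t)) (u ^ t * (h⁻¹ * b))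
  omega

/-- T8a: rotations shorten if the projection is a bit more than one half of a turn. -/
theorem shorten_half (H : HypLen ℓ δ) (u : Γ) (K₀ : ℕ) (Q : QGeo ℓ u K₀) (p : Γ → ℤ) (K : ℕ)
    (M : MetProj ℓ u p K) :
    ∃ C' : ℕ, ∀ n : ℕ, C' ≤ n → ∀ a b h : Γ,
      (n : ℤ) + C' ≤ 2 * |p (h⁻¹ * a) - p (h⁻¹ * b)| →
      ∃ k : ℤ, dst ℓ a (h * u ^ ((n : ℤ) * k) * h⁻¹ * b) < dst ℓ a b := by
  obtain ⟨I, hI⟩ := Q.unb (K + K₀ + 1)
  refine ⟨I + 2 * K, fun n hn a b h hab => ?_⟩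
  set D : ℤ := p (h⁻¹ * a) - p (h⁻¹ * b) with hD
  have two := M.two (h⁻¹ * a) (h⁻¹ * b) (by rw [← hD]; push_cast at hab; omega)
  rw [dst_mul_left, ← hD] at two
  -- choice of the rotation
  obtain ⟨k, hk⟩ : ∃ k : ℤ, |D - n * k| = |(|D| - n)| := by
    rcases le_or_gt 0 D with h0 | h0
    · exact ⟨1, by rw [abs_of_nonneg h0, mul_one]⟩
    · refine ⟨-1, ?_⟩
      rw [abs_of_neg h0, ← abs_neg]
      congr 1
      ring
  refine ⟨k, lt_of_le_of_lt (dst_rot_le H u p a b h _) ?_⟩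
  have e : p (h⁻¹ * a) - (p (h⁻¹ * b) + n * k) = D - n * k := by rw [hD]; ring
  rw [e]
  have hb : ℓ (u ^ (D - n * k)) + (K + K₀ + 1) ≤ ℓ (u ^ D) + K₀ := by
    rw [H.zpow_natAbs u (D - n * k), H.zpow_natAbs u D]
    have h1 : (((D - n * k).natAbs : ℕ) : ℤ) = |(|D| - n)| := by
      rw [Int.natCast_natAbs, hk]
    have h2 : ((D.natAbs : ℕ) : ℤ) = |D| := Int.natCast_natAbs D
    have h3 : |(|D| - (n : ℤ))| = |D| - n ∨ |(|D| - (n : ℤ))| = n - |D| := by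
      rcases abs_choice (|D| - (n : ℤ)) with h | h
      · exact Or.inl h
      · right; rw [h]; ring
    have h4 : 0 ≤ |(|D| - (n : ℤ))| := abs_nonneg _
    have h5 : (D - n * k).natAbs + I ≤ D.natAbs := by
      push_cast at hab
      omega
    obtain ⟨r, hr⟩ := Nat.exists_eq_add_of_le (le_trans (Nat.le_add_right _ _) h5)
    rw [hr]
    have h6 := hI r (by omega)
    have h7 := Q.super (D - n * k).natAbs r
    omega
  omega

/-- T8b: quantitative shortening for almost a full turn. -/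
theorem shorten_full (H : HypLen ℓ δ) (u : Γ) (K₀ : ℕ) (Q : QGeo ℓ u K₀) (p : Γ → ℤ) (K : ℕ)
    (M : MetProj ℓ u p K) (c R : ℕ) :
    ∃ n₀ : ℕ, ∀ n ≥ n₀, ∀ a b h : Γ,
      (n : ℤ) - c ≤ |p (h⁻¹ * a) - p (h⁻¹ * b)| →
      ∃ k : ℤ, dst ℓ a (h * u ^ ((n : ℤ) * k) * h⁻¹ * b) + R ≤ dst ℓ a b := by
  obtain ⟨I, hI⟩ := Q.unb (K + K₀ + R)
  refine ⟨I + 2 * c + K, fun n hn a b h hab => ?_⟩
  set D : ℤ := p (h⁻¹ * a) - p (h⁻¹ * b) with hD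
  have two := M.two (h⁻¹ * a) (h⁻¹ * b) (by rw [← hD]; omega)
  rw [dst_mul_left, ← hD] at two
  obtain ⟨k, hk⟩ : ∃ k : ℤ, |D - n * k| = |(|D| - n)| := by
    rcases le_or_gt 0 D with h0 | h0
    · exact ⟨1, by rw [abs_of_nonneg h0, mul_one]⟩
    · refine ⟨-1, ?_⟩
      rw [abs_of_neg h0, ← abs_neg]
      congr 1
      ring
  refine ⟨k, le_trans (Nat.add_le_add_right (dst_rot_le H u p a b h _) R) ?_⟩
  have e : p (h⁻¹ * a) - (p (h⁻¹ * b) + n * k) = D - n * k := by rw [hD]; ring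
  rw [e]
  have hb : ℓ (u ^ (D - n * k)) + (K + K₀ + R) ≤ ℓ (u ^ D) + K₀ := by
    rw [H.zpow_natAbs u (D - n * k), H.zpow_natAbs u D]
    have h1 : (((D - n * k).natAbs : ℕ) : ℤ) = |(|D| - n)| := by
      rw [Int.natCast_natAbs, hk]
    have h2 : ((D.natAbs : ℕ) : ℤ) = |D| := Int.natCast_natAbs D
    have h3 : |(|D| - (n : ℤ))| = |D| - n ∨ |(|D| - (n : ℤ))| = n - |D| := by
      rcases abs_choice (|D| - (n : ℤ)) with h | h
      · exact Or.inl h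
      · right; rw [h]; ring
    have h4 : 0 ≤ |(|D| - (n : ℤ))| := abs_nonneg _
    have h5 : (D - n * k).natAbs + I ≤ D.natAbs := by
      omega
    obtain ⟨r, hr⟩ := Nat.exists_eq_add_of_le (le_trans (Nat.le_add_right _ _) h5)
    rw [hr]
    have h6 := hI r (by omega)
    have h7 := Q.super (D - n * k).natAbs r
    omega
  omega

end Pool.Agent.Lib.MP_06935a_al
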