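import Pool.Agent.Lib.MP_06935a_al.Windmill
import Pool.Agent.Lib.MP_06935a_al.Short

set_option autoImplicit false

namespace Pool.Agent.Lib.MP_06935a_al

variable {Γ : Type} [Group Γ] {ℓ : Γ → ℕ} {δ : ℕ}

namespace Lift1

/-- distance of the projections to the coset of `h` -/
def dh (p : Γ → ℤ) (h x y : Γ) : ℤ := |p (h⁻¹ * x) - p (h⁻¹ * y)|

section basic

variable {u : Γ} {p : Γ → ℤ} {C θ K : ℕ}

theorem dh_nonneg (h x y : Γ) : 0 ≤ dh p h x y := abs_nonneg _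

theorem dh_self (h x : Γ) : dh p h x x = 0 := by simp [dh]

theorem dh_comm (h x y : Γ) : dh p h x y = dh p h y x := abs_sub_comm _ _

theorem dh_tri (h x y z : Γ) : dh p h x z ≤ dh p h x y + dh p h y z := abs_sub_le _ _ _

theorem dh_mul (g h x y : Γ) : dh p (g * h) (g * x) (g * y) = dh p h x y := by
  unfold dh
  have e1 : (g * h)⁻¹ * (g * x) = h⁻¹ * x := by group
  have e2 : (g * h)⁻¹ * (g * y) = h⁻¹ * y := by group
  rw [e1, e2]

theorem p_zpow (hs : ∀ x, p (u * x) = p x + 1) (j : ℤ) (x : Γ) : p (u ^ j * x) = p x + j := by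
  induction j using Int.induction_on with
  | zero => simp
  | succ i ih =>
    have e : u ^ ((i : ℤ) + 1) * x = u * (u ^ (i : ℤ) * x) := by
      rw [add_comm, zpow_add, zpow_one, mul_assoc]
    rw [e, hs, ih]; ring
  | pred i ih =>
    have e : u * (u ^ (-(i : ℤ) - 1) * x) = u ^ (-(i : ℤ)) * x := by
      rw [← mul_assoc, ← zpow_one_add]; congr 2; ring
    have h := hs (u ^ (-(i : ℤ) - 1) * x)
    rw [e, ih] at h
    omega

theorem dh_coset (hs : ∀ x, p (u * x) = p x + 1) (h k x y : Γ)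
    (hk : h⁻¹ * k ∈ Subgroup.zpowers u) : dh p k x y = dh p h x y := by
  obtain ⟨i, hi⟩ := Subgroup.mem_zpowers_iff.mp hk
  have hk' : k = h * u ^ i := by rw [hi]; group
  subst hk'
  unfold dh
  have e1 : (h * u ^ i)⁻¹ * x = u ^ (-i) * (h⁻¹ * x) := by group
  have e2 : (h * u ^ i)⁻¹ * y = u ^ (-i) * (h⁻¹ * y) := by group
  rw [e1, e2, p_zpow hs, p_zpow hs]
  congr 1
  ring

theorem lip_aux (H : HypLen ℓ δ) (P : ProjSys ℓ u p C θ) :
    ∀ (n : ℕ) (x s : Γ), ℓ s ≤ n → |p (x * s) - p x| ≤ C * n := by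
  intro n
  induction n with
  | zero =>
    intro x s hs
    have : s = 1 := H.eq_one s (by omega)
    simp [this]
  | succ n ih =>
    intro x s hs
    by_cases h : ℓ s ≤ n
    · have := ih x s h
      push_cast
      nlinarith [Int.natCast_nonneg C]
    · obtain ⟨y, z, rfl, hy, hz⟩ := H.split s n (by omega)
      have h1 := ih x y hy.le
      have h2 := P.lip (x * y) z (by omega)
      have e : x * (y * z) = x * y * z := by group
      rw [e]
      have h3 := abs_sub_le (p (x * y * z)) (p (x * y)) (p x)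
      push_cast
      linarith

theorem dh_lip (H : HypLen ℓ δ) (P : ProjSys ℓ u p C θ) (h a b : Γ) :
    dh p h a b ≤ C * dst ℓ a b := by
  unfold dh
  have h1 := lip_aux H P (dst ℓ a b) (h⁻¹ * a) (a⁻¹ * b) le_rfl
  have e : h⁻¹ * a * (a⁻¹ * b) = h⁻¹ * b := by group
  rw [e] at h1
  rw [abs_sub_comm]
  exact h1

theorem dh_bdd (P : ProjSys ℓ u p C θ) (h k : Γ) (hk : h⁻¹ * k ∉ Subgroup.zpowers u) (i : ℤ) :
    dh p h k (k * u ^ i) ≤ θ := by
  have := P.bdd (h⁻¹ * k) hk i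
  unfold dh
  rw [abs_sub_comm, ← mul_assoc]
  exact this

theorem dh_behr (P : ProjSys ℓ u p C θ) (h k : Γ) (hk : h⁻¹ * k ∉ Subgroup.zpowers u) (a : Γ) :
    dh p h a k ≤ θ ∨ dh p k a h ≤ θ := by
  have := P.behr (h⁻¹ * k) hk (h⁻¹ * a)
  unfold dh
  have e1 : (h⁻¹ * k)⁻¹ * (h⁻¹ * a) = k⁻¹ * a := by group
  have e2 : (h⁻¹ * k)⁻¹ = k⁻¹ * h := by group
  rw [e1, e2] at this
  exact this

theorem dh_two (M : MetProj ℓ u p K) (h x y : Γ) (hd : (K : ℤ) ≤ dh p h x y) :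
    dst ℓ x (h * u ^ p (h⁻¹ * x)) + ℓ (u ^ (p (h⁻¹ * x) - p (h⁻¹ * y))) +
      dst ℓ (h * u ^ p (h⁻¹ * y)) y ≤ dst ℓ x y + K := by
  have h0 := M.two (h⁻¹ * x) (h⁻¹ * y) hd
  have e1 := dst_mul_left ℓ h (h⁻¹ * x) (u ^ p (h⁻¹ * x))
  have e2 := dst_mul_left ℓ h (u ^ p (h⁻¹ * y)) (h⁻¹ * y)
  have e3 := dst_mul_left ℓ h (h⁻¹ * x) (h⁻¹ * y)
  rw [mul_inv_cancel_left] at e1 e2 e3
  rw [mul_inv_cancel_left] at e3
  rw [e1, e2, e3]
  exact h0

theorem dh_near (M : MetProj ℓ u p K) (h x : Γ) (i : ℤ) :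
    dst ℓ x (h * u ^ p (h⁻¹ * x)) ≤ dst ℓ x (h * u ^ i) := by
  have h0 := M.near (h⁻¹ * x) i
  have e1 := dst_mul_left ℓ h (h⁻¹ * x) (u ^ p (h⁻¹ * x))
  have e2 := dst_mul_left ℓ h (h⁻¹ * x) (u ^ i)
  rw [mul_inv_cancel_left] at e1 e2
  rw [e1, e2]
  exact h0

theorem zpow_eq_one (H : HypLen ℓ δ) {K₀ : ℕ} (Q : QGeo ℓ u K₀) {i : ℤ} (h : u ^ i = 1) :
    i = 0 := by
  by_contra hi
  obtain ⟨I, hI⟩ := Q.unb_int H 1
  have h1 := hI (i * I) (by
    rw [abs_mul]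
    have : 1 ≤ |i| := Int.one_le_abs hi
    have h3 : |(I : ℤ)| = I := by simp
    rw [h3]
    nlinarith [Int.natCast_nonneg I])
  rw [zpow_mul, h, one_zpow, H.one] at h1
  omega

/-- large rotations seen from any point -/
theorem gl (H : HypLen ℓ δ) (P : ProjSys ℓ u p C θ) (n : ℕ) (hn : 2 * C + 20 * θ + 1 ≤ n)
    (g : Γ) (hg : g ∈ NC u n) (h1 : g ≠ 1) (x : Γ) :
    ∃ h : Γ, (n : ℤ) - (2 * C + 8 * θ) ≤ dh p h x (g * x) := by
  have := windmill H u p C θ P n hn x g hg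
  cases this with
  | one => exact absurd rfl h1
  | step _ h k h2 h3 => exact ⟨h, h2⟩

theorem min_half (n C' : ℕ)
    (hC : ∀ a b h : Γ, (n : ℤ) + C' ≤ 2 * |p (h⁻¹ * a) - p (h⁻¹ * b)| →
      ∃ k : ℤ, dst ℓ a (h * u ^ ((n : ℤ) * k) * h⁻¹ * b) < dst ℓ a b)
    (x : Γ) (hx : ∀ g ∈ NC u n, ℓ x ≤ ℓ (g * x)) (h : Γ) :
    2 * dh p h 1 x < n + C' := by
  by_contra hc
  obtain ⟨k, hk⟩ := hC 1 x h (not_lt.mp hc)
  rw [dst_one_left, dst_one_left] at hk
  have hm : h * u ^ ((n : ℤ) * k) * h⁻¹ ∈ NC u n := by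
    have h1 : u ^ n ∈ NC u n := Subgroup.subset_normalClosure (by simp)
    have h2 : u ^ ((n : ℤ) * k) ∈ NC u n := by
      rw [zpow_mul, zpow_natCast]
      exact Subgroup.zpow_mem _ h1 k
    exact Subgroup.normalClosure_normal.conj_mem _ h2 h
  have := hx _ hm
  omega

theorem min_inv (H : HypLen ℓ δ) (n : ℕ) (x : Γ) (hx : ∀ g ∈ NC u n, ℓ x ≤ ℓ (g * x)) :
    ∀ g ∈ NC u n, ℓ x⁻¹ ≤ ℓ (g * x⁻¹) := by
  intro g hg
  have h1 : x * g⁻¹ * x⁻¹ ∈ NC u n :=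
    Subgroup.normalClosure_normal.conj_mem _ (Subgroup.inv_mem _ hg) x
  have h2 := hx _ h1
  have e : g * x⁻¹ = (x * g⁻¹ * x⁻¹ * x)⁻¹ := by group
  rw [e, H.inv, H.inv]
  exact h2

/-- a short element cannot move a coset far along a geodesic towards it -/
theorem close_cosets (H : HypLen ℓ δ) {K₀ : ℕ} (Q : QGeo ℓ u K₀) (M : MetProj ℓ u p K)
    (P : ProjSys ℓ u p C θ) (A : ℕ) : ∃ R : ℕ, ∀ x V : Γ, ℓ x ≤ A →
      V⁻¹ * (x * V) ∉ Subgroup.zpowers u → dh p V 1 (x * V) < R := by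
  obtain ⟨I, hI⟩ := Q.unb_int H (K + A + 1)
  refine ⟨I + K + θ + 1, fun x V hx hV => ?_⟩
  by_contra hc
  push Not at hc
  set W := x * V with hW
  set z := W * u ^ p (W⁻¹ * 1) with hz
  have h1 : dh p V W z ≤ θ := dh_bdd P V W hV _
  have h2 := dh_tri (p := p) V 1 z W
  rw [dh_comm V z W] at h2
  push_cast at hc
  have hIK := Int.natCast_nonneg I
  have hKK := Int.natCast_nonneg K
  have h3 : (K : ℤ) ≤ dh p V 1 z := by linarith
  have h4 := dh_two M V 1 z h3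
  have h5 : (I : ℤ) ≤ |p (V⁻¹ * 1) - p (V⁻¹ * z)| := by
    have : dh p V 1 z = |p (V⁻¹ * 1) - p (V⁻¹ * z)| := rfl
    rw [← this]; linarith
  have h6 := hI _ h5
  have h7 := dh_near M W 1 (p (V⁻¹ * 1))
  have h8 : W * u ^ p (V⁻¹ * 1) = x * (V * u ^ p (V⁻¹ * 1)) := by rw [hW]; group
  rw [h8] at h7
  have h9 := H.dst_tri 1 x (x * (V * u ^ p (V⁻¹ * 1)))
  have h10 := dst_mul_left ℓ x 1 (V * u ^ p (V⁻¹ * 1))
  rw [mul_one] at h10
  rw [h10, dst_one_left ℓ x] at h9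
  rw [← hz] at h7
  omega

end basic

end Lift1

open Lift1

section lift

variable (H : HypLen ℓ δ) (u : Γ) (K₀ : ℕ) (Q : QGeo ℓ u K₀) (mal : Mal u) (p : Γ → ℤ) (K : ℕ)
    (M : MetProj ℓ u p K) (C θ : ℕ) (P : ProjSys ℓ u p C θ)

include H Q mal M P

/-- T9a: the axis group meets the kernel in the obvious subgroup. -/
theorem zpow_mem_NC : ∃ n₀ : ℕ, ∀ n ≥ n₀, ∀ j : ℤ, u ^ j ∈ NC u n → (n : ℤ) ∣ j := by
  refine ⟨4 * C + 20 * θ + 3, fun n hn j hj => ?_⟩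
  have hnpos : (0 : ℤ) < n := by omega
  -- balanced remainder
  obtain ⟨q, r, hr, hjr⟩ : ∃ q r : ℤ, 2 * |r| ≤ n ∧ j = n * q + r := by
    have h1 := Int.emod_nonneg j hnpos.ne'
    have h2 := Int.emod_lt_of_pos j hnpos
    have h3 := Int.emod_add_mul_ediv j n
    by_cases h : 2 * (j % n) ≤ n
    · refine ⟨j / n, j % n, ?_, by linarith⟩
      rw [abs_of_nonneg h1]; exact h
    · refine ⟨j / n + 1, j % n - n, ?_, by linarith⟩
      rw [abs_of_nonpos (by linarith)]; linarith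
  have hun : u ^ n ∈ NC u n := Subgroup.subset_normalClosure (by simp)
  have hur : u ^ r ∈ NC u n := by
    have e : u ^ r = u ^ j * ((u ^ n) ^ q)⁻¹ := by
      rw [hjr, zpow_add, zpow_mul, zpow_natCast, ← zpow_natCast, ← zpow_mul, ← zpow_neg]
      rw [← zpow_add, ← zpow_add]; congr 1; ring
    rw [e]
    exact Subgroup.mul_mem _ hj (Subgroup.inv_mem _ (Subgroup.zpow_mem _ hun q))
  by_cases hr0 : r = 0
  · exact ⟨q, by rw [hjr, hr0]; ring⟩
  exfalso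
  have hne : u ^ r ≠ 1 := fun h => hr0 (zpow_eq_one H Q h)
  obtain ⟨h, hh⟩ := gl H P n (by omega) _ hur hne 1
  rw [mul_one] at hh
  by_cases hE : h⁻¹ ∈ Subgroup.zpowers u
  · have h1 : dh p h 1 (u ^ r) = dh p 1 1 (u ^ r) := by
      apply dh_coset P.shift
      rw [inv_one, one_mul]
      exact (Subgroup.inv_mem_iff _).mp hE
    rw [h1] at hh
    have h2 : dh p 1 1 (u ^ r) = |r| := by
      unfold dh
      have := p_zpow P.shift r 1
      rw [mul_one] at this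
      rw [inv_one, one_mul, one_mul, this, abs_sub_comm]
      congr 1; ring
    rw [h2] at hh
    have : (n : ℤ) ≥ 4 * C + 20 * θ + 3 := by exact_mod_cast hn
    linarith
  · have h1 := dh_bdd P h 1 (by rwa [mul_one]) r
    rw [one_mul] at h1
    have : (n : ℤ) ≥ 4 * C + 20 * θ + 3 := by exact_mod_cast hn
    linarith

/-- T9b: centralisers of short elements lift. -/
theorem lift_centralizer (A : ℕ) : ∃ n₀ : ℕ, ∀ n ≥ n₀, ∀ x : Γ, ℓ x ≤ A →
    (∀ b : Γ, b⁻¹ * x * b ∉ Subgroup.zpowers u) →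
    ∀ h : Γ, h * x * h⁻¹ * x⁻¹ ∈ NC u n → ∃ g ∈ NC u n, (g * h) * x = x * (g * h) := by
  obtain ⟨C', hC'⟩ := shorten_half H u K₀ Q p K M
  obtain ⟨R, hR⟩ := close_cosets H Q M P A
  refine ⟨C' + 2 * C + 20 * θ + 1 + (2 * R + 4 * C * A + C' + 4 * C + 40 * θ + 1),
    fun n hn x hx hconj h hh => ?_⟩
  -- minimal representative
  obtain ⟨g₀, hg₀, hmin⟩ : ∃ g₀ ∈ NC u n, ∀ g ∈ NC u n, ℓ (g₀ * h) ≤ ℓ (g * (g₀ * h)) := by
    have hex : ∃ k : ℕ, ∃ g ∈ NC u n, ℓ (g * h) = k := ⟨_, 1, Subgroup.one_mem _, rfl⟩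
    classical
    obtain ⟨g₀, hg₀, e⟩ := Nat.find_spec hex
    refine ⟨g₀, hg₀, fun g hg => ?_⟩
    rw [e]
    exact Nat.find_min' hex ⟨g * g₀, Subgroup.mul_mem _ hg hg₀, by rw [mul_assoc]⟩
  refine ⟨g₀, hg₀, ?_⟩
  set h' := g₀ * h with hh'
  have hnor : (NC u n).Normal := Subgroup.normalClosure_normal
  set g := h' * x * h'⁻¹ * x⁻¹ with hgdef
  have hgN : g ∈ NC u n := by
    have e : g = g₀ * (h * x * h⁻¹ * x⁻¹) * (x * g₀⁻¹ * x⁻¹) := by rw [hgdef, hh']; group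
    rw [e]
    exact Subgroup.mul_mem _ (Subgroup.mul_mem _ hg₀ hh)
      (hnor.conj_mem _ (Subgroup.inv_mem _ hg₀) x)
  by_cases hg1 : g = 1
  · have : h' * x = x * h' := by
      have e : h' * x = g * (x * h') := by rw [hgdef]; group
      rw [e, hg1, one_mul]
    exact this
  exfalso
  obtain ⟨k, hk⟩ := gl H P n (by omega) g hgN hg1 1
  rw [mul_one] at hk
  have hm1 := min_half n C' (hC' n (by omega)) h' hmin
  have hm2 := min_half n C' (hC' n (by omega)) h'⁻¹ (min_inv H n h' hmin)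
  -- path
  have t1 := dh_tri (p := p) k 1 h' g
  have t2 := dh_tri (p := p) k h' (h' * x) g
  have t3 := dh_tri (p := p) k (h' * x) (g * x) g
  have hCA : ∀ y z : Γ, dst ℓ y z ≤ A → dh p k y z ≤ C * A := by
    intro y z hyz
    refine (dh_lip H P k y z).trans ?_
    have : (dst ℓ y z : ℤ) ≤ A := by exact_mod_cast hyz
    exact mul_le_mul_of_nonneg_left this (Int.natCast_nonneg C)
  have s1 : dh p k h' (h' * x) ≤ C * A := hCA _ _ (by rw [dst_mul_right]; exact hx)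
  have s2 : dh p k (g * x) g ≤ C * A := hCA _ _ (by
    rw [H.dst_comm, dst_mul_right]; exact hx)
  have s3 : dh p k (h' * x) (g * x) = dh p (x⁻¹ * (h'⁻¹ * k)) 1 h'⁻¹ := by
    rw [← dh_mul (h' * x) (x⁻¹ * (h'⁻¹ * k)) 1 h'⁻¹]
    have e1 : h' * x * (x⁻¹ * (h'⁻¹ * k)) = k := by group
    have e2 : h' * x * 1 = h' * x := by group
    have e3 : h' * x * h'⁻¹ = g * x := by rw [hgdef]; group
    rw [e1, e2, e3]
  have s4 : dh p k 1 h' = dh p (h'⁻¹ * k) 1 h'⁻¹ := by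
    rw [dh_comm, ← dh_mul h' (h'⁻¹ * k) 1 h'⁻¹]
    have e1 : h' * (h'⁻¹ * k) = k := by group
    rw [e1, mul_one, mul_inv_cancel]
  have m1 := hm1 k
  have m2 := hm2 (x⁻¹ * (h'⁻¹ * k))
  set V := h'⁻¹ * k with hV
  -- the two cosets are different
  have hVW : V⁻¹ * (x⁻¹ * V) ∉ Subgroup.zpowers u := by
    intro hmem
    apply hconj V
    have := Subgroup.inv_mem _ hmem
    have e : (V⁻¹ * (x⁻¹ * V))⁻¹ = V⁻¹ * x * V := by group
    rwa [e] at this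
  have hWV : (x⁻¹ * V)⁻¹ * (x * (x⁻¹ * V)) ∉ Subgroup.zpowers u := by
    intro hmem
    apply hconj V
    have e : (x⁻¹ * V)⁻¹ * (x * (x⁻¹ * V)) = V⁻¹ * x * V := by group
    rwa [e] at hmem
  have r1 := hR x⁻¹ V (by rw [H.inv]; exact hx) hVW
  have r2 := hR x (x⁻¹ * V) hx hWV
  have e5 : x * (x⁻¹ * V) = V := by group
  rw [e5] at r2
  have b1 := dh_behr P V (x⁻¹ * V) hVW h'⁻¹
  have u1 := dh_tri (p := p) V 1 (x⁻¹ * V) h'⁻¹
  have u2 := dh_tri (p := p) (x⁻¹ * V) 1 V h'⁻¹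
  rw [dh_comm V (x⁻¹ * V) h'⁻¹] at u1
  rw [dh_comm (x⁻¹ * V) V h'⁻¹] at u2
  rw [s4] at m1 t1
  rw [s3] at t3
  have hn' : (n : ℤ) ≥ C' + 2 * C + 20 * θ + 1 + (2 * R + 4 * (C * A) + C' + 4 * C + 40 * θ + 1) := by
    have : n ≥ C' + 2 * C + 20 * θ + 1 + (2 * R + 4 * (C * A) + C' + 4 * C + 40 * θ + 1) := by
      rw [← mul_assoc 4 C A]; exact hn
    exact_mod_cast this
  have hCA0 : (0 : ℤ) ≤ (C : ℤ) * A := by positivity
  rcases b1 with b1 | b1
  · linarith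
  · linarith

/-- T9c: the centraliser of a new torsion element is the axis group. -/
theorem lift_centralizer_axis : ∃ n₀ : ℕ, ∀ n ≥ n₀, ∀ j : ℤ, (n : ℤ) ≤ 5 * j → 3 * j ≤ n →
    ∀ h : Γ, h * u ^ j * h⁻¹ * (u ^ j)⁻¹ ∈ NC u n → ∃ g ∈ NC u n, ∃ i : ℤ, h = g * u ^ i := by
  obtain ⟨C', hC'⟩ := shorten_half H u K₀ Q p K M
  obtain ⟨I, hI⟩ := Q.unb_int H (K + 1)
  refine ⟨C' + 2 * C + 20 * θ + 1 + 100 * (I + C + θ + C' + 1), fun n hn j hj1 hj2 h hh => ?_⟩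
  have hnor : (NC u n).Normal := Subgroup.normalClosure_normal
  have hn' : (n : ℤ) ≥ C' + 2 * C + 20 * θ + 1 + 100 * (I + C + θ + C' + 1) := by
    exact_mod_cast hn
  -- minimal representative of the double coset
  obtain ⟨a, g₀, b, hg₀, hmin⟩ : ∃ (a : ℤ) (g₀ : Γ) (b : ℤ), g₀ ∈ NC u n ∧
      ∀ (a' : ℤ) (g : Γ) (b' : ℤ), g ∈ NC u n →
        ℓ (u ^ a * g₀ * h * u ^ b) ≤ ℓ (u ^ a' * g * h * u ^ b') := by
    have hex : ∃ k : ℕ, ∃ (a : ℤ) (g : Γ) (b : ℤ), g ∈ NC u n ∧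
        ℓ (u ^ a * g * h * u ^ b) = k := ⟨_, 0, 1, 0, Subgroup.one_mem _, rfl⟩
    classical
    obtain ⟨a, g₀, b, hg₀, e⟩ := Nat.find_spec hex
    refine ⟨a, g₀, b, hg₀, fun a' g b' hg => ?_⟩
    rw [e]
    exact Nat.find_min' hex ⟨a', g, b', hg, rfl⟩
  set h' := u ^ a * g₀ * h * u ^ b with hh'
  have hminN : ∀ g ∈ NC u n, ℓ h' ≤ ℓ (g * h') := by
    intro g hg
    have h1 : (u ^ (-a) * g * (u ^ (-a))⁻¹) * g₀ ∈ NC u n :=
      Subgroup.mul_mem _ (hnor.conj_mem _ hg _) hg₀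
    have h2 := hmin a _ b h1
    have e : u ^ a * (u ^ (-a) * g * (u ^ (-a))⁻¹ * g₀) * h * u ^ b = g * h' := by
      rw [hh']; group
    rwa [e] at h2
  have hminL : ∀ i : ℤ, ℓ h' ≤ ℓ (u ^ i * h') := by
    intro i
    have h2 := hmin (i + a) g₀ b hg₀
    have e : u ^ (i + a) * g₀ * h * u ^ b = u ^ i * h' := by
      rw [hh', zpow_add]; group
    rwa [e] at h2
  have hminR : ∀ i : ℤ, ℓ h' ≤ ℓ (h' * u ^ i) := by
    intro i
    have h2 := hmin a g₀ (b + i) hg₀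
    have e : u ^ a * g₀ * h * u ^ (b + i) = h' * u ^ i := by
      rw [hh', zpow_add]; group
    rwa [e] at h2
  -- commutator
  set g := h' * u ^ j * h'⁻¹ * (u ^ j)⁻¹ with hgdef
  have hgN : g ∈ NC u n := by
    have e : g = u ^ a * (g₀ * (h * u ^ j * h⁻¹ * (u ^ j)⁻¹) * (u ^ j * g₀⁻¹ * (u ^ j)⁻¹)) *
        (u ^ a)⁻¹ := by
      rw [hgdef, hh']
      have e1 : (u ^ a)⁻¹ = u ^ (-a) := (zpow_neg u a).symm
      have e2 : (u ^ j)⁻¹ = u ^ (-j) := (zpow_neg u j).symm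
      have e3 : (u ^ b)⁻¹ = u ^ (-b) := (zpow_neg u b).symm
      simp only [mul_inv_rev, e1, e2, e3, mul_assoc]
      have f1 : ∀ y : Γ, u ^ b * (u ^ j * (u ^ (-b) * y)) = u ^ j * y := by
        intro y; rw [← mul_assoc, ← mul_assoc, ← zpow_add, ← zpow_add]; congr 2; ring
      have f2 : u ^ (-a) * u ^ (-j) = u ^ (-j) * u ^ (-a) := by
        rw [← zpow_add, ← zpow_add, add_comm]
      have f3 : ∀ y : Γ, u ^ (-j) * (u ^ j * y) = y := by
        intro y; rw [← mul_assoc, ← zpow_add]; simp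
      rw [f1, f3, f2]
    rw [e]
    exact hnor.conj_mem _ (Subgroup.mul_mem _ (Subgroup.mul_mem _ hg₀ hh)
      (hnor.conj_mem _ (Subgroup.inv_mem _ hg₀) _)) _
  -- reduction to h' in the axis group
  by_cases hE : h' ∈ Subgroup.zpowers u
  · obtain ⟨i, hi⟩ := Subgroup.mem_zpowers_iff.mp hE
    refine ⟨g₀⁻¹, Subgroup.inv_mem _ hg₀, -a + i - b, ?_⟩
    have e : h = g₀⁻¹ * (u ^ (-a) * h' * u ^ (-b)) := by rw [hh']; group
    conv_lhs => rw [e]
    rw [← hi, ← zpow_add, ← zpow_add]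
    congr 2
  exfalso
  have hg1 : g ≠ 1 := by
    intro h1
    apply hE
    apply mal h' j j (by omega)
    have e : h' * u ^ j * h'⁻¹ = g * u ^ j := by rw [hgdef]; group
    rw [e, h1, one_mul]
  -- projections of short elements
  have hsm : ∀ y : Γ, (∀ i : ℤ, ℓ y ≤ ℓ (u ^ i * y)) → |p y| < I := by
    intro y hy
    by_contra hc
    push Not at hc
    have h1 := hI _ hc
    have h2 := M.gp y 0
    rw [sub_zero, zpow_zero, H.dst_one_right] at h2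
    have h3 := hy (-(p y))
    have h4 : ℓ (u ^ (-(p y)) * y) = dst ℓ y (u ^ p y) := by
      rw [H.dst_comm]; unfold dst; rw [zpow_neg]
    omega
  have p1 : |p h'| < I := hsm _ hminL
  have p2 : |p h'⁻¹| < I := hsm _ (fun i => by
    have := hminR (-i)
    rw [H.inv]
    have e : ∀ y : Γ, u ^ i * y⁻¹ = (y * u ^ (-i))⁻¹ := by intro y; group
    rw [e, H.inv]
    exact this)
  have p0 : |p 1| < I := hsm _ (fun i => by rw [H.one]; omega)
  rw [abs_lt] at p0 p1 p2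
  obtain ⟨k, hk⟩ := gl H P n (by omega) g hgN hg1 1
  rw [mul_one] at hk
  have hm1 := min_half n C' (hC' n (by omega)) h' hminN
  have hm2 := min_half n C' (hC' n (by omega)) h'⁻¹ (min_inv H n h' hminN)
  have hgu : g * u ^ j = h' * u ^ j * h'⁻¹ := by rw [hgdef]; group
  have t1 := dh_tri (p := p) k 1 h' g
  have t2 := dh_tri (p := p) k h' (h' * u ^ j) g
  have t3 := dh_tri (p := p) k (h' * u ^ j) (g * u ^ j) g
  have s3 : dh p k (h' * u ^ j) (g * u ^ j) = dh p (u ^ (-j) * (h'⁻¹ * k)) 1 h'⁻¹ := by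
    rw [← dh_mul (h' * u ^ j) (u ^ (-j) * (h'⁻¹ * k)) 1 h'⁻¹]
    have e1 : h' * u ^ j * (u ^ (-j) * (h'⁻¹ * k)) = k := by group
    have e2 : h' * u ^ j * 1 = h' * u ^ j := by group
    rw [e1, e2, hgu]
  have s4 : dh p k 1 h' = dh p (h'⁻¹ * k) 1 h'⁻¹ := by
    rw [dh_comm, ← dh_mul h' (h'⁻¹ * k) 1 h'⁻¹]
    have e1 : h' * (h'⁻¹ * k) = k := by group
    rw [e1, mul_one, mul_inv_cancel]
  have m1 := hm1 k
  have m2 := hm2 (u ^ (-j) * (h'⁻¹ * k))
  -- moving along the own coset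
  have hown : ∀ y : Γ, y⁻¹ * k ∈ Subgroup.zpowers u → dh p k y (y * u ^ j) = |j| := by
    intro y hy
    rw [dh_coset P.shift y k _ _ hy]
    unfold dh
    rw [inv_mul_cancel, inv_mul_cancel_left]
    have := p_zpow P.shift j 1
    rw [mul_one] at this
    rw [this, abs_sub_comm]; congr 1; ring
  have hoth : ∀ y : Γ, y⁻¹ * k ∉ Subgroup.zpowers u → dh p k y (y * u ^ j) ≤ θ := by
    intro y hy
    apply dh_bdd P
    intro hmem
    apply hy
    have := Subgroup.inv_mem _ hmem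
    rwa [mul_inv_rev, inv_inv] at this
  have hj0 : 0 ≤ j := by omega
  have hjabs : |j| = j := abs_of_nonneg hj0
  have hg4 : dh p k (g * u ^ j) g = dh p k g (g * u ^ j) := dh_comm _ _ _
  have d1 : dh p 1 1 h'⁻¹ < 2 * I := by
    unfold dh
    rw [inv_one, one_mul, one_mul, abs_lt]
    constructor <;> linarith [p0.1, p0.2, p2.1, p2.2]
  have d2 : dh p h'⁻¹ 1 h'⁻¹ < 2 * I := by
    unfold dh
    rw [inv_inv, mul_one, mul_inv_cancel, abs_lt]
    constructor <;> linarith [p0.1, p0.2, p1.1, p1.2]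
  by_cases hY : h'⁻¹ * k ∈ Subgroup.zpowers u
  · have c2 := hown h' hY
    have c1 : dh p k 1 h' < 2 * I := by
      rw [s4, dh_coset P.shift 1 (h'⁻¹ * k) _ _ (by rwa [inv_one, one_mul])]
      exact d1
    have c3 : dh p k (h' * u ^ j) (g * u ^ j) < 2 * I := by
      rw [s3, dh_coset P.shift 1 _ _ _ (by
        rw [inv_one, one_mul]
        exact Subgroup.mul_mem _ (Subgroup.zpow_mem _ (Subgroup.mem_zpowers u) _) hY)]
      exact d1
    have c4 : dh p k g (g * u ^ j) ≤ θ + j := by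
      by_cases hg' : g⁻¹ * k ∈ Subgroup.zpowers u
      · rw [hown g hg', hjabs]; linarith [Int.natCast_nonneg θ]
      · linarith [hoth g hg']
    rw [hjabs] at c2
    linarith
  · have c2 := hoth h' hY
    by_cases hY2 : g⁻¹ * k ∈ Subgroup.zpowers u
    · have c4 := hown g hY2
      have c3 : dh p k (h' * u ^ j) (g * u ^ j) < 2 * I := by
        rw [s3, dh_coset P.shift h'⁻¹ _ _ _ (by
          have e0 : ∀ y : Γ, (y⁻¹)⁻¹ * (u ^ (-j) * (y⁻¹ * k)) =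
              u ^ (-j) * ((y * u ^ j * y⁻¹ * (u ^ j)⁻¹)⁻¹ * k) := by intro y; group
          have e : (h'⁻¹)⁻¹ * (u ^ (-j) * (h'⁻¹ * k)) = u ^ (-j) * (g⁻¹ * k) := e0 h'
          rw [e]
          exact Subgroup.mul_mem _ (Subgroup.zpow_mem _ (Subgroup.mem_zpowers u) _) hY2)]
        exact d2
      rw [hjabs] at c4
      linarith
    · have c4 := hoth g hY2
      rw [s3] at t3
      rw [s4] at m1 t1
      set V := h'⁻¹ * k with hV
      have hW : u ^ (-j) * V ∉ Subgroup.zpowers u := by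
        intro hmem
        apply hY
        have := Subgroup.mul_mem _ (Subgroup.zpow_mem _ (Subgroup.mem_zpowers u) j) hmem
        have e : u ^ j * (u ^ (-j) * V) = V := by group
        rwa [e] at this
      have v1 := dh_behr P 1 V (by rwa [inv_one, one_mul]) h'⁻¹
      have w1 := dh_behr P 1 (u ^ (-j) * V) (by rwa [inv_one, one_mul]) h'⁻¹
      rw [dh_comm V h'⁻¹ 1] at v1
      rw [dh_comm (u ^ (-j) * V) h'⁻¹ 1] at w1
      have v2 : dh p 1 h'⁻¹ V ≤ θ := by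
        rcases v1 with v1 | v1
        · exact v1
        · exfalso; linarith
      have w2 : dh p 1 h'⁻¹ (u ^ (-j) * V) ≤ θ := by
        rcases w1 with w1 | w1
        · exact w1
        · exfalso; linarith
      unfold dh at v2 w2
      rw [inv_one, one_mul, one_mul] at v2 w2
      rw [p_zpow P.shift] at w2
      rw [abs_le] at v2 w2
      linarith [v2.1, v2.2, w2.1, w2.2]

end lift

end Pool.Agent.Lib.MP_06935a_al
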