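import Pool.Agent.Lib.MP_06935a_al.Basic

/-!
T1: conjugacy-minimal elements, torsion, and elements of infinite order in a group with a
hyperbolic length function.
-/

set_option autoImplicit false

namespace Pool.Agent.Lib.MP_06935a_al

variable {Γ : Type} [Group Γ] {ℓ : Γ → ℕ} {δ : ℕ}

/-- T1a: a conjugacy-minimal element does not backtrack, unless it is short. -/
theorem conjmin_sq (H : HypLen ℓ δ) (x : Γ) (hx : ∀ b : Γ, ℓ x ≤ ℓ (b⁻¹ * x * b)) :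
    2 * ℓ x ≤ ℓ (x ^ 2) + 4 * δ ∨ ℓ x ≤ 4 * δ + 1 := by
  obtain ⟨y, z, hyz, hy, hz⟩ := H.split x (ℓ x / 2) (Nat.div_le_self _ _)
  have hzy : ℓ x ≤ ℓ (z * y) := by
    have h := hx y
    have e : y⁻¹ * x * y = z * y := by rw [hyz]; group
    rwa [e] at h
  have f1 := H.four z⁻¹ y x⁻¹ 1
  have f2 := H.four x⁻¹ y x 1
  have e1 : dst ℓ z⁻¹ y = ℓ (z * y) := by simp [dst]
  have e2 : dst ℓ x⁻¹ 1 = ℓ x := by rw [H.dst_one_right, H.inv]
  have e3 : dst ℓ z⁻¹ x⁻¹ = ℓ y := by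
    rw [hyz, ← H.inv y]
    unfold dst
    congr 1
    group
  have e4 : dst ℓ y 1 = ℓ y := H.dst_one_right y
  have e5 : dst ℓ z⁻¹ 1 = ℓ z := by rw [H.dst_one_right, H.inv]
  have e6 : dst ℓ y x⁻¹ = dst ℓ x⁻¹ y := H.dst_comm _ _
  have e7 : dst ℓ x 1 = ℓ x := H.dst_one_right x
  have e8 : dst ℓ x⁻¹ x = ℓ (x ^ 2) := by
    unfold dst
    rw [inv_inv, pow_two]
  have e9 : dst ℓ y x = ℓ z := by
    unfold dst
    rw [hyz]
    congr 1
    group
  rw [e1, e2, e3, e4, e5, e6] at f1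
  rw [e7, e8, e4, e2, e9] at f2
  omega

/-- T1-rec -/
theorem pow_rec (H : HypLen ℓ δ) (g : Γ) (η : ℕ) (hη : 1 ≤ η)
    (h2 : ℓ g + 2 * δ + η ≤ ℓ (g ^ 2)) : ∀ k : ℕ, ℓ (g ^ k) + η ≤ ℓ (g ^ (k + 1)) := by
  intro k
  induction k with
  | zero =>
    have h := H.mul g g
    rw [← pow_two] at h
    simp only [pow_zero, zero_add, pow_one, H.one]
    omega
  | succ k ih =>
    have f := H.four 1 (g ^ (k + 1)) (g ^ k) (g ^ (k + 2))
    have e1 : dst ℓ 1 (g ^ (k + 1)) = ℓ (g ^ (k + 1)) := dst_one_left _ _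
    have e2 : dst ℓ (g ^ k) (g ^ (k + 2)) = ℓ (g ^ 2) := by
      rw [pow_add, dst_mul_right]
    have e3 : dst ℓ 1 (g ^ k) = ℓ (g ^ k) := dst_one_left _ _
    have e4 : dst ℓ (g ^ (k + 1)) (g ^ (k + 2)) = ℓ g := by
      rw [pow_succ g (k + 1), dst_mul_right]
    have e5 : dst ℓ 1 (g ^ (k + 2)) = ℓ (g ^ (k + 2)) := dst_one_left _ _
    have e6 : dst ℓ (g ^ (k + 1)) (g ^ k) = ℓ g := by
      rw [H.dst_comm, pow_succ, dst_mul_right]
    rw [e1, e2, e3, e4, e5, e6] at f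
    show ℓ (g ^ (k + 1)) + η ≤ ℓ (g ^ (k + 2))
    omega

theorem pow_rec_le (H : HypLen ℓ δ) (g : Γ) (η : ℕ)
    (h : ∀ k : ℕ, ℓ (g ^ k) + η ≤ ℓ (g ^ (k + 1))) (k : ℕ) : k * η ≤ ℓ (g ^ k) := by
  induction k with
  | zero => simp
  | succ k ih =>
    have := h k
    rw [Nat.succ_mul]
    omega

/-- T1b: a conjugacy-minimal element of finite order is short. -/
theorem conjmin_torsion (H : HypLen ℓ δ) (x : Γ) (hx : ∀ b : Γ, ℓ x ≤ ℓ (b⁻¹ * x * b))
    (ht : IsOfFinOrder x) : ℓ x ≤ 6 * δ + 1 := by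
  by_contra hc
  rw [not_le] at hc
  have h1 : 2 * ℓ x ≤ ℓ (x ^ 2) + 4 * δ := by
    rcases conjmin_sq H x hx with h | h
    · exact h
    · omega
  have h2 := pow_rec_le H x 1 (pow_rec H x 1 le_rfl (by omega))
  obtain ⟨n, hn, hn1⟩ := isOfFinOrder_iff_pow_eq_one.mp ht
  have h3 := h2 n
  rw [hn1, H.one] at h3
  omega

/-- T1-center: a quasi-centre of a bounded orbit -/
theorem quasi_center (H : HypLen ℓ δ) (g h : Γ) (N C₀ : ℕ) (hN : 1 ≤ N)
    (hd : dst ℓ h (g ^ N * h) ≤ C₀) :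
    ∃ c : Γ, ∀ j ≤ N, dst ℓ c (g ^ j * c) ≤ 2 * C₀ + 4 * δ + 1 := by
  classical
  let r : Γ → ℕ := fun c => (Finset.range N).sup fun i => dst ℓ c (g ^ i * h)
  obtain ⟨c, hc⟩ : ∃ c, ∀ m, r c ≤ r m := by
    obtain ⟨c, -, hc⟩ := WellFounded.has_min (measure r).wf Set.univ ⟨1, trivial⟩
    exact ⟨c, fun m => not_lt.mp (hc m trivial)⟩
  refine ⟨c, fun j hj => ?_⟩
  have hle : ∀ i < N, dst ℓ c (g ^ i * h) ≤ r c := fun i hi =>
    Finset.le_sup (f := fun i => dst ℓ c (g ^ i * h)) (Finset.mem_range.mpr hi)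
  have hle' : ∀ i < N, dst ℓ (g ^ j * c) (g ^ i * h) ≤ r c + C₀ := by
    intro i hi
    by_cases hij : j ≤ i
    · obtain ⟨t, rfl⟩ := Nat.exists_eq_add_of_le hij
      rw [pow_add, mul_assoc, dst_mul_left]
      exact (hle t (by omega)).trans (Nat.le_add_right _ _)
    · have h1 : dst ℓ (g ^ j * c) (g ^ (i + N) * h) ≤ r c := by
        obtain ⟨t, ht⟩ := Nat.exists_eq_add_of_le (show j ≤ i + N by omega)
        rw [ht, pow_add, mul_assoc, dst_mul_left]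
        exact hle t (by omega)
      have h2 : dst ℓ (g ^ (i + N) * h) (g ^ i * h) ≤ C₀ := by
        rw [pow_add, mul_assoc, dst_mul_left, H.dst_comm]
        exact hd
      have h3 := H.dst_tri (g ^ j * c) (g ^ (i + N) * h) (g ^ i * h)
      omega
  set D := dst ℓ c (g ^ j * c) with hD
  obtain ⟨y, z, hyz, hy, hz⟩ := H.split (c⁻¹ * (g ^ j * c)) (D / 2) (Nat.div_le_self _ _)
  have hDe : ℓ (c⁻¹ * (g ^ j * c)) = D := rfl
  rw [hDe] at hz
  set m := c * y with hm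
  have hcm : dst ℓ c m = D / 2 := by rw [hm, dst_mul_right, hy]
  have hmc : dst ℓ m (g ^ j * c) = ℓ z := by
    unfold dst
    rw [hm, mul_inv_rev, mul_assoc, hyz]
    congr 1
    group
  have hrm : ∀ i < N, dst ℓ m (g ^ i * h) + D / 2 ≤ r c + C₀ + 2 * δ := by
    intro i hi
    have f := H.four (g ^ i * h) m c (g ^ j * c)
    have g1 := hle i hi
    have g2 := hle' i hi
    rw [H.dst_comm (g ^ i * h) m, H.dst_comm (g ^ i * h) c, H.dst_comm (g ^ i * h) (g ^ j * c),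
      H.dst_comm m c, hcm, hmc, ← hD] at f
    omega
  obtain ⟨i, hi, hri⟩ := Finset.exists_mem_eq_sup (Finset.range N)
    ⟨0, Finset.mem_range.mpr (by omega)⟩ (fun i => dst ℓ m (g ^ i * h))
  have h1 := hc m
  have h2 := hrm i (Finset.mem_range.mp hi)
  have h3 : r m = dst ℓ m (g ^ i * h) := hri
  omega

/-- powers of an element of infinite order have long conjugates -/
theorem exists_long_pow (H : HypLen ℓ δ) (hp : ProperLen ℓ) (w : Γ) (hw : ¬ IsOfFinOrder w)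
    (C₀ : ℕ) : ∃ k : ℕ, 1 ≤ k ∧ ∀ h : Γ, C₀ < ℓ (h⁻¹ * w ^ k * h) := by
  classical
  by_contra hc
  push Not at hc
  set R := 2 * C₀ + 4 * δ + 1 with hR
  set S : Finset Γ := (hp R).toFinset with hS
  have hSmem : ∀ x, x ∈ S ↔ ℓ x ≤ R := by
    intro x
    simp [hS]
  have hN : 1 ≤ S.card := by
    apply Finset.card_pos.mpr
    exact ⟨1, (hSmem 1).mpr (by rw [H.one]; omega)⟩
  obtain ⟨h, hh⟩ := hc S.card hN
  have hd : dst ℓ h (w ^ S.card * h) ≤ C₀ := by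
    unfold dst
    rw [← mul_assoc]
    exact hh
  obtain ⟨c, hcc⟩ := quasi_center H w h S.card C₀ hN hd
  obtain ⟨i, hi, j, hj, hij, hf⟩ := Finset.exists_ne_map_eq_of_card_lt_of_maps_to
    (s := Finset.range (S.card + 1)) (t := S) (f := fun j => c⁻¹ * (w ^ j * c))
    (by rw [Finset.card_range]; omega)
    (fun j hj => (hSmem _).mpr (hcc j (by
      have := Finset.mem_range.mp hj
      omega)))
  have hw2 : w ^ i = w ^ j := by
    have h1 : w ^ i * c = w ^ j * c := mul_left_cancel hf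
    exact mul_right_cancel h1
  apply hw
  exact isOfFinOrder_iff_zpow_eq_one.mpr ⟨(i : ℤ) - j, by omega, by
    rw [zpow_sub, zpow_natCast, zpow_natCast, hw2, mul_inv_cancel]⟩

/-- T1c: elements of infinite order are loxodromic. -/
theorem exists_qgeo (H : HypLen ℓ δ) (hp : ProperLen ℓ) (w : Γ) (hw : ¬ IsOfFinOrder w) :
    ∃ K : ℕ, QGeo ℓ w K := by
  classical
  obtain ⟨k, hk, hlong⟩ := exists_long_pow H hp w hw (100 * δ + 100)
  obtain ⟨h, hmin⟩ : ∃ h : Γ, ∀ m : Γ, ℓ (h⁻¹ * w ^ k * h) ≤ ℓ (m⁻¹ * w ^ k * m) := by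
    obtain ⟨c, -, hc⟩ := WellFounded.has_min
      (measure fun h : Γ => ℓ (h⁻¹ * w ^ k * h)).wf Set.univ ⟨1, trivial⟩
    exact ⟨c, fun m => not_lt.mp (hc m trivial)⟩
  set v := h⁻¹ * w ^ k * h with hv
  have hvmin : ∀ b : Γ, ℓ v ≤ ℓ (b⁻¹ * v * b) := by
    intro b
    have h1 := hmin (h * b)
    have e : (h * b)⁻¹ * w ^ k * (h * b) = b⁻¹ * v * b := by rw [hv]; group
    rwa [e] at h1
  have hvl : 100 * δ + 100 < ℓ v := hlong h
  have h2 : 2 * ℓ v ≤ ℓ (v ^ 2) + 4 * δ := by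
    rcases conjmin_sq H v hvmin with h | h
    · exact h
    · omega
  have hrec : ∀ j : ℕ, ℓ (v ^ j) + (ℓ (v ^ 2) - ℓ v - 2 * δ) ≤ ℓ (v ^ (j + 1)) :=
    pow_rec H v _ (by omega) (by omega)
  have hrec1 : ∀ j : ℕ, ℓ (v ^ j) + ℓ v ≤ ℓ (v ^ (j + 1)) + 6 * δ := by
    intro j
    have := hrec j
    omega
  have hrec2 : ∀ j : ℕ, ℓ (v ^ j) + 1 ≤ ℓ (v ^ (j + 1)) := by
    intro j
    have := hrec j
    omega
  have hmono : Monotone fun j : ℕ => ℓ (v ^ j) := by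
    refine monotone_nat_of_le_succ fun j => ?_
    have := hrec2 j
    show ℓ (v ^ j) ≤ ℓ (v ^ (j + 1))
    omega
  have hlin : ∀ j : ℕ, j ≤ ℓ (v ^ j) := by
    intro j
    have := pow_rec_le H v 1 hrec2 j
    omega
  have hsup : ∀ i j : ℕ, ℓ (v ^ i) + ℓ (v ^ j) ≤ ℓ (v ^ (i + j)) + 8 * δ := by
    intro i j
    cases j with
    | zero => simp [H.one]
    | succ j =>
      have f := H.four 1 (v ^ (i + 1)) (v ^ (i + (j + 1))) (v ^ i)
      have e1 : dst ℓ 1 (v ^ (i + 1)) = ℓ (v ^ (i + 1)) := dst_one_left _ _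
      have e2 : dst ℓ (v ^ (i + (j + 1))) (v ^ i) = ℓ (v ^ (j + 1)) := by
        rw [H.dst_comm, pow_add, dst_mul_right]
      have e3 : dst ℓ 1 (v ^ (i + (j + 1))) = ℓ (v ^ (i + (j + 1))) := dst_one_left _ _
      have e4 : dst ℓ (v ^ (i + 1)) (v ^ i) = ℓ v := by
        rw [H.dst_comm, pow_succ, dst_mul_right]
      have e5 : dst ℓ 1 (v ^ i) = ℓ (v ^ i) := dst_one_left _ _
      have e6 : dst ℓ (v ^ (i + 1)) (v ^ (i + (j + 1))) = ℓ (v ^ j) := by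
        rw [show i + (j + 1) = (i + 1) + j by ring, pow_add v (i + 1) j, dst_mul_right]
      rw [e1, e2, e3, e4, e5, e6] at f
      have h3 := hrec1 i
      have h4 := hrec2 j
      omega
  have hwv : ∀ q : ℕ, w ^ (k * q) = h * v ^ q * h⁻¹ := by
    intro q
    rw [hv, pow_mul]
    have : h⁻¹ * w ^ k * h = h⁻¹ * w ^ k * (h⁻¹)⁻¹ := by rw [inv_inv]
    rw [this, conj_pow]
    group
  set M := 2 * ℓ h + (Finset.range k).sup fun r => ℓ (w ^ r) with hM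
  have hr : ∀ r < k, ℓ (w ^ r) + 2 * ℓ h ≤ M := by
    intro r hr
    have := Finset.le_sup (f := fun r => ℓ (w ^ r)) (Finset.mem_range.mpr hr)
    have h3 : ℓ (w ^ r) ≤ (Finset.range k).sup fun r => ℓ (w ^ r) := this
    omega
  have hup : ∀ e : ℕ, ℓ (w ^ e) ≤ ℓ (v ^ (e / k)) + M := by
    intro e
    have h3 := hr (e % k) (Nat.mod_lt _ (by omega))
    have h4 : w ^ e = h * v ^ (e / k) * h⁻¹ * w ^ (e % k) := by
      rw [← hwv, ← pow_add, Nat.div_add_mod]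
    have h5 := H.mul (h * v ^ (e / k) * h⁻¹) (w ^ (e % k))
    have h6 := H.mul (h * v ^ (e / k)) h⁻¹
    have h7 := H.mul h (v ^ (e / k))
    rw [H.inv] at h6
    rw [h4]
    omega
  have hlo : ∀ e : ℕ, ℓ (v ^ (e / k)) ≤ ℓ (w ^ e) + M := by
    intro e
    have h3 := hr (e % k) (Nat.mod_lt _ (by omega))
    have h4 : v ^ (e / k) = h⁻¹ * (w ^ e * (w ^ (e % k))⁻¹) * h := by
      have h5 : w ^ e = w ^ (k * (e / k)) * w ^ (e % k) := by
        rw [← pow_add, Nat.div_add_mod]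
      rw [h5, mul_inv_cancel_right, hwv]
      group
    have h5 := H.mul (h⁻¹ * (w ^ e * (w ^ (e % k))⁻¹)) h
    have h6 := H.mul h⁻¹ (w ^ e * (w ^ (e % k))⁻¹)
    have h7 := H.mul (w ^ e) (w ^ (e % k))⁻¹
    rw [H.inv] at h6 h7
    rw [h4]
    omega
  refine ⟨8 * δ + 3 * M, ?_, ?_⟩
  · intro i j
    have h3 := hup i
    have h4 := hup j
    have h5 := hsup (i / k) (j / k)
    have h6 : ℓ (v ^ (i / k + j / k)) ≤ ℓ (v ^ ((i + j) / k)) :=
      hmono Nat.div_add_div_le_add_div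
    have h7 := hlo (i + j)
    omega
  · intro R
    refine ⟨k * (R + M), fun i hi => ?_⟩
    have h3 : R + M ≤ i / k := by
      rw [Nat.le_div_iff_mul_le (by omega), mul_comm]
      exact hi
    have h4 := hlin (i / k)
    have h5 := hlo i
    omega

end Pool.Agent.Lib.MP_06935a_al
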