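import Pool.Agent.Lib.MP_06935a_al.Basic

/-!
T6: the spinning (windmill) lemma for a family of projections satisfying the axioms `ProjSys`.
-/

set_option autoImplicit false

namespace Pool.Agent.Lib.MP_06935a_al

open scoped Pointwise

namespace Windmill

variable {Γ : Type} [Group Γ] {ℓ : Γ → ℕ} {δ : ℕ} {u : Γ} {p : Γ → ℤ} {C θ n : ℕ}

/-- distance of the projections to the coset `h⟨u⟩` -/
def pd (p : Γ → ℤ) (h a b : Γ) : ℤ := |p (h⁻¹ * a) - p (h⁻¹ * b)|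

theorem pd_self (h a : Γ) : pd p h a a = 0 := by simp [pd]

theorem pd_comm (h a b : Γ) : pd p h a b = pd p h b a := by
  unfold pd; exact abs_sub_comm _ _

theorem pd_nonneg (h a b : Γ) : 0 ≤ pd p h a b := abs_nonneg _

theorem pd_tri (h a b c : Γ) : pd p h a c ≤ pd p h a b + pd p h b c := by
  unfold pd; exact abs_sub_le _ _ _

theorem pd_mul (g h a b : Γ) : pd p (g * h) (g * a) (g * b) = pd p h a b := by
  unfold pd
  have e1 : (g * h)⁻¹ * (g * a) = h⁻¹ * a := by group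
  have e2 : (g * h)⁻¹ * (g * b) = h⁻¹ * b := by group
  rw [e1, e2]

theorem p_zpow (hs : ∀ x, p (u * x) = p x + 1) (j : ℤ) : ∀ x : Γ, p (u ^ j * x) = p x + j := by
  induction j using Int.induction_on with
  | zero => intro x; simp
  | succ i ih =>
    intro x
    have e : u ^ ((i : ℤ) + 1) * x = u * (u ^ (i : ℤ) * x) := by
      rw [add_comm, zpow_add, zpow_one, mul_assoc]
    rw [e, hs, ih]; ring
  | pred i ih =>
    intro x
    have e : u * (u ^ (-(i : ℤ) - 1) * x) = u ^ (-(i : ℤ)) * x := by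
      rw [← mul_assoc, ← zpow_one_add]; congr 2; ring
    have := hs (u ^ (-(i : ℤ) - 1) * x)
    rw [e, ih] at this
    omega

theorem pd_shift (hs : ∀ x, p (u * x) = p x + 1) (h a b : Γ) (j : ℤ) :
    pd p (h * u ^ j) a b = pd p h a b := by
  unfold pd
  have e : ∀ y : Γ, (h * u ^ j)⁻¹ * y = u ^ (-j) * (h⁻¹ * y) := by
    intro y; rw [zpow_neg]; group
  rw [e, e, p_zpow hs, p_zpow hs]
  congr 1; ring

/-- the rotation moves points along its own axis -/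
theorem pd_rot (hs : ∀ x, p (u * x) = p x + 1) (h a : Γ) (j : ℤ) :
    pd p h (h * u ^ j * h⁻¹ * a) a = |j| := by
  unfold pd
  have e : h⁻¹ * (h * u ^ j * h⁻¹ * a) = u ^ j * (h⁻¹ * a) := by group
  rw [e, p_zpow hs]
  congr 1; ring

theorem pd_axis (hs : ∀ x, p (u * x) = p x + 1) (h : Γ) (j : ℤ) :
    pd p h h (h * u ^ j) = |j| := by
  unfold pd
  have e : h⁻¹ * (h * u ^ j) = u ^ j * (h⁻¹ * h) := by group
  rw [e, p_zpow hs, abs_sub_comm]
  congr 1; ring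

theorem pd_lip (P : ProjSys ℓ u p C θ) (h a s : Γ) (hs : ℓ s ≤ 1) :
    pd p h (a * s) a ≤ C := by
  unfold pd
  have := P.lip (h⁻¹ * a) s hs
  rwa [mul_assoc] at this

/-- Behrstock inequality -/
theorem pd_behr (P : ProjSys ℓ u p C θ) (h k a : Γ) (hk : h⁻¹ * k ∉ Subgroup.zpowers u) :
    pd p h a k ≤ θ ∨ pd p k a h ≤ θ := by
  unfold pd
  have := P.behr (h⁻¹ * k) hk (h⁻¹ * a)
  have e1 : (h⁻¹ * k)⁻¹ * (h⁻¹ * a) = k⁻¹ * a := by group
  have e2 : (h⁻¹ * k)⁻¹ = k⁻¹ * h := by group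
  rwa [e1, e2] at this

theorem nsymm {h k : Γ} (hk : h⁻¹ * k ∉ Subgroup.zpowers u) :
    k⁻¹ * h ∉ Subgroup.zpowers u := by
  intro hh
  apply hk
  have := Subgroup.inv_mem _ hh
  have e : (k⁻¹ * h)⁻¹ = h⁻¹ * k := by group
  rwa [e] at this

theorem le_abs_mul {k : ℤ} (hk : k ≠ 0) : (n : ℤ) ≤ |(n : ℤ) * k| := by
  rw [abs_mul]
  have h1 : (1 : ℤ) ≤ |k| := Int.one_le_abs hk
  have h2 : |(n : ℤ)| = n := abs_of_nonneg (by positivity)
  rw [h2]
  nlinarith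

/-- normal forms -/
inductive NF (u : Γ) (n : ℕ) (M : Subgroup Γ) (A : Set Γ) : Γ → Γ → Prop
  | last (h g : Γ) (k : ℤ) (hA : h ∈ A) (hk : k ≠ 0) (hm : g ∈ M) :
      NF u n M A h (h * u ^ ((n : ℤ) * k) * h⁻¹ * g)
  | cons (h h2 g : Γ) (k : ℤ) (hA : h ∈ A) (hk : k ≠ 0)
      (hne : h⁻¹ * h2 ∉ Subgroup.zpowers u) (hg : NF u n M A h2 g) :
      NF u n M A h (h * u ^ ((n : ℤ) * k) * h⁻¹ * g)

theorem NF.memA {M : Subgroup Γ} {A : Set Γ} {h g : Γ} (H : NF u n M A h g) : h ∈ A := by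
  cases H <;> assumption

theorem NF.mulM {M : Subgroup Γ} {A : Set Γ} (hA : ∀ m ∈ M, ∀ h ∈ A, m * h ∈ A) {m : Γ}
    (hm : m ∈ M) {h g : Γ} (H : NF u n M A h g) : NF u n M A (m * h) (m * g) := by
  induction H with
  | last h g k hA' hk hg =>
    have e : m * (h * u ^ ((n : ℤ) * k) * h⁻¹ * g) =
      (m * h) * u ^ ((n : ℤ) * k) * (m * h)⁻¹ * (m * g) := by group
    rw [e]
    exact NF.last _ _ _ (hA m hm h hA') hk (M.mul_mem hm hg)
  | cons h h2 g k hA' hk hne hg ih =>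
    have e : m * (h * u ^ ((n : ℤ) * k) * h⁻¹ * g) =
      (m * h) * u ^ ((n : ℤ) * k) * (m * h)⁻¹ * (m * g) := by group
    rw [e]
    refine NF.cons _ (m * h2) _ _ (hA m hm h hA') hk ?_ ih
    have e2 : (m * h)⁻¹ * (m * h2) = h⁻¹ * h2 := by group
    rwa [e2]

/-- the set of elements with a normal form -/
def NFS (u : Γ) (n : ℕ) (M : Subgroup Γ) (A : Set Γ) (g : Γ) : Prop :=
  g ∈ M ∨ ∃ h, NF u n M A h g

theorem NFS.mulM {M : Subgroup Γ} {A : Set Γ} (hA : ∀ m ∈ M, ∀ h ∈ A, m * h ∈ A) {m : Γ}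
    (hm : m ∈ M) {g : Γ} (H : NFS u n M A g) : NFS u n M A (m * g) := by
  rcases H with H | ⟨h, H⟩
  · exact Or.inl (M.mul_mem hm H)
  · exact Or.inr ⟨_, H.mulM hA hm⟩

theorem NFS.mulR {M : Subgroup Γ} {A : Set Γ} {h : Γ} (hh : h ∈ A) (k : ℤ)
    {g : Γ} (H : NFS u n M A g) : NFS u n M A (h * u ^ ((n : ℤ) * k) * h⁻¹ * g) := by
  by_cases hk : k = 0
  · subst hk; simpa using H
  rcases H with H | ⟨h2, H⟩
  · exact Or.inr ⟨h, NF.last _ _ _ hh hk H⟩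
  by_cases hE : h⁻¹ * h2 ∈ Subgroup.zpowers u
  · obtain ⟨j, hj⟩ := Subgroup.mem_zpowers_iff.mp hE
    have hh2 : h = h2 * u ^ (-j) := by
      rw [zpow_neg, hj]; group
    have key : ∀ (k' : ℤ) (g' : Γ), h * u ^ ((n : ℤ) * k) * h⁻¹ *
        (h2 * u ^ ((n : ℤ) * k') * h2⁻¹ * g') = h2 * u ^ ((n : ℤ) * (k + k')) * h2⁻¹ * g' := by
      intro k' g'
      have e1 : h * u ^ ((n : ℤ) * k) * h⁻¹ = h2 * u ^ ((n : ℤ) * k) * h2⁻¹ := by
        rw [hh2]
        have : h2 * u ^ (-j) * u ^ ((n : ℤ) * k) * (h2 * u ^ (-j))⁻¹ =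
          h2 * (u ^ (-j) * u ^ ((n : ℤ) * k) * (u ^ (-j))⁻¹) * h2⁻¹ := by group
        rw [this, ← zpow_neg, ← zpow_add, ← zpow_add]
        congr 3; ring
      rw [e1, mul_add, zpow_add]
      group
    cases H with
    | last _ g' k' hA' hk' hm =>
      rw [key]
      by_cases h0 : k + k' = 0
      · rw [h0]; simp; exact Or.inl hm
      · exact Or.inr ⟨h2, NF.last _ _ _ hA' h0 hm⟩
    | cons _ h3 g' k' hA' hk' hne hg =>
      rw [key]
      by_cases h0 : k + k' = 0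
      · rw [h0]; simp; exact Or.inr ⟨_, hg⟩
      · exact Or.inr ⟨h2, NF.cons _ _ _ _ hA' h0 hne hg⟩
  · exact Or.inr ⟨h, NF.cons _ _ _ _ hh hk hE H⟩

/-- the group generated by `M` and the rotations about the elements of `A` -/
def bigM (u : Γ) (n : ℕ) (M : Subgroup Γ) (A : Set Γ) : Subgroup Γ :=
  Subgroup.closure ((M : Set Γ) ∪ {r | ∃ h ∈ A, r = h * u ^ n * h⁻¹})

theorem le_bigM (M : Subgroup Γ) (A : Set Γ) : M ≤ bigM u n M A := by
  intro m hm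
  exact Subgroup.subset_closure (Or.inl hm)

theorem rot_mem_bigM (M : Subgroup Γ) (A : Set Γ) {h : Γ} (hh : h ∈ A) :
    h * u ^ n * h⁻¹ ∈ bigM u n M A :=
  Subgroup.subset_closure (Or.inr ⟨h, hh, rfl⟩)

theorem rot_pow (h : Γ) (k : ℤ) : (h * u ^ n * h⁻¹) ^ k = h * u ^ ((n : ℤ) * k) * h⁻¹ := by
  rw [conj_zpow, zpow_mul, zpow_natCast]

theorem NFS_of_mem {M : Subgroup Γ} {A : Set Γ} (hA : ∀ m ∈ M, ∀ h ∈ A, m * h ∈ A) {g : Γ}
    (hg : g ∈ bigM u n M A) : NFS u n M A g := by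
  have key : ∀ r ∈ ((M : Set Γ) ∪ {r | ∃ h ∈ A, r = h * u ^ n * h⁻¹}), ∀ g,
      NFS u n M A g → NFS u n M A (r * g) ∧ NFS u n M A (r⁻¹ * g) := by
    rintro r (hr | ⟨h, hh, rfl⟩) g H
    · exact ⟨H.mulM hA hr, H.mulM hA (M.inv_mem hr)⟩
    · constructor
      · have := H.mulR hh 1
        rwa [← rot_pow, zpow_one] at this
      · have := H.mulR hh (-1)
        rwa [← rot_pow, zpow_neg, zpow_one] at this
  induction hg using Subgroup.closure_induction_left with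
  | one => exact Or.inl M.one_mem
  | mul_left r hr g _ ih => exact (key r hr g ih).1
  | inv_mul_cancel r hr g _ ih => exact (key r hr g ih).2

/-- enlarging a set by the unit ball -/
def thick (ℓ : Γ → ℕ) (Q : Set Γ) : Set Γ := {y | ∃ q ∈ Q, ∃ s, ℓ s ≤ 1 ∧ y = q * s}

/-- the axes crossed by `thick Q` not yet dealt with -/
def newA (ℓ : Γ → ℕ) (u : Γ) (p : Γ → ℤ) (θ n : ℕ) (Q : Set Γ) (M : Subgroup Γ) : Set Γ :=
  {h | h * u ^ n * h⁻¹ ∉ M ∧ ∃ a ∈ thick ℓ Q, ∃ b ∈ thick ℓ Q, 2 * (θ : ℤ) < pd p h a b}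

/-- states of the windmill -/
structure State (ℓ : Γ → ℕ) (u : Γ) (p : Γ → ℤ) (C θ n : ℕ) (x : Γ) (Q : Set Γ)
    (M : Subgroup Γ) : Prop where
  w0 : x ∈ Q
  w1 : ∀ m ∈ M, ∀ q ∈ Q, m * q ∈ Q
  w2 : ∀ h, h * u ^ n * h⁻¹ ∉ M → ∀ a ∈ Q, ∀ b ∈ Q, pd p h a b ≤ 6 * θ
  w3 : ∀ g ∈ M, Res u p n (2 * C + 8 * θ) x g

section step

variable {x : Γ} {Q : Set Γ} {M : Subgroup Γ}

theorem thick_mul (S : State ℓ u p C θ n x Q M) {m q : Γ} (hm : m ∈ M) (hq : q ∈ thick ℓ Q) :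
    m * q ∈ thick ℓ Q := by
  obtain ⟨q, hq, s, hs, rfl⟩ := hq
  exact ⟨m * q, S.w1 m hm q hq, s, hs, (mul_assoc _ _ _).symm⟩

theorem newA_mul (S : State ℓ u p C θ n x Q M) : ∀ m ∈ M, ∀ h ∈ newA ℓ u p θ n Q M,
    m * h ∈ newA ℓ u p θ n Q M := by
  rintro m hm h ⟨h1, a, ha, b, hb, hab⟩
  refine ⟨?_, m * a, thick_mul S hm ha, m * b, thick_mul S hm hb, ?_⟩
  · intro hh
    apply h1
    have := M.mul_mem (M.mul_mem (M.inv_mem hm) hh) hm
    have e : m⁻¹ * (m * h * u ^ n * (m * h)⁻¹) * m = h * u ^ n * h⁻¹ := by group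
    rwa [e] at this
  · rwa [pd_mul]

/-- diameter of the projections of the thickening to old axes -/
theorem thick_diam (P : ProjSys ℓ u p C θ) (S : State ℓ u p C θ n x Q M) {h : Γ}
    (hh : h * u ^ n * h⁻¹ ∉ M) {a b : Γ} (ha : a ∈ thick ℓ Q) (hb : b ∈ thick ℓ Q) :
    pd p h a b ≤ 6 * θ + 2 * C := by
  obtain ⟨q, hq, s, hs, rfl⟩ := ha
  obtain ⟨q', hq', s', hs', rfl⟩ := hb
  have h1 := pd_lip P h q s hs
  have h2 := pd_lip P h q' s' hs'
  have h3 := S.w2 h hh q hq q' hq'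
  have h4 := pd_tri (p := p) h (q * s) q (q' * s')
  have h5 := pd_tri (p := p) h q q' (q' * s')
  have h6 := pd_comm (p := p) h q' (q' * s')
  omega

/-- (S) -/
theorem exists_near (P : ProjSys ℓ u p C θ) {h k : Γ} (hk : k ∈ newA ℓ u p θ n Q M)
    (hne : h⁻¹ * k ∉ Subgroup.zpowers u) : ∃ z ∈ thick ℓ Q, pd p h z k ≤ θ := by
  obtain ⟨_, a, ha, b, hb, hab⟩ := hk
  rcases pd_behr P h k a hne with h1 | h1
  · exact ⟨a, ha, h1⟩
  rcases pd_behr P h k b hne with h2 | h2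
  · exact ⟨b, hb, h2⟩
  exfalso
  have h4 := pd_tri (p := p) k a h b
  have h6 := pd_comm (p := p) k h b
  omega

theorem P1 (P : ProjSys ℓ u p C θ) (S : State ℓ u p C θ n x Q M)
    (hn : 2 * C + 20 * θ + 1 ≤ n) {h g : Γ} (H : NF u n M (newA ℓ u p θ n Q M) h g) :
    ∀ q ∈ thick ℓ Q, ∀ q' ∈ thick ℓ Q, (n : ℤ) - (2 * C + 8 * θ) ≤ pd p h q (g * q') := by
  induction H with
  | last h g k hA hk hm =>
    intro q hq q' hq'
    have h1 := thick_diam P S hA.1 (thick_mul S hm hq') hq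
    have h2 := pd_rot (p := p) P.shift h (g * q') ((n : ℤ) * k)
    have h3 := le_abs_mul (n := n) hk
    have h4 := pd_tri (p := p) h (h * u ^ ((n : ℤ) * k) * h⁻¹ * (g * q')) q (g * q')
    have h5 := pd_comm (p := p) h (h * u ^ ((n : ℤ) * k) * h⁻¹ * (g * q')) q
    have h6 := pd_comm (p := p) h (g * q') q
    rw [mul_assoc _ g q']
    omega
  | cons h h2 g k hA hk hne hg ih =>
    intro q hq q' hq'
    obtain ⟨z', hz', hz'1⟩ := exists_near P hA (nsymm hne)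
    have i1 := ih z' hz' q' hq'
    have i2 := pd_tri (p := p) h2 z' h (g * q')
    have i3 := pd_comm (p := p) h2 h (g * q')
    obtain ⟨z, hz, hz1⟩ := exists_near P hg.memA hne
    have i4 : pd p h (g * q') h2 ≤ θ := by
      rcases pd_behr P h h2 (g * q') hne with h1 | h1
      · exact h1
      · exfalso; omega
    have i5 := thick_diam P S hA.1 hz hq
    have h2' := pd_rot (p := p) P.shift h (g * q') ((n : ℤ) * k)
    have h3 := le_abs_mul (n := n) hk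
    have h4 := pd_tri (p := p) h (h * u ^ ((n : ℤ) * k) * h⁻¹ * (g * q')) q (g * q')
    have h5 := pd_comm (p := p) h (h * u ^ ((n : ℤ) * k) * h⁻¹ * (g * q')) q
    have h6 := pd_tri (p := p) h q z (g * q')
    have h7 := pd_tri (p := p) h z h2 (g * q')
    have h8 := pd_comm (p := p) h (g * q') h2
    have h9 := pd_comm (p := p) h z q
    rw [mul_assoc _ g q']
    omega


theorem rot_mem (M : Subgroup Γ) {A : Set Γ} {h : Γ} (hh : h ∈ A) (k : ℤ) :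
    h * u ^ ((n : ℤ) * k) * h⁻¹ ∈ bigM u n M A := by
  rw [← rot_pow]
  exact Subgroup.zpow_mem _ (rot_mem_bigM M A hh) k

theorem NF.mem {M : Subgroup Γ} {A : Set Γ} {h g : Γ} (H : NF u n M A h g) :
    g ∈ bigM u n M A := by
  induction H with
  | last h g k hA hk hm => exact Subgroup.mul_mem _ (rot_mem M hA k) (le_bigM M A hm)
  | cons h h2 g k hA hk hne hg ih => exact Subgroup.mul_mem _ (rot_mem M hA k) ih

/-- an axis outside the new group projects the thickening to a set of diameter `2θ` -/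
theorem small_diam (h : Γ) (hh : h * u ^ n * h⁻¹ ∉ bigM u n M (newA ℓ u p θ n Q M)) {a b : Γ}
    (ha : a ∈ thick ℓ Q) (hb : b ∈ thick ℓ Q) : pd p h a b ≤ 2 * θ := by
  by_contra hc
  apply hh
  by_cases hM : h * u ^ n * h⁻¹ ∈ M
  · exact le_bigM _ _ hM
  · exact rot_mem_bigM M _ ⟨hM, a, ha, b, hb, by omega⟩

theorem conj_notMem {N : Subgroup Γ} {h g : Γ} (hg : g ∈ N) (hh : h * u ^ n * h⁻¹ ∉ N) :
    (g⁻¹ * h) * u ^ n * (g⁻¹ * h)⁻¹ ∉ N := by
  intro hc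
  apply hh
  have := N.mul_mem (N.mul_mem hg hc) (N.inv_mem hg)
  have e : g * (g⁻¹ * h * u ^ n * (g⁻¹ * h)⁻¹) * g⁻¹ = h * u ^ n * h⁻¹ := by group
  rwa [e] at this

/-- an element of `newA` and an axis outside the new group define different cosets -/
theorem ne_of_notMem {h k : Γ} (hk : k ∈ newA ℓ u p θ n Q M)
    (hh : h * u ^ n * h⁻¹ ∉ bigM u n M (newA ℓ u p θ n Q M)) :
    h⁻¹ * k ∉ Subgroup.zpowers u := by
  intro hE
  obtain ⟨j, hj⟩ := Subgroup.mem_zpowers_iff.mp hE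
  apply hh
  have hh2 : h = k * u ^ (-j) := by rw [zpow_neg, hj]; group
  have : h * u ^ n * h⁻¹ = k * u ^ n * k⁻¹ := by
    rw [hh2]
    have : k * u ^ (-j) * u ^ n * (k * u ^ (-j))⁻¹ =
      k * (u ^ (-j) * u ^ n * (u ^ (-j))⁻¹) * k⁻¹ := by group
    rw [this, ← zpow_natCast, ← zpow_neg, ← zpow_add, ← zpow_add]
    congr 3; ring
  rw [this]
  exact rot_mem_bigM M _ hk

theorem P2 (P : ProjSys ℓ u p C θ) (S : State ℓ u p C θ n x Q M)
    (hn : 2 * C + 20 * θ + 1 ≤ n) {h1 g : Γ} (H : NF u n M (newA ℓ u p θ n Q M) h1 g) :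
    ∀ h : Γ, h * u ^ n * h⁻¹ ∉ bigM u n M (newA ℓ u p θ n Q M) → ∀ a : Γ,
      (∃ z ∈ thick ℓ Q, pd p h a z ≤ 2 * θ) → (∃ z ∈ thick ℓ Q, pd p h1 a z ≤ 2 * θ) →
      ∀ q' ∈ thick ℓ Q, pd p h a (g * q') ≤ 6 * θ := by
  -- common part: either done or `a` is `θ`-close to the rotated coset, seen from `h`
  have common : ∀ (h1 g : Γ), NF u n M (newA ℓ u p θ n Q M) h1 g → ∀ h : Γ,
      h * u ^ n * h⁻¹ ∉ bigM u n M (newA ℓ u p θ n Q M) → ∀ a : Γ,
      (∃ z ∈ thick ℓ Q, pd p h a z ≤ 2 * θ) → (∃ z ∈ thick ℓ Q, pd p h1 a z ≤ 2 * θ) →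
      ∀ q' ∈ thick ℓ Q, pd p h a (g * q') ≤ 6 * θ ∨ (θ : ℤ) < pd p h1 a h := by
    intro h1 g H h hh a hal hbe q' hq'
    by_cases hc : (θ : ℤ) < pd p h1 a h
    · exact Or.inr hc
    left
    obtain ⟨z, hz, hz1⟩ := hal
    obtain ⟨y, hy, hy1⟩ := hbe
    have hne := ne_of_notMem H.memA hh
    have i1 := P1 P S hn H y hy q' hq'
    have i2 := pd_tri (p := p) h1 y a (g * q')
    have i3 := pd_comm (p := p) h1 a y
    have i4 := pd_tri (p := p) h1 a h (g * q')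
    have i5 := pd_comm (p := p) h1 h (g * q')
    obtain ⟨z', hz', hz'1⟩ := exists_near P H.memA hne
    have i6 := small_diam h hh hz hz'
    rcases pd_behr P h h1 (g * q') hne with h2 | h2
    · have i7 := pd_tri (p := p) h a z (g * q')
      have i8 := pd_tri (p := p) h z z' (g * q')
      have i9 := pd_tri (p := p) h z' h1 (g * q')
      have i10 := pd_comm (p := p) h h1 (g * q')
      omega
    · exfalso; omega
  induction H with
  | last h1 g k hA hk hm =>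
    intro h hh a hal hbe q' hq'
    rcases common _ _ (NF.last h1 g k hA hk hm) h hh a hal hbe q' hq' with hc | hc
    · exact hc
    have hr := rot_mem M hA k (u := u) (n := n)
    have hh' := conj_notMem hr hh
    have hne := ne_of_notMem hA hh'
    have e : ∀ b : Γ, pd p h a b = pd p ((h1 * u ^ ((n : ℤ) * k) * h1⁻¹)⁻¹ * h)
        ((h1 * u ^ ((n : ℤ) * k) * h1⁻¹)⁻¹ * a) ((h1 * u ^ ((n : ℤ) * k) * h1⁻¹)⁻¹ * b) :=
      fun b => (pd_mul _ _ _ _).symm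
    have e1 : (h1 * u ^ ((n : ℤ) * k) * h1⁻¹)⁻¹ * (h1 * u ^ ((n : ℤ) * k) * h1⁻¹ * g * q') =
      g * q' := by group
    have e2 : (h1 * u ^ ((n : ℤ) * k) * h1⁻¹)⁻¹ * (h1 * u ^ ((n : ℤ) * k)) = h1 := by group
    have hne1 := ne_of_notMem hA hh
    have hne2 : h⁻¹ * (h1 * u ^ ((n : ℤ) * k)) ∉ Subgroup.zpowers u := by
      intro hE
      apply hne1
      have := Subgroup.mul_mem _ hE (Subgroup.inv_mem _ (Subgroup.zpow_mem_zpowers u ((n : ℤ) * k)))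
      have e : h⁻¹ * (h1 * u ^ ((n : ℤ) * k)) * (u ^ ((n : ℤ) * k))⁻¹ = h⁻¹ * h1 := by group
      rwa [e] at this
    have i0 : pd p h a (h1 * u ^ ((n : ℤ) * k)) ≤ θ := by
      rcases pd_behr P h (h1 * u ^ ((n : ℤ) * k)) a hne2 with h2 | h2
      · exact h2
      · rw [pd_shift P.shift] at h2
        omega
    rw [e, e2] at i0
    rw [e, e1]
    obtain ⟨z, hz, hz1⟩ := exists_near P hA hne
    have i1 := small_diam _ hh' hz (thick_mul S hm hq')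
    have i2 := pd_tri (p := p) ((h1 * u ^ ((n : ℤ) * k) * h1⁻¹)⁻¹ * h)
        ((h1 * u ^ ((n : ℤ) * k) * h1⁻¹)⁻¹ * a) h1 (g * q')
    have i3 := pd_tri (p := p) ((h1 * u ^ ((n : ℤ) * k) * h1⁻¹)⁻¹ * h) h1 z (g * q')
    have i4 := pd_comm (p := p) ((h1 * u ^ ((n : ℤ) * k) * h1⁻¹)⁻¹ * h) h1 z
    omega
  | cons h1 h2 g k hA hk hne12 hg ih =>
    intro h hh a hal hbe q' hq'
    rcases common _ _ (NF.cons h1 h2 g k hA hk hne12 hg) h hh a hal hbe q' hq' with hc | hc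
    · exact hc
    have hr := rot_mem M hA k (u := u) (n := n)
    have hh' := conj_notMem hr hh
    have hne := ne_of_notMem hA hh'
    have e : ∀ b : Γ, pd p h a b = pd p ((h1 * u ^ ((n : ℤ) * k) * h1⁻¹)⁻¹ * h)
        ((h1 * u ^ ((n : ℤ) * k) * h1⁻¹)⁻¹ * a) ((h1 * u ^ ((n : ℤ) * k) * h1⁻¹)⁻¹ * b) :=
      fun b => (pd_mul _ _ _ _).symm
    have e1 : (h1 * u ^ ((n : ℤ) * k) * h1⁻¹)⁻¹ * (h1 * u ^ ((n : ℤ) * k) * h1⁻¹ * g * q') =
      g * q' := by group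
    have e2 : (h1 * u ^ ((n : ℤ) * k) * h1⁻¹)⁻¹ * (h1 * u ^ ((n : ℤ) * k)) = h1 := by group
    have hne1 := ne_of_notMem hA hh
    have hne2 : h⁻¹ * (h1 * u ^ ((n : ℤ) * k)) ∉ Subgroup.zpowers u := by
      intro hE
      apply hne1
      have := Subgroup.mul_mem _ hE (Subgroup.inv_mem _ (Subgroup.zpow_mem_zpowers u ((n : ℤ) * k)))
      have e : h⁻¹ * (h1 * u ^ ((n : ℤ) * k)) * (u ^ ((n : ℤ) * k))⁻¹ = h⁻¹ * h1 := by group
      rwa [e] at this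
    have i0 : pd p h a (h1 * u ^ ((n : ℤ) * k)) ≤ θ := by
      rcases pd_behr P h (h1 * u ^ ((n : ℤ) * k)) a hne2 with h2' | h2'
      · exact h2'
      · rw [pd_shift P.shift] at h2'
        omega
    rw [e, e2] at i0
    rw [e, e1]
    apply ih _ hh' _ _ _ q' hq'
    · obtain ⟨z, hz, hz1⟩ := exists_near P hA hne
      refine ⟨z, hz, ?_⟩
      have i2 := pd_tri (p := p) ((h1 * u ^ ((n : ℤ) * k) * h1⁻¹)⁻¹ * h)
        ((h1 * u ^ ((n : ℤ) * k) * h1⁻¹)⁻¹ * a) h1 z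
      have i4 := pd_comm (p := p) ((h1 * u ^ ((n : ℤ) * k) * h1⁻¹)⁻¹ * h) h1 z
      omega
    · obtain ⟨y, hy, hy1⟩ := hbe
      obtain ⟨z, hz, hz1⟩ := exists_near P hg.memA hne12
      have i1 := thick_diam P S hA.1 hy hz
      have i2 := pd_rot (p := p) P.shift h1 ((h1 * u ^ ((n : ℤ) * k) * h1⁻¹)⁻¹ * a) ((n : ℤ) * k)
      rw [mul_inv_cancel_left] at i2
      have i3 := le_abs_mul (n := n) hk
      have i4 := pd_tri (p := p) h1 a y ((h1 * u ^ ((n : ℤ) * k) * h1⁻¹)⁻¹ * a)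
      have i5 := pd_tri (p := p) h1 y z ((h1 * u ^ ((n : ℤ) * k) * h1⁻¹)⁻¹ * a)
      have i6 := pd_tri (p := p) h1 z h2 ((h1 * u ^ ((n : ℤ) * k) * h1⁻¹)⁻¹ * a)
      have i7 := pd_comm (p := p) h1 h2 ((h1 * u ^ ((n : ℤ) * k) * h1⁻¹)⁻¹ * a)
      obtain ⟨z', hz', hz'1⟩ := exists_near P hA (nsymm hne12)
      refine ⟨z', hz', ?_⟩
      have i8 : pd p h2 ((h1 * u ^ ((n : ℤ) * k) * h1⁻¹)⁻¹ * a) h1 ≤ θ := by
        rcases pd_behr P h1 h2 ((h1 * u ^ ((n : ℤ) * k) * h1⁻¹)⁻¹ * a) hne12 with h3 | h3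
        · exfalso; omega
        · exact h3
      have i9 := pd_tri (p := p) h2 ((h1 * u ^ ((n : ℤ) * k) * h1⁻¹)⁻¹ * a) h1 z'
      have i10 := pd_comm (p := p) h2 h1 z'
      omega

theorem subset_thick (h1 : ℓ 1 = 0) : Q ⊆ thick ℓ Q := fun q hq => ⟨q, hq, 1, by omega, by simp⟩

theorem res_of_NF (h1 : ℓ 1 = 0) (P : ProjSys ℓ u p C θ) (S : State ℓ u p C θ n x Q M)
    (hn : 2 * C + 20 * θ + 1 ≤ n) {h g : Γ} (H : NF u n M (newA ℓ u p θ n Q M) h g) :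
    Res u p n (2 * C + 8 * θ) x g := by
  induction H with
  | last h g k hA hk hm =>
    refine Res.step _ h (-k) (P1 P S hn (NF.last h g k hA hk hm) x (subset_thick h1 S.w0) x
      (subset_thick h1 S.w0)) ?_
    have e : h * u ^ ((n : ℤ) * -k) * h⁻¹ * (h * u ^ ((n : ℤ) * k) * h⁻¹ * g) = g := by
      rw [mul_neg, zpow_neg]; group
    rw [e]
    exact S.w3 _ hm
  | cons h h2 g k hA hk hne hg ih =>
    refine Res.step _ h (-k) (P1 P S hn (NF.cons h h2 g k hA hk hne hg) x (subset_thick h1 S.w0) x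
      (subset_thick h1 S.w0)) ?_
    have e : h * u ^ ((n : ℤ) * -k) * h⁻¹ * (h * u ^ ((n : ℤ) * k) * h⁻¹ * g) = g := by
      rw [mul_neg, zpow_neg]; group
    rw [e]
    exact ih

/-- the next state -/
theorem next (h1 : ℓ 1 = 0) (P : ProjSys ℓ u p C θ) (hn : 2 * C + 20 * θ + 1 ≤ n)
    (S : State ℓ u p C θ n x Q M) :
    State ℓ u p C θ n x {y | ∃ g ∈ bigM u n M (newA ℓ u p θ n Q M), ∃ q ∈ thick ℓ Q, y = g * q}
      (bigM u n M (newA ℓ u p θ n Q M)) where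
  w0 := ⟨1, Subgroup.one_mem _, x, subset_thick h1 S.w0, by simp⟩
  w1 := by
    rintro m hm _ ⟨g, hg, q, hq, rfl⟩
    exact ⟨m * g, Subgroup.mul_mem _ hm hg, q, hq, (mul_assoc _ _ _).symm⟩
  w2 := by
    rintro h hh _ ⟨g, hg, q, hq, rfl⟩ _ ⟨g', hg', q', hq', rfl⟩
    have hh' := conj_notMem hg hh
    have e : pd p h (g * q) (g' * q') = pd p (g⁻¹ * h) q ((g⁻¹ * g') * q') := by
      rw [← pd_mul g⁻¹]
      congr 1
      · group
      · group
    rw [e]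
    rcases NFS_of_mem (newA_mul S) (Subgroup.mul_mem _ (Subgroup.inv_mem _ hg) hg') with hm | ⟨k, H⟩
    · have := small_diam _ hh' hq (thick_mul S hm hq')
      omega
    · exact P2 P S hn H _ hh' q ⟨q, hq, by rw [pd_self]; omega⟩ ⟨q, hq, by rw [pd_self]; omega⟩
        q' hq'
  w3 := by
    intro g hg
    rcases NFS_of_mem (newA_mul S) hg with hm | ⟨k, H⟩
    · exact S.w3 _ hm
    · exact res_of_NF h1 P S hn H

end step

theorem start (x : Γ) : State ℓ u p C θ n x {x} ⊥ where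
  w0 := rfl
  w1 := by
    intro m hm q hq
    rw [Subgroup.mem_bot] at hm
    simp at hq
    simp [hm, hq]
  w2 := by
    intro h _ a ha b hb
    simp at ha hb
    rw [ha, hb, pd_self]
    omega
  w3 := by
    intro g hg
    rw [Subgroup.mem_bot] at hg
    rw [hg]
    exact Res.one

/-- the sequence of states -/
def seq (ℓ : Γ → ℕ) (u : Γ) (p : Γ → ℤ) (θ n : ℕ) (x : Γ) : ℕ → Set Γ × Subgroup Γ
  | 0 => ({x}, ⊥)
  | i + 1 =>
    ({y | ∃ g ∈ bigM u n (seq ℓ u p θ n x i).2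
        (newA ℓ u p θ n (seq ℓ u p θ n x i).1 (seq ℓ u p θ n x i).2),
        ∃ q ∈ thick ℓ (seq ℓ u p θ n x i).1, y = g * q},
      bigM u n (seq ℓ u p θ n x i).2
        (newA ℓ u p θ n (seq ℓ u p θ n x i).1 (seq ℓ u p θ n x i).2))

theorem seq_state (h1 : ℓ 1 = 0) (P : ProjSys ℓ u p C θ) (hn : 2 * C + 20 * θ + 1 ≤ n) (x : Γ)
    (i : ℕ) : State ℓ u p C θ n x (seq ℓ u p θ n x i).1 (seq ℓ u p θ n x i).2 := by
  induction i with
  | zero => exact start x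
  | succ i ih => exact next h1 P hn ih

theorem seq_mono (x : Γ) : Monotone fun i => (seq ℓ u p θ n x i).2 :=
  monotone_nat_of_le_succ fun _ => le_bigM _ _

theorem seq_ball (H : HypLen ℓ δ) (x : Γ) : ∀ (i : ℕ) (s : Γ), ℓ s ≤ i →
    x * s ∈ (seq ℓ u p θ n x i).1 := by
  intro i
  induction i with
  | zero =>
    intro s hs
    have := H.eq_one s (by omega)
    subst this
    simp [seq]
  | succ i ih =>
    intro s hs
    have key : ∀ y z : Γ, ℓ y ≤ i → ℓ z ≤ 1 → x * (y * z) ∈ (seq ℓ u p θ n x (i + 1)).1 := by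
      intro y z hy hz
      exact ⟨1, Subgroup.one_mem _, x * (y * z), ⟨x * y, ih y hy, z, hz, (mul_assoc _ _ _).symm⟩,
        by simp⟩
    by_cases hs' : ℓ s ≤ i
    · have := key s 1 hs' (by rw [H.one]; omega)
      simpa using this
    · obtain ⟨y, z, rfl, hy, hz⟩ := H.split s i (by omega)
      exact key y z (by omega) (by omega)

end Windmill

open Windmill in
/-- T6: spinning (windmill) lemma. -/
theorem windmill {Γ : Type} [Group Γ] {ℓ : Γ → ℕ} {δ : ℕ} (H : HypLen ℓ δ) (u : Γ) (p : Γ → ℤ)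
    (C θ : ℕ) (P : ProjSys ℓ u p C θ)
    (n : ℕ) (hn : 2 * C + 20 * θ + 1 ≤ n) (x g : Γ) (hg : g ∈ NC u n) :
    Res u p n (2 * C + 8 * θ) x g := by
  have hle : NC u n ≤ ⨆ i, (seq ℓ u p θ n x i).2 := by
    unfold NC Subgroup.normalClosure
    rw [Subgroup.closure_le]
    intro r hr
    obtain ⟨a, ha, hr⟩ := Group.mem_conjugatesOfSet_iff.mp hr
    rw [Set.mem_singleton_iff] at ha
    subst ha
    obtain ⟨h, rfl⟩ := isConj_iff.mp hr
    show h * u ^ n * h⁻¹ ∈ ⨆ i, (seq ℓ u p θ n x i).2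
    set i := max (ℓ (x⁻¹ * h)) (ℓ (x⁻¹ * (h * u ^ ((6 * θ + 1 : ℕ) : ℤ)))) with hi
    have ha : h ∈ (seq ℓ u p θ n x i).1 := by
      have := seq_ball (u := u) (p := p) (θ := θ) (n := n) H x i (x⁻¹ * h) (le_max_left _ _)
      rwa [mul_inv_cancel_left] at this
    have hb : h * u ^ ((6 * θ + 1 : ℕ) : ℤ) ∈ (seq ℓ u p θ n x i).1 := by
      have := seq_ball (u := u) (p := p) (θ := θ) (n := n) H x i
        (x⁻¹ * (h * u ^ ((6 * θ + 1 : ℕ) : ℤ))) (le_max_right _ _)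
      rwa [mul_inv_cancel_left] at this
    have hmem : h * u ^ n * h⁻¹ ∈ (seq ℓ u p θ n x i).2 := by
      by_contra hc
      have h2 := (seq_state H.one P hn x i).w2 h hc _ ha _ hb
      rw [pd_axis P.shift] at h2
      have h3 : |((6 * θ + 1 : ℕ) : ℤ)| = 6 * θ + 1 := by
        rw [abs_of_nonneg (by positivity)]; push_cast; ring
      omega
    exact (le_iSup (fun i => (seq ℓ u p θ n x i).2) i) hmem
  have hg' := hle hg
  rw [Subgroup.mem_iSup_of_directed (seq_mono x).directed_le] at hg'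
  obtain ⟨i, hi⟩ := hg'
  exact (seq_state H.one P hn x i).w3 g hi

end Pool.Agent.Lib.MP_06935a_al
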