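import Pool.Agent.Lib.MP_06935a_al.Lift2Core
import Pool.Agent.Lib.MP_06935a_al.Windmill
import Pool.Agent.Lib.MP_06935a_al.Short
import Pool.Agent.Lib.MP_06935a_al.Lox

set_option autoImplicit false

namespace Pool.Agent.Lib.MP_06935a_al

variable {Γ : Type} [Group Γ] {ℓ : Γ → ℕ} {δ : ℕ}

section lift

variable (H : HypLen ℓ δ) (u : Γ) (K₀ : ℕ) (Q : QGeo ℓ u K₀) (mal : Mal u) (p : Γ → ℤ) (K : ℕ)
    (M : MetProj ℓ u p K) (C θ : ℕ) (P : ProjSys ℓ u p C θ)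

include H Q mal M P

/-- T9d: torsion lifts. -/
theorem lift_torsion : ∃ n₀ : ℕ, ∀ n ≥ n₀, ∀ (x : Γ) (m : ℕ), 1 ≤ m → x ^ m ∈ NC u n →
    (∀ g ∈ NC u n, ∀ b : Γ, ℓ x ≤ ℓ (b⁻¹ * (g * x) * b)) →
    x ^ m = 1 ∨ ∃ b : Γ, b⁻¹ * x * b ∈ Subgroup.zpowers u :=
  lift_torsion_of H u K₀ Q p K M C θ P
    (fun n hn x g hg => windmill H u p C θ P n hn x g hg)
    (shorten_half H u K₀ Q p K M)
    (fun c R => shorten_full H u K₀ Q p K M c R)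
    (fun x hx => conjmin_sq H x hx)

end lift

end Pool.Agent.Lib.MP_06935a_al
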