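import Pool.Agent.Lib.MP_06935a_al.Basic

set_option autoImplicit false

namespace Pool.Agent.Lib.MP_06935a_al

variable {Γ : Type} [Group Γ] {ℓ : Γ → ℕ} {δ : ℕ}

theorem rot_mem_NC (u h : Γ) (n : ℕ) (k : ℤ) : h * u ^ ((n : ℤ) * k) * h⁻¹ ∈ NC u n := by
  have h1 : u ^ n ∈ NC u n := Subgroup.subset_normalClosure rfl
  have h2 : u ^ ((n : ℤ) * k) ∈ NC u n := by
    rw [zpow_mul, zpow_natCast]
    exact Subgroup.zpow_mem _ h1 k
  exact Subgroup.Normal.conj_mem inferInstance _ h2 h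

theorem Res.exists_large {u : Γ} {p : Γ → ℤ} {n : ℕ} {c : ℤ} {x g : Γ} (h : Res u p n c x g)
    (hg : g ≠ 1) : ∃ k : Γ, (n : ℤ) - c ≤ |p (k⁻¹ * x) - p (k⁻¹ * (g * x))| := by
  cases h with
  | one => exact absurd rfl hg
  | step _ h k h1 h2 => exact ⟨h, h1⟩

theorem MetProj.shift_zpow {u : Γ} {p : Γ → ℤ} {K : ℕ} (M : MetProj ℓ u p K) (x : Γ) (i : ℤ) :
    p (u ^ i * x) = p x + i := by
  induction i using Int.induction_on with
  | zero => simp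
  | succ i ih =>
    have : u ^ ((i : ℤ) + 1) * x = u * (u ^ (i : ℤ) * x) := by
      rw [add_comm, zpow_one_add, mul_assoc]
    rw [this, M.shift, ih]
    ring
  | pred i ih =>
    have : u ^ (-(i : ℤ)) * x = u * (u ^ (-(i : ℤ) - 1) * x) := by
      rw [← mul_assoc, ← zpow_one_add]
      congr 2
      ring
    rw [this, M.shift] at ih
    linarith

theorem MetProj.p_one {u : Γ} {p : Γ → ℤ} {K K₀ : ℕ} (H : HypLen ℓ δ) (Q : QGeo ℓ u K₀)
    (M : MetProj ℓ u p K) : p 1 = 0 := by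
  by_contra hne
  have h0 : dst ℓ 1 (u ^ p 1) = 0 := by
    have := M.near 1 0
    rw [zpow_zero, H.dst_self] at this
    omega
  have h1 : u ^ p 1 = 1 := (H.dst_eq h0).symm
  obtain ⟨I, hI⟩ := Q.unb_int H (1)
  have h2 := hI ((p 1) * I) ?_
  · rw [zpow_mul, h1, one_zpow, H.one] at h2
    omega
  · rw [abs_mul]
    have : 1 ≤ |p 1| := Int.one_le_abs hne
    have h3 : (0 : ℤ) ≤ |(I : ℤ)| := abs_nonneg _
    have h4 : |(I : ℤ)| = I := by simp
    nlinarith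

theorem MetProj.p_zpow {u : Γ} {p : Γ → ℤ} {K K₀ : ℕ} (H : HypLen ℓ δ) (Q : QGeo ℓ u K₀)
    (M : MetProj ℓ u p K) (i : ℤ) : p (u ^ i) = i := by
  have := M.shift_zpow 1 i
  rw [mul_one, M.p_one H Q] at this
  simpa using this


/-- T9d with the black boxes (windmill, shorten_half, shorten_full, conjmin_sq) as hypotheses -/
theorem lift_torsion_of (H : HypLen ℓ δ) (u : Γ) (K₀ : ℕ) (Q : QGeo ℓ u K₀)
    (p : Γ → ℤ) (K : ℕ) (M : MetProj ℓ u p K) (C θ : ℕ) (P : ProjSys ℓ u p C θ)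
    (wm : ∀ n : ℕ, 2 * C + 20 * θ + 1 ≤ n → ∀ x g : Γ, g ∈ NC u n → Res u p n (2 * C + 8 * θ) x g)
    (sh : ∃ C' : ℕ, ∀ n : ℕ, C' ≤ n → ∀ a b h : Γ,
      (n : ℤ) + C' ≤ 2 * |p (h⁻¹ * a) - p (h⁻¹ * b)| →
      ∃ k : ℤ, dst ℓ a (h * u ^ ((n : ℤ) * k) * h⁻¹ * b) < dst ℓ a b)
    (sf : ∀ c R : ℕ, ∃ n₀ : ℕ, ∀ n ≥ n₀, ∀ a b h : Γ,
      (n : ℤ) - c ≤ |p (h⁻¹ * a) - p (h⁻¹ * b)| →
      ∃ k : ℤ, dst ℓ a (h * u ^ ((n : ℤ) * k) * h⁻¹ * b) + R ≤ dst ℓ a b)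
    (cs : ∀ x : Γ, (∀ b : Γ, ℓ x ≤ ℓ (b⁻¹ * x * b)) →
      2 * ℓ x ≤ ℓ (x ^ 2) + 4 * δ ∨ ℓ x ≤ 4 * δ + 1) :
    ∃ n₀ : ℕ, ∀ n ≥ n₀, ∀ (x : Γ) (m : ℕ), 1 ≤ m → x ^ m ∈ NC u n →
    (∀ g ∈ NC u n, ∀ b : Γ, ℓ x ≤ ℓ (b⁻¹ * (g * x) * b)) →
    x ^ m = 1 ∨ ∃ b : Γ, b⁻¹ * x * b ∈ Subgroup.zpowers u := by
  obtain ⟨C', hC'⟩ := sh
  obtain ⟨n₁, hn₁⟩ := sf (2 * C + 8 * θ + 6 * θ) (K + 1)
  -- a bound for short powers
  obtain ⟨B, hB⟩ : ∃ B : ℕ, ∀ i : ℤ, |i| ≤ 6 * θ → ℓ (u ^ i) ≤ B := by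
    refine ⟨6 * θ * ℓ u, fun i hi => ?_⟩
    rw [H.zpow_natAbs]
    have hmul : ∀ j : ℕ, ℓ (u ^ j) ≤ j * ℓ u := by
      intro j
      induction j with
      | zero => simp [H.one]
      | succ j ih =>
        rw [pow_succ, Nat.succ_mul]
        exact (H.mul _ _).trans (by omega)
    have h1 : i.natAbs ≤ 6 * θ := by
      have := Int.natCast_natAbs i
      omega
    exact (hmul _).trans (Nat.mul_le_mul_right _ h1)
  obtain ⟨I, hI⟩ := Q.unb_int H (2 * δ + B + K + 4 * δ + 2)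
  refine ⟨2 * (C' + 2 * C + 20 * θ + 1 + n₁ + I + K + 100 * θ + 10 * C + 10), ?_⟩
  intro n hn x m hm hxm hmin
  by_cases hone : x ^ m = 1
  · exact Or.inl hone
  right
  obtain ⟨k, hk⟩ := (wm n (by omega) 1 (x ^ m) hxm).exists_large hone
  rw [mul_one, mul_one] at hk
  by_contra hno
  have hE : k⁻¹ * x * k ∉ Subgroup.zpowers u := fun h => hno ⟨k, h⟩
  -- the function `f`
  set f : ℤ → ℤ := fun j => p (k⁻¹ * x ^ j) with hf
  have f0 : f 0 = p k⁻¹ := by simp [hf]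
  have fm : f m = p (k⁻¹ * x ^ m) := by simp [hf]
  rw [← f0, ← fm] at hk
  -- minimality
  have hminD : ∀ (h : Γ) (j : ℤ) (a : Γ), ℓ x ≤ dst ℓ a (h * u ^ ((n : ℤ) * j) * h⁻¹ * (x * a)) := by
    intro h j a
    have := hmin _ (rot_mem_NC u h n j) a
    unfold dst
    convert this using 2
    group
  -- steps
  have step : ∀ j : ℤ, 2 * |f (j + 1) - f j| < (n : ℤ) + C' := by
    intro j
    by_contra hcon
    push Not at hcon
    obtain ⟨k', hk'⟩ := hC' n (by omega) 1 x (x ^ (-j) * k) (by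
      have e1 : (x ^ (-j) * k)⁻¹ * 1 = k⁻¹ * x ^ j := by group
      have e2 : (x ^ (-j) * k)⁻¹ * x = k⁻¹ * x ^ (j + 1) := by
        rw [zpow_add_one]; group
      rw [e1, e2, abs_sub_comm]
      exact hcon)
    have := hminD (x ^ (-j) * k) k' 1
    rw [mul_one] at this
    rw [dst_one_left ℓ x] at hk'
    omega
  -- Behrstock
  set g := k⁻¹ * x * k with hg
  have hb : ∀ j : ℤ, |f j - p g| ≤ θ ∨ |f (j - 1) - p g⁻¹| ≤ θ := by
    intro j
    have := P.behr g hE (k⁻¹ * x ^ j)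
    have e : g⁻¹ * (k⁻¹ * x ^ j) = k⁻¹ * x ^ (j - 1) := by
      rw [hg, zpow_sub_one]
      group
    rw [e] at this
    exact this
  have hk' := hk
  -- geometric inequality `two` along the orbit
  have two : ∀ i j : ℤ, (K : ℤ) ≤ |f i - f j| →
      dst ℓ (k⁻¹ * x ^ i) (u ^ f i) + ℓ (u ^ (f i - f j)) + dst ℓ (u ^ f j) (k⁻¹ * x ^ j)
        ≤ ℓ (x ^ (j - i)) + K := by
    intro i j hij
    have := M.two (k⁻¹ * x ^ i) (k⁻¹ * x ^ j) hij
    have e : dst ℓ (k⁻¹ * x ^ i) (k⁻¹ * x ^ j) = ℓ (x ^ (j - i)) := by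
      rw [dst_mul_left, dst, ← zpow_neg, ← zpow_add]
      congr 2
      ring
    rw [e] at this
    exact this
  have hlx : ∀ i : ℤ, ℓ (x ^ (i + 1 - i)) = ℓ x := by
    intro i
    rw [add_sub_cancel_left, zpow_one]
  have hlx' : ∀ i : ℤ, ℓ (x ^ (i - 1 - i)) = ℓ x := by
    intro i
    rw [sub_sub_cancel_left, zpow_neg, zpow_one, H.inv]
  by_cases hPP : |p g - p g⁻¹| ≤ 2 * θ
  · -- Case I
    have hb' : ∀ j : ℤ, |f j - p g| ≤ 3 * θ ∨ |f (j - 1) - p g| ≤ 3 * θ := by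
      intro j
      rcases hb j with h | h
      · left; linarith [abs_nonneg (f j - p g)]
      · right
        rw [abs_le] at *
        constructor <;> linarith [h.1, h.2, hPP.1, hPP.2]
    obtain ⟨j₀, hj₀⟩ : ∃ j₀ : ℤ, (n : ℤ) - (2 * C + 8 * θ) ≤ 2 * |f j₀ - p g| := by
      by_contra hcon
      push Not at hcon
      have h1 := hcon 0
      have h2 := hcon m
      have h3 : |f 0 - f m| ≤ |f 0 - p g| + |f m - p g| := by
        rw [abs_sub_comm (f m) (p g)]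
        exact abs_sub_le _ _ _
      linarith
    have hlarge : 3 * (θ : ℤ) < |f j₀ - p g| := by
      omega
    have hm1 : |f (j₀ - 1) - p g| ≤ 3 * θ := by
      rcases hb' j₀ with h | h
      · omega
      · exact h
    have hp1 : |f (j₀ + 1) - p g| ≤ 3 * θ := by
      rcases hb' (j₀ + 1) with h | h
      · exact h
      · rw [add_sub_cancel_right] at h
        omega
    have d1 : ((I + K : ℕ) : ℤ) ≤ |f j₀ - f (j₀ - 1)| := by
      have e : |f j₀ - p g| ≤ |f j₀ - f (j₀ - 1)| + |f (j₀ - 1) - p g| := abs_sub_le _ _ _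
      push_cast
      omega
    have d2 : ((I + K : ℕ) : ℤ) ≤ |f j₀ - f (j₀ + 1)| := by
      have e : |f j₀ - p g| ≤ |f j₀ - f (j₀ + 1)| + |f (j₀ + 1) - p g| := abs_sub_le _ _ _
      push_cast
      omega
    have d3 : |f (j₀ - 1) - f (j₀ + 1)| ≤ 6 * θ := by
      have e : |f (j₀ - 1) - f (j₀ + 1)| ≤ |f (j₀ - 1) - p g| + |p g - f (j₀ + 1)| :=
        abs_sub_le _ _ _
      rw [abs_sub_comm (p g)] at e
      omega
    have t1 := two j₀ (j₀ - 1) (by push_cast at d1; omega)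
    have t2 := two j₀ (j₀ + 1) (by push_cast at d2; omega)
    rw [hlx'] at t1
    rw [hlx] at t2
    have i1 := hI (f j₀ - f (j₀ - 1)) (by push_cast at d1; omega)
    have i2 := hI (f j₀ - f (j₀ + 1)) (by push_cast at d2; omega)
    have i3 := hB _ d3
    -- upper bound for `x ^ 2`
    have hx2 : ℓ (x ^ 2) ≤ dst ℓ (u ^ f (j₀ - 1)) (k⁻¹ * x ^ (j₀ - 1)) +
        ℓ (u ^ (f (j₀ - 1) - f (j₀ + 1))) + dst ℓ (u ^ f (j₀ + 1)) (k⁻¹ * x ^ (j₀ + 1)) := by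
      have e : dst ℓ (k⁻¹ * x ^ (j₀ - 1)) (k⁻¹ * x ^ (j₀ + 1)) = ℓ (x ^ 2) := by
        rw [dst_mul_left, dst, ← zpow_neg, ← zpow_add, ← zpow_natCast]
        congr 2
        push_cast
        ring
      rw [← e, ← H.dst_zpow, H.dst_comm (u ^ f (j₀ - 1))]
      have a1 := H.dst_tri (k⁻¹ * x ^ (j₀ - 1)) (u ^ f (j₀ - 1)) (k⁻¹ * x ^ (j₀ + 1))
      have a2 := H.dst_tri (u ^ f (j₀ - 1)) (u ^ f (j₀ + 1)) (k⁻¹ * x ^ (j₀ + 1))
      omega
    have hcs := cs x (fun b => by simpa using hmin 1 (Subgroup.one_mem _) b)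
    omega
  · -- Case II
    push Not at hPP
    have up : ∀ (j : ℤ), ¬ |f j - p g⁻¹| ≤ θ → ∀ i : ℕ, |f (j + 1 + i) - p g| ≤ θ := by
      intro j hj i
      induction i with
      | zero =>
        rcases hb (j + 1) with h | h
        · simpa using h
        · rw [add_sub_cancel_right] at h
          exact absurd h hj
      | succ i ih =>
        rcases hb (j + 1 + (i + 1 : ℕ)) with h | h
        · exact h
        · exfalso
          have e : j + 1 + ((i + 1 : ℕ) : ℤ) - 1 = j + 1 + i := by push_cast; ring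
          rw [e] at h
          have e2 : |p g - p g⁻¹| ≤ |p g - f (j + 1 + i)| + |f (j + 1 + i) - p g⁻¹| :=
            abs_sub_le _ _ _
          rw [abs_sub_comm (p g) (f _)] at e2
          omega
    have down : ∀ (j : ℤ), ¬ |f j - p g| ≤ θ → ∀ i : ℕ, |f (j - 1 - i) - p g⁻¹| ≤ θ := by
      intro j hj i
      induction i with
      | zero =>
        rcases hb j with h | h
        · exact absurd h hj
        · simpa using h
      | succ i ih =>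
        rcases hb (j - 1 - i) with h | h
        · exfalso
          have e2 : |p g - p g⁻¹| ≤ |p g - f (j - 1 - i)| + |f (j - 1 - i) - p g⁻¹| :=
            abs_sub_le _ _ _
          rw [abs_sub_comm (p g) (f _)] at e2
          omega
        · have e : j - 1 - ((i + 1 : ℕ) : ℤ) = j - 1 - i - 1 := by push_cast; ring
          rw [e]
          exact h
    obtain ⟨m', rfl⟩ : ∃ m' : ℕ, m = m' + 1 := ⟨m - 1, by omega⟩
    have F0 : |f 0 - p g⁻¹| ≤ θ := by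
      by_contra hcon
      have h1 := up 0 hcon 0
      have h2 := up 0 hcon m'
      have h3 := step 0
      have e1 : (0 : ℤ) + 1 + (0 : ℕ) = 0 + 1 := by simp
      have e2 : (0 : ℤ) + 1 + (m' : ℕ) = ((m' + 1 : ℕ) : ℤ) := by push_cast; ring
      rw [e1] at h1
      rw [e2] at h2
      have h4 : |f 0 - f ((m' + 1 : ℕ) : ℤ)| ≤ |f 0 - f (0 + 1)| + |f (0 + 1) - f ((m' + 1 : ℕ) : ℤ)| :=
        abs_sub_le _ _ _
      have h5 : |f (0 + 1) - f ((m' + 1 : ℕ) : ℤ)| ≤ |f (0 + 1) - p g| + |p g - f ((m' + 1 : ℕ) : ℤ)| :=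
        abs_sub_le _ _ _
      have h6 := abs_sub_comm (p g) (f ((m' + 1 : ℕ) : ℤ))
      have h7 := abs_sub_comm (f (0 + 1)) (f 0)
      omega
    have Fm : |f ((m' + 1 : ℕ) : ℤ) - p g| ≤ θ := by
      by_contra hcon
      have h1 := down _ hcon 0
      have h2 := down _ hcon m'
      have h3 := step m'
      have e1 : ((m' + 1 : ℕ) : ℤ) - 1 - (0 : ℕ) = m' := by push_cast; ring
      have e2 : ((m' + 1 : ℕ) : ℤ) - 1 - (m' : ℕ) = 0 := by push_cast; ring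
      have e3 : ((m' + 1 : ℕ) : ℤ) = (m' : ℤ) + 1 := by push_cast; ring
      rw [e1] at h1
      rw [e2] at h2
      rw [← e3] at h3
      have h4 : |f 0 - f ((m' + 1 : ℕ) : ℤ)| ≤ |f 0 - f m'| + |f m' - f ((m' + 1 : ℕ) : ℤ)| :=
        abs_sub_le _ _ _
      have h5 : |f 0 - f m'| ≤ |f 0 - p g⁻¹| + |p g⁻¹ - f m'| :=
        abs_sub_le _ _ _
      have h6 := abs_sub_comm (p g⁻¹) (f m')
      have h7 := abs_sub_comm (f m') (f ((m' + 1 : ℕ) : ℤ))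
      omega
    have hPP2 : (n : ℤ) - (2 * C + 8 * θ) - 2 * θ ≤ |p g - p g⁻¹| := by
      have h1 : |f 0 - f ((m' + 1 : ℕ) : ℤ)| ≤ |f 0 - p g⁻¹| + |p g⁻¹ - f ((m' + 1 : ℕ) : ℤ)| :=
        abs_sub_le _ _ _
      have h2 : |p g⁻¹ - f ((m' + 1 : ℕ) : ℤ)| ≤ |p g⁻¹ - p g| + |p g - f ((m' + 1 : ℕ) : ℤ)| :=
        abs_sub_le _ _ _
      have h3 := abs_sub_comm (p g⁻¹) (p g)
      have h4 := abs_sub_comm (p g) (f ((m' + 1 : ℕ) : ℤ))
      omega
    -- the switching index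
    have hex : ∃ j : ℕ, ¬ |f ((j + 1 : ℕ) : ℤ) - p g⁻¹| ≤ θ := by
      refine ⟨m', fun hcon => ?_⟩
      have h1 : |p g - p g⁻¹| ≤ |p g - f ((m' + 1 : ℕ) : ℤ)| + |f ((m' + 1 : ℕ) : ℤ) - p g⁻¹| :=
        abs_sub_le _ _ _
      have h4 := abs_sub_comm (p g) (f ((m' + 1 : ℕ) : ℤ))
      omega
    classical
    obtain ⟨j₀, hj₀, hj₁⟩ : ∃ j : ℤ, |f (j - 1) - p g⁻¹| ≤ θ ∧ |f (j + 1) - p g| ≤ θ := by
      set t := Nat.find hex with ht
      have h1 := Nat.find_spec hex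
      rw [← ht] at h1
      refine ⟨((t + 1 : ℕ) : ℤ), ?_, ?_⟩
      · have e : ((t + 1 : ℕ) : ℤ) - 1 = t := by push_cast; ring
        rw [e]
        rcases Nat.eq_zero_or_pos t with h0 | h0
        · rw [h0]; simpa using F0
        · have h2 := Nat.find_min hex (m := t - 1) (by omega)
          have e' : t - 1 + 1 = t := by omega
          rw [e'] at h2
          exact not_not.mp h2
      · have := up _ h1 0
        simpa using this
    have D1 : (n : ℤ) - (2 * C + 8 * θ) - 4 * θ ≤ |f (j₀ - 1) - f (j₀ + 1)| := by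
      have h1 : |p g - p g⁻¹| ≤ |p g - f (j₀ + 1)| + |f (j₀ + 1) - p g⁻¹| := abs_sub_le _ _ _
      have h2 : |f (j₀ + 1) - p g⁻¹| ≤ |f (j₀ + 1) - f (j₀ - 1)| + |f (j₀ - 1) - p g⁻¹| :=
        abs_sub_le _ _ _
      have h3 := abs_sub_comm (p g) (f (j₀ + 1))
      have h4 := abs_sub_comm (f (j₀ + 1)) (f (j₀ - 1))
      omega
    have D2 : (K : ℤ) ≤ |f (j₀ - 1) - f j₀| := by
      have h1 : |f (j₀ - 1) - f (j₀ + 1)| ≤ |f (j₀ - 1) - f j₀| + |f j₀ - f (j₀ + 1)| :=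
        abs_sub_le _ _ _
      have h2 := step j₀
      have h3 := abs_sub_comm (f j₀) (f (j₀ + 1))
      omega
    have t1 := two (j₀ - 1) j₀ D2
    have hl1 : ℓ (x ^ (j₀ - (j₀ - 1))) = ℓ x := by
      rw [sub_sub_cancel, zpow_one]
    rw [hl1] at t1
    -- the coset `v E` and the nearest point `b`
    set v : Γ := x ^ (-j₀) * k with hv
    set b : Γ := v * u ^ f (j₀ - 1) with hbdef
    have hb1 : dst ℓ x⁻¹ b = dst ℓ (k⁻¹ * x ^ (j₀ - 1)) (u ^ f (j₀ - 1)) := by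
      rw [← dst_mul_left ℓ v⁻¹ x⁻¹ b, hbdef, inv_mul_cancel_left]
      congr 1
      rw [hv, zpow_sub_one]
      group
    have hb2 : dst ℓ b 1 ≤ ℓ (u ^ (f (j₀ - 1) - f j₀)) + dst ℓ (u ^ f j₀) (k⁻¹ * x ^ j₀) := by
      rw [← dst_mul_left ℓ v⁻¹ b 1, hbdef, inv_mul_cancel_left]
      have e : v⁻¹ * 1 = k⁻¹ * x ^ j₀ := by rw [hv]; group
      rw [e, ← H.dst_zpow]
      exact H.dst_tri _ _ _
    have hb3 : dst ℓ b (x * b) ≤ ℓ x + K := by
      have h1 := H.dst_tri b 1 (x * b)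
      have h2 : dst ℓ 1 (x * b) = dst ℓ x⁻¹ b := by
        rw [← dst_mul_left ℓ x x⁻¹ b, mul_inv_cancel]
      omega
    have hg' : v⁻¹ * x * v = g := by
      rw [hv, hg]
      group
    have hb4 : |p (v⁻¹ * (x * b)) - p g| ≤ θ := by
      have e : v⁻¹ * (x * b) = g * u ^ f (j₀ - 1) := by
        rw [← hg', hbdef]
        group
      rw [e]
      exact P.bdd g hE _
    have hb5 : p (v⁻¹ * b) = f (j₀ - 1) := by
      rw [hbdef, inv_mul_cancel_left]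
      exact M.p_zpow H Q _
    have D3 : (n : ℤ) - ((2 * C + 8 * θ + 6 * θ : ℕ) : ℤ) ≤ |p (v⁻¹ * b) - p (v⁻¹ * (x * b))| := by
      rw [hb5]
      have h1 : |f (j₀ - 1) - f (j₀ + 1)| ≤
          |f (j₀ - 1) - p (v⁻¹ * (x * b))| + |p (v⁻¹ * (x * b)) - f (j₀ + 1)| := abs_sub_le _ _ _
      have h2 : |p (v⁻¹ * (x * b)) - f (j₀ + 1)| ≤ |p (v⁻¹ * (x * b)) - p g| + |p g - f (j₀ + 1)| :=
        abs_sub_le _ _ _
      have h3 := abs_sub_comm (p g) (f (j₀ + 1))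
      push_cast
      omega
    obtain ⟨k', hk''⟩ := hn₁ n (by omega) b (x * b) v D3
    have := hminD v k' b
    omega


end Pool.Agent.Lib.MP_06935a_al
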