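import Pool.Agent.Lib.MP_06935a_al.Basic

set_option autoImplicit false

namespace Pool.Agent.Lib.MP_06935a_al

variable {Γ : Type} [Group Γ] {ℓ : Γ → ℕ} {δ : ℕ}

/-! ### T3: projection axioms -/

/-- (QC): a point almost between two points of the axis is close to the axis. -/
theorem psys_qc (H : HypLen ℓ δ) {u : Γ} {p : Γ → ℤ} {K : ℕ} (M : MetProj ℓ u p K)
    (q : Γ) (i j : ℤ) (c : ℕ)
    (h : dst ℓ q (u ^ i) + dst ℓ q (u ^ j) ≤ ℓ (u ^ (i - j)) + c) :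
    dst ℓ q (u ^ p q) ≤ c + 2 * K := by
  have h1 := M.gp q i
  have h2 := M.gp q j
  have h3 := H.dst_tri (u ^ i) (u ^ p q) (u ^ j)
  rw [H.dst_comm (u ^ i) (u ^ p q), H.dst_zpow, H.dst_zpow, H.dst_zpow] at h3
  omega

theorem psys_lip (H : HypLen ℓ δ) {u : Γ} {K₀ : ℕ} (Q : QGeo ℓ u K₀)
    {p : Γ → ℤ} {K : ℕ} (M : MetProj ℓ u p K) :
    ∃ C : ℕ, ∀ x s, ℓ s ≤ 1 → |p (x * s) - p x| ≤ C := by
  obtain ⟨I, hI⟩ := Q.unb_int H (K + 2)
  refine ⟨K + I, fun x s hs => ?_⟩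
  by_contra hcon
  push Not at hcon
  have h1 := M.two (x * s) x (by push_cast at hcon; omega)
  have h2 := hI (p (x * s) - p x) (by push_cast at hcon; omega)
  have h3 : dst ℓ (x * s) x = ℓ s := by rw [H.dst_comm, dst_mul_right]
  omega

theorem psys_bdd (H : HypLen ℓ δ) (hp : ProperLen ℓ) {u : Γ} {K₀ : ℕ} (Q : QGeo ℓ u K₀)
    (mal : Mal u) {p : Γ → ℤ} {K : ℕ} (M : MetProj ℓ u p K) :
    ∃ θ : ℕ, ∀ g, g ∉ Subgroup.zpowers u → ∀ i : ℤ, |p (g * u ^ i) - p g| ≤ θ := by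
  classical
  set κ : ℕ := K + K₀ + 2 * K with hκ
  set B : Finset Γ := (hp κ).toFinset with hB
  refine ⟨K + B.card, fun g hg i => ?_⟩
  by_contra hcon
  push Not at hcon
  apply hg
  -- the interval between the two projections
  set S : Finset ℤ := Finset.Icc (min (p (g * u ^ i)) (p g)) (max (p (g * u ^ i)) (p g)) with hS
  have hcard : B.card < S.card := by
    rw [hS, Int.card_Icc]
    push_cast at hcon
    rcases le_total (p (g * u ^ i)) (p g) with h | h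
    · rw [min_eq_left h, max_eq_right h]
      rw [abs_of_nonpos (by omega)] at hcon
      omega
    · rw [min_eq_right h, max_eq_left h]
      rw [abs_of_nonneg (by omega)] at hcon
      omega
  have hmaps : ∀ k ∈ S, (u ^ p (g⁻¹ * u ^ k))⁻¹ * (g⁻¹ * u ^ k) ∈ B := by
    intro k hk
    rw [hB, Set.Finite.mem_toFinset]
    show dst ℓ (u ^ p (g⁻¹ * u ^ k)) (g⁻¹ * u ^ k) ≤ κ
    rw [H.dst_comm]
    have htwo := M.two (g * u ^ i) g (by push_cast at hcon; omega)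
    have hgi : dst ℓ (g * u ^ i) g = ℓ (u ^ i) := by
      rw [H.dst_comm, dst_mul_right]
    -- superadditivity along the axis
    have hsup : ℓ (u ^ (p (g * u ^ i) - k)) + ℓ (u ^ (k - p g)) ≤
        ℓ (u ^ (p (g * u ^ i) - p g)) + K₀ := by
      rw [hS, Finset.mem_Icc] at hk
      rcases le_total (p (g * u ^ i)) (p g) with h | h
      · rw [min_eq_left h, max_eq_right h] at hk
        have h1 := Q.super_int (i := k - p (g * u ^ i)) (j := p g - k) (by omega) (by omega)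
        rw [← H.zpow_neg u (p (g * u ^ i) - k), ← H.zpow_neg u (k - p g),
          ← H.zpow_neg u (p (g * u ^ i) - p g)]
        have e1 : -(p (g * u ^ i) - k) = k - p (g * u ^ i) := by ring
        have e2 : -(k - p g) = p g - k := by ring
        have e3 : -(p (g * u ^ i) - p g) = k - p (g * u ^ i) + (p g - k) := by ring
        rw [e1, e2, e3]
        exact h1
      · rw [min_eq_right h, max_eq_left h] at hk
        have h1 := Q.super_int (i := p (g * u ^ i) - k) (j := k - p g) (by omega) (by omega)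
        have e3 : (p (g * u ^ i) - p g) = p (g * u ^ i) - k + (k - p g) := by ring
        rw [e3]
        exact h1
    apply psys_qc H M (g⁻¹ * u ^ k) i 0 (K + K₀)
    have t1 := H.dst_tri (g * u ^ i) (u ^ p (g * u ^ i)) (u ^ k)
    rw [H.dst_zpow] at t1
    have t2 := H.dst_tri (u ^ k) (u ^ p g) g
    rw [H.dst_zpow] at t2
    have e1 : dst ℓ (g⁻¹ * u ^ k) (u ^ i) = dst ℓ (g * u ^ i) (u ^ k) := by
      rw [← dst_mul_left ℓ g (g⁻¹ * u ^ k), mul_inv_cancel_left, H.dst_comm]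
    have e2 : dst ℓ (g⁻¹ * u ^ k) (u ^ (0 : ℤ)) = dst ℓ (u ^ k) g := by
      rw [← dst_mul_left ℓ g (g⁻¹ * u ^ k), mul_inv_cancel_left, zpow_zero, mul_one]
    rw [e1, e2, sub_zero]
    omega
  obtain ⟨k, -, k', -, hne, heq⟩ := Finset.exists_ne_map_eq_of_card_lt_of_maps_to hcard hmaps
  have hmal : g⁻¹ * u ^ (k - k') * g⁻¹⁻¹ = u ^ (p (g⁻¹ * u ^ k) - p (g⁻¹ * u ^ k')) := by
    generalize p (g⁻¹ * u ^ k) = r at heq ⊢
    generalize p (g⁻¹ * u ^ k') = r' at heq ⊢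
    have h1 : g⁻¹ * u ^ k = u ^ r * ((u ^ r')⁻¹ * (g⁻¹ * u ^ k')) := by
      rw [← heq, mul_inv_cancel_left]
    rw [zpow_sub, zpow_sub, inv_inv, ← mul_assoc g⁻¹, h1]
    group
  have := mal g⁻¹ (k - k') _ (by omega) hmal
  exact (Subgroup.inv_mem_iff _).mp this

/-- T3: projection axioms for a malnormal cyclic group. -/
theorem exists_projSys (H : HypLen ℓ δ) (hp : ProperLen ℓ) (u : Γ) (K₀ : ℕ) (Q : QGeo ℓ u K₀)
    (mal : Mal u) (p : Γ → ℤ) (K : ℕ) (M : MetProj ℓ u p K) :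
    ∃ C θ : ℕ, ProjSys ℓ u p C θ := by
  obtain ⟨C, hC⟩ := psys_lip H Q M
  obtain ⟨θ, hθ⟩ := psys_bdd H hp Q mal M
  obtain ⟨I, hI⟩ := Q.unb_int H (K + 1)
  refine ⟨C, θ + K + I, M.shift, hC, fun g hg i => ?_, fun g hg a => ?_⟩
  · have := hθ g hg i
    push_cast
    omega
  · by_contra hcon
    push Not at hcon
    obtain ⟨hc1, hc2⟩ := hcon
    push_cast at hc1 hc2
    have hg' : g⁻¹ ∉ Subgroup.zpowers u := fun h => hg ((Subgroup.inv_mem_iff _).mp h)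
    have b1 := hθ g hg (p (g⁻¹ * a))
    have b2 := hθ g⁻¹ hg' (p a)
    have f1 : (K : ℤ) + I ≤ |p a - p (g * u ^ p (g⁻¹ * a))| := by
      have := abs_sub_abs_le_abs_sub (p a - p g) (p (g * u ^ p (g⁻¹ * a)) - p g)
      have e : p a - p g - (p (g * u ^ p (g⁻¹ * a)) - p g) = p a - p (g * u ^ p (g⁻¹ * a)) := by
        ring
      rw [e] at this
      omega
    have f2 : (K : ℤ) + I ≤ |p (g⁻¹ * a) - p (g⁻¹ * u ^ p a)| := by
      have := abs_sub_abs_le_abs_sub (p (g⁻¹ * a) - p g⁻¹) (p (g⁻¹ * u ^ p a) - p g⁻¹)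
      have e : p (g⁻¹ * a) - p g⁻¹ - (p (g⁻¹ * u ^ p a) - p g⁻¹) =
        p (g⁻¹ * a) - p (g⁻¹ * u ^ p a) := by ring
      rw [e] at this
      omega
    have t1 := M.two a (g * u ^ p (g⁻¹ * a)) (by omega)
    have t2 := M.two (g⁻¹ * a) (g⁻¹ * u ^ p a) (by omega)
    have i1 := hI _ (show (I : ℤ) ≤ |p a - p (g * u ^ p (g⁻¹ * a))| by omega)
    have i2 := hI _ (show (I : ℤ) ≤ |p (g⁻¹ * a) - p (g⁻¹ * u ^ p a)| by omega)
    have e1 : dst ℓ (g⁻¹ * a) (g⁻¹ * u ^ p a) = dst ℓ a (u ^ p a) := dst_mul_left _ _ _ _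
    have e2 : dst ℓ a (g * u ^ p (g⁻¹ * a)) = dst ℓ (g⁻¹ * a) (u ^ p (g⁻¹ * a)) := by
      rw [← dst_mul_left ℓ g (g⁻¹ * a), mul_inv_cancel_left]
    rw [e1] at t2
    rw [e2] at t1
    omega

end Pool.Agent.Lib.MP_06935a_al
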