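import Pool.Agent.Lib.MP_06935a_al.Basic

set_option autoImplicit false

namespace Pool.Agent.Lib.MP_06935a_al

variable {Γ : Type} [Group Γ] {ℓ : Γ → ℕ} {δ : ℕ}

/-! ### T2: nearest point projection to the axis -/

/-- `k` is the least index of a nearest point to `x` on the axis -/
def IsProj (ℓ : Γ → ℕ) (u x : Γ) (k : ℤ) : Prop :=
  (∀ i : ℤ, dst ℓ x (u ^ k) ≤ dst ℓ x (u ^ i)) ∧
    ∀ j : ℤ, (∀ i : ℤ, dst ℓ x (u ^ j) ≤ dst ℓ x (u ^ i)) → k ≤ j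

theorem exists_isProj (H : HypLen ℓ δ) (u : Γ) (K₀ : ℕ) (Q : QGeo ℓ u K₀) (x : Γ) :
    ∃ k : ℤ, IsProj ℓ u x k := by
  classical
  -- a minimiser
  obtain ⟨k0, hk0⟩ : ∃ k0 : ℤ, ∀ i : ℤ, dst ℓ x (u ^ k0) ≤ dst ℓ x (u ^ i) := by
    exact ⟨Function.argmin (fun k : ℤ => dst ℓ x (u ^ k)),
      fun i => Function.argmin_le (fun k : ℤ => dst ℓ x (u ^ k)) i⟩
  obtain ⟨I, hI⟩ := Q.unb_int H (ℓ x + dst ℓ x (u ^ k0) + 1)
  have hb : ∃ b : ℤ, ∀ z : ℤ, (∀ i : ℤ, dst ℓ x (u ^ z) ≤ dst ℓ x (u ^ i)) → b ≤ z := by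
    refine ⟨-I, fun z hz => ?_⟩
    by_contra hlt
    push Not at hlt
    have h1 := hI z (by
      rw [abs_of_neg (by omega)]
      omega)
    have h2 := H.dst_tri 1 x (u ^ z)
    rw [dst_one_left, dst_one_left] at h2
    have h3 := hz k0
    omega
  obtain ⟨k, hk, hk'⟩ := Int.exists_least_of_bdd hb ⟨k0, hk0⟩
  exact ⟨k, hk, hk'⟩

theorem IsProj.unique {u x : Γ} {k k' : ℤ} (h : IsProj ℓ u x k) (h' : IsProj ℓ u x k') :
    k = k' := le_antisymm (h.2 _ h'.1) (h'.2 _ h.1)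

theorem IsProj.shift {u x : Γ} {k : ℤ} (h : IsProj ℓ u x k) : IsProj ℓ u (u * x) (k + 1) := by
  have key : ∀ j : ℤ, dst ℓ (u * x) (u ^ (j + 1)) = dst ℓ x (u ^ j) := by
    intro j
    have : u ^ (j + 1) = u * u ^ j := by rw [zpow_add, zpow_one]; exact (Commute.zpow_self u j).eq
    rw [this, dst_mul_left]
  refine ⟨fun i => ?_, fun j hj => ?_⟩
  · have e : i = (i - 1) + 1 := by ring
    rw [e, key, key]
    exact h.1 _
  · have e : j = (j - 1) + 1 := by ring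
    have := h.2 (j - 1) (fun i => by
      have h1 := hj (i + 1)
      rw [e, key, key] at h1
      simpa using h1)
    omega

/-- doubled Gromov product at the nearest point is bounded, for a nonnegative direction:
`b m := ℓ (u ^ m)`, and `u ^ (q + ε m)`. -/
theorem gp_aux (H : HypLen ℓ δ) (u : Γ) (K₀ : ℕ) (Q : QGeo ℓ u K₀) (x : Γ) (q i : ℤ)
    (hq : ∀ i : ℤ, dst ℓ x (u ^ q) ≤ dst ℓ x (u ^ i)) :
    dst ℓ x (u ^ q) + ℓ (u ^ (q - i)) ≤ dst ℓ x (u ^ i) + (2 * (ℓ u + K₀ + 2 * δ) + 1) := by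
  classical
  by_contra hcon
  push Not at hcon
  -- a sign
  obtain ⟨ε, n, hε, hi⟩ : ∃ (ε : ℤ) (n : ℕ), (ε = 1 ∨ ε = -1) ∧ i = q + ε * n := by
    rcases le_total q i with h | h
    · exact ⟨1, (i - q).toNat, Or.inl rfl, by rw [Int.toNat_of_nonneg (by omega)]; ring⟩
    · exact ⟨-1, (q - i).toNat, Or.inr rfl, by rw [Int.toNat_of_nonneg (by omega)]; ring⟩
  have hb : ∀ a b : ℕ, dst ℓ (u ^ (q + ε * a)) (u ^ (q + ε * (a + b : ℕ))) = ℓ (u ^ b) := by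
    intro a b
    rw [H.dst_zpow, H.zpow_natAbs]
    congr 2
    rcases hε with rfl | rfl <;> push_cast <;> omega
  have hb0 : ∀ b : ℕ, dst ℓ (u ^ q) (u ^ (q + ε * (b : ℕ))) = ℓ (u ^ b) := by
    intro b
    have := hb 0 b
    simpa using this
  have hn : ℓ (u ^ (q - i)) = ℓ (u ^ n) := by
    rw [← H.dst_zpow, hi, hb0]
  set t : ℕ := (dst ℓ x (u ^ q) + ℓ (u ^ n) - dst ℓ x (u ^ i)) / 2 with ht
  -- the greatest `m ≤ n` with `b m ≤ t`
  have hP0 : (fun m => ℓ (u ^ m) ≤ t) 0 := by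
    show ℓ (u ^ 0) ≤ t
    rw [pow_zero, H.one]; exact Nat.zero_le _
  have hm1 : ℓ (u ^ (Nat.findGreatest (fun m => ℓ (u ^ m) ≤ t) n)) ≤ t :=
    Nat.findGreatest_spec (P := fun m => ℓ (u ^ m) ≤ t) (Nat.zero_le n) hP0
  have hm2 : Nat.findGreatest (fun m => ℓ (u ^ m) ≤ t) n ≤ n := Nat.findGreatest_le n
  have hm3 : ∀ k, Nat.findGreatest (fun m => ℓ (u ^ m) ≤ t) n < k → k ≤ n → ¬ ℓ (u ^ k) ≤ t :=
    fun k h1 h2 => Nat.findGreatest_is_greatest (P := fun m => ℓ (u ^ m) ≤ t) h1 h2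
  generalize Nat.findGreatest (fun m => ℓ (u ^ m) ≤ t) n = m at hm1 hm2 hm3
  have htri : ℓ (u ^ n) + dst ℓ x (u ^ i) ≥ dst ℓ x (u ^ q) ∧
      dst ℓ x (u ^ q) ≤ dst ℓ x (u ^ i) + ℓ (u ^ n) := by
    have h1 := H.dst_tri x (u ^ i) (u ^ q)
    rw [H.dst_comm (u ^ i) (u ^ q), hi, hb0] at h1
    rw [hi]
    omega
  have hqi := hq i
  have hm4 : t ≤ ℓ (u ^ m) + ℓ u := by
    rcases Nat.lt_or_ge m n with h | h
    · have h1 := hm3 (m + 1) (by omega) (by omega)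
      have h2 : ℓ (u ^ (m + 1)) ≤ ℓ (u ^ m) + ℓ u := by
        rw [pow_succ]; exact H.mul _ _
      omega
    · have : m = n := by omega
      subst this
      omega
  obtain ⟨r, hr⟩ : ∃ r, n = m + r := ⟨n - m, by omega⟩
  -- the three distances
  have d1 : dst ℓ (u ^ q) (u ^ (q + ε * m)) = ℓ (u ^ m) := hb0 m
  have d2 : dst ℓ (u ^ (q + ε * m)) (u ^ i) = ℓ (u ^ r) := by
    rw [hi, hr]; exact hb m r
  have d3 : dst ℓ (u ^ q) (u ^ i) = ℓ (u ^ n) := by rw [hi]; exact hb0 n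
  have hs := Q.super m r
  rw [← hr] at hs
  have hw := hq (q + ε * m)
  rw [hn] at hcon
  rcases H.four x (u ^ (q + ε * m)) (u ^ q) (u ^ i) with h | h
  · omega
  · rw [H.dst_comm (u ^ (q + ε * m)) (u ^ q)] at h
    omega

/-- T2: nearest point projection to the axis. -/
theorem exists_metProj (H : HypLen ℓ δ) (u : Γ) (K₀ : ℕ) (Q : QGeo ℓ u K₀) :
    ∃ (p : Γ → ℤ) (K : ℕ), MetProj ℓ u p K := by
  choose p hp using exists_isProj H u K₀ Q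
  set K₁ : ℕ := 2 * (ℓ u + K₀ + 2 * δ) + 1 with hK₁
  obtain ⟨I, hI⟩ := Q.unb_int H (K₁ + δ + 1)
  have gp : ∀ x (i : ℤ), dst ℓ x (u ^ p x) + ℓ (u ^ (p x - i)) ≤ dst ℓ x (u ^ i) + K₁ :=
    fun x i => gp_aux H u K₀ Q x (p x) i (hp x).1
  refine ⟨p, 2 * K₁ + 2 * δ + I, ?_, ?_, ?_, ?_⟩
  · intro x
    exact (hp (u * x)).unique (hp x).shift
  · intro x i
    exact (hp x).1 i
  · intro x i
    have := gp x i
    omega
  · intro x y hxy
    have h1 := gp x (p y)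
    have h2 := gp y (p x)
    have h3 : ℓ (u ^ (p y - p x)) = ℓ (u ^ (p x - p y)) := by
      rw [← H.zpow_neg]; congr 2; ring
    have h4 := hI (p x - p y) (by omega)
    have h5 := H.dst_zpow u (p x) (p y)
    rw [H.dst_comm (u ^ p y) y]
    rcases H.four x (u ^ p y) y (u ^ p x) with h | h
    · rw [H.dst_comm (u ^ p y) (u ^ p x)] at h
      omega
    · rw [H.dst_comm (u ^ p y) y] at h
      omega

end Pool.Agent.Lib.MP_06935a_al
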