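import Pool.Agent.Lib.MP_06935a_al.QuotHypAux
import Pool.Agent.Lib.MP_06935a_al.Cone2
import Pool.Agent.Lib.MP_06935a_al.Cone3
import Pool.Agent.Lib.MP_06935a_al.Windmill

set_option autoImplicit false

namespace Pool.Agent.Lib.MP_06935a_al

variable {Γ : Type} [Group Γ] {ℓ : Γ → ℕ} {δ : ℕ}

/-- T7: the quotient is hyperbolic. -/
theorem quot_hyp (H : HypLen ℓ δ) (hp : ProperLen ℓ) (u : Γ) (p : Γ → ℤ) (K : ℕ)
    (M : MetProj ℓ u p K) (C θ : ℕ) (P : ProjSys ℓ u p C θ) :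
    ∃ n₀ : ℕ, ∀ n ≥ n₀, ∃ (ℓ' : Γ ⧸ NC u n → ℕ) (δ' : ℕ), HypLen ℓ' δ' ∧ ProperLen ℓ' :=
  quot_hyp_aux H hp u p (2 * C + 8 * θ) (cone_hyp H u p K M) (cone_bgi H u p K M C θ P)
    ⟨2 * C + 20 * θ + 1, fun n hn x g hg => windmill H u p C θ P n hn x g hg⟩

end Pool.Agent.Lib.MP_06935a_al
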