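import Pool.Agent.Lib.MP_06935a_al.Basic

set_option autoImplicit false

namespace Pool.Agent.Lib.MP_06935a_al

open scoped Pointwise

variable {Γ : Type} [Group Γ] {ℓ : Γ → ℕ} {δ : ℕ}

/-- generating set of the quotient -/
def quotSet (ℓ : Γ → ℕ) (u : Γ) (n : ℕ) : Set (Γ ⧸ NC u n) :=
  (QuotientGroup.mk' (NC u n)) '' coneSet ℓ u

theorem quotSet_pow (ℓ : Γ → ℕ) (u : Γ) (n k : ℕ) :
    (quotSet ℓ u n) ^ k = (QuotientGroup.mk' (NC u n)) '' (coneSet ℓ u ^ k) := by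
  unfold quotSet
  rw [Set.image_pow]

theorem quotSet_one (H : HypLen ℓ δ) (u : Γ) (n : ℕ) : (1 : Γ ⧸ NC u n) ∈ quotSet ℓ u n :=
  ⟨1, coneSet_one H u, map_one _⟩

theorem quotSet_inv (H : HypLen ℓ δ) (u : Γ) (n : ℕ) :
    ∀ x ∈ quotSet ℓ u n, x⁻¹ ∈ quotSet ℓ u n := by
  rintro _ ⟨x, hx, rfl⟩
  exact ⟨x⁻¹, coneSet_inv H u x hx, map_inv _ _⟩

theorem quotSet_gen (H : HypLen ℓ δ) (u : Γ) (n : ℕ) (x : Γ ⧸ NC u n) :
    ∃ k : ℕ, x ∈ quotSet ℓ u n ^ k := by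
  obtain ⟨y, rfl⟩ := QuotientGroup.mk'_surjective (NC u n) x
  obtain ⟨k, hk⟩ := coneSet_gen H u y
  refine ⟨k, ?_⟩
  rw [quotSet_pow]
  exact ⟨y, hk, rfl⟩

/-- the quotient length is at most the length upstairs -/
theorem wl_quot_le (H : HypLen ℓ δ) (u : Γ) (n : ℕ) (x : Γ) :
    wl (quotSet ℓ u n) (x : Γ ⧸ NC u n) ≤ wl (coneSet ℓ u) x := by
  apply wl_le
  rw [quotSet_pow]
  exact ⟨x, mem_pow_wl (coneSet_gen H u) x, rfl⟩

/-- optimal lifts -/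
theorem exists_lift (H : HypLen ℓ δ) (u : Γ) (n : ℕ) (x : Γ ⧸ NC u n) :
    ∃ y : Γ, (y : Γ ⧸ NC u n) = x ∧ wl (coneSet ℓ u) y ≤ wl (quotSet ℓ u n) x := by
  have h := mem_pow_wl (quotSet_gen H u n) x
  rw [quotSet_pow] at h
  obtain ⟨y, hy, rfl⟩ := h
  exact ⟨y, rfl, wl_le hy⟩

/-- a pair of points whose distance is not decreased in the quotient -/
def Tight (ℓ : Γ → ℕ) (u : Γ) (n : ℕ) (x y : Γ) : Prop :=
  dst (wl (coneSet ℓ u)) x y ≤ dst (wl (quotSet ℓ u n)) (x : Γ ⧸ NC u n) (y : Γ ⧸ NC u n)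

theorem quot_dst_le (H : HypLen ℓ δ) (u : Γ) (n : ℕ) (x y : Γ) :
    dst (wl (quotSet ℓ u n)) (x : Γ ⧸ NC u n) (y : Γ ⧸ NC u n) ≤
      dst (wl (coneSet ℓ u)) x y := by
  unfold dst
  rw [← QuotientGroup.mk_inv, ← QuotientGroup.mk_mul]
  exact wl_quot_le H u n _

theorem exists_tight (H : HypLen ℓ δ) (u : Γ) (n : ℕ) (x : Γ) (y : Γ ⧸ NC u n) :
    ∃ z : Γ, (z : Γ ⧸ NC u n) = y ∧ Tight ℓ u n x z := by
  obtain ⟨t, ht, hle⟩ := exists_lift H u n ((x : Γ ⧸ NC u n)⁻¹ * y)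
  refine ⟨x * t, ?_, ?_⟩
  · rw [QuotientGroup.mk_mul, ht, mul_inv_cancel_left]
  · unfold Tight
    rw [dst_mul_right, QuotientGroup.mk_mul, dst_mul_right, ht]
    exact hle

theorem Tight.smul {u : Γ} {n : ℕ} {x y : Γ} (h : Tight ℓ u n x y) (g : Γ) :
    Tight ℓ u n (g * x) (g * y) := by
  unfold Tight at h ⊢
  rw [dst_mul_left, QuotientGroup.mk_mul, QuotientGroup.mk_mul, dst_mul_left]
  exact h

theorem mk_rot {u : Γ} {n : ℕ} {g : Γ} (hg : g ∈ NC u n) (x : Γ) :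
    ((g * x : Γ) : Γ ⧸ NC u n) = (x : Γ ⧸ NC u n) := by
  rw [QuotientGroup.mk_mul, (QuotientGroup.eq_one_iff g).mpr hg, one_mul]

theorem rot_mem (u : Γ) (n : ℕ) (h : Γ) (k : ℤ) : h * u ^ ((n : ℤ) * k) * h⁻¹ ∈ NC u n := by
  have h1 : u ^ n ∈ NC u n := Subgroup.subset_normalClosure rfl
  have h2 : u ^ ((n : ℤ) * k) ∈ NC u n := by
    rw [zpow_mul, zpow_natCast]
    exact Subgroup.zpow_mem _ h1 k
  exact (inferInstance : (NC u n).Normal).conj_mem _ h2 h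

/-- surgery along a coset of the axis -/
theorem Tight.rot (H : HypLen ℓ δ) {u : Γ} {n : ℕ} {p : Γ → ℤ} {B : ℕ}
    (hB : ∀ x y h : Γ, (B : ℤ) ≤ |p (h⁻¹ * x) - p (h⁻¹ * y)| →
      ∃ i j : ℤ, dst (wl (coneSet ℓ u)) x (h * u ^ i) + 1 +
        dst (wl (coneSet ℓ u)) (h * u ^ j) y ≤ dst (wl (coneSet ℓ u)) x y)
    {x y : Γ} (ht : Tight ℓ u n x y) (h : Γ) (k : ℤ)
    (hd : (B : ℤ) ≤ |p (h⁻¹ * x) - p (h⁻¹ * y)|) :
    Tight ℓ u n x (h * u ^ ((n : ℤ) * k) * h⁻¹ * y) := by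
  obtain ⟨i, j, hij⟩ := hB x y h hd
  unfold Tight at ht ⊢
  rw [mk_rot (rot_mem u n h k)]
  refine le_trans ?_ (hij.trans ht)
  have gen := coneSet_gen H u
  have tri : ∀ a b c : Γ, dst (wl (coneSet ℓ u)) a c ≤
      dst (wl (coneSet ℓ u)) a b + dst (wl (coneSet ℓ u)) b c := by
    intro a b c
    unfold dst
    have h1 := wl_mul gen (a⁻¹ * b) (b⁻¹ * c)
    have e : a⁻¹ * b * (b⁻¹ * c) = a⁻¹ * c := by group
    rwa [e] at h1
  have h1 := tri x (h * u ^ i) (h * u ^ ((n : ℤ) * k) * h⁻¹ * y)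
  have h2 := tri (h * u ^ i) (h * u ^ ((n : ℤ) * k) * h⁻¹ * (h * u ^ j))
    (h * u ^ ((n : ℤ) * k) * h⁻¹ * y)
  rw [dst_mul_left _ (h * u ^ ((n : ℤ) * k) * h⁻¹)] at h2
  have h3 : dst (wl (coneSet ℓ u)) (h * u ^ i) (h * u ^ ((n : ℤ) * k) * h⁻¹ * (h * u ^ j)) ≤ 1 := by
    have e : h * u ^ ((n : ℤ) * k) * h⁻¹ * (h * u ^ j) = h * u ^ ((n : ℤ) * k + j) := by
      rw [zpow_add]; group
    rw [e, dst_mul_left]
    unfold dst
    rw [← zpow_neg, ← zpow_add]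
    apply (wl_le_one gen (coneSet_one H u)).mpr
    right
    exact Subgroup.zpow_mem_zpowers u _
  omega

/-- closing up quadrilaterals -/
theorem close_up (H : HypLen ℓ δ) {u : Γ} {n : ℕ} {p : Γ → ℤ} {B : ℕ} {c : ℤ}
    (hB : ∀ x y h : Γ, (B : ℤ) ≤ |p (h⁻¹ * x) - p (h⁻¹ * y)| →
      ∃ i j : ℤ, dst (wl (coneSet ℓ u)) x (h * u ^ i) + 1 +
        dst (wl (coneSet ℓ u)) (h * u ^ j) y ≤ dst (wl (coneSet ℓ u)) x y)
    (hn : 4 * (B : ℤ) + c ≤ n) (x : Γ) {g : Γ} (hg : Res u p n c x g) :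
    ∀ y z w : Γ, Tight ℓ u n x y → Tight ℓ u n y z → Tight ℓ u n z w →
      Tight ℓ u n w (g * x) → ∃ y' z' w' : Γ, (y' : Γ ⧸ NC u n) = y ∧ (z' : Γ ⧸ NC u n) = z ∧
        (w' : Γ ⧸ NC u n) = w ∧ Tight ℓ u n x y' ∧ Tight ℓ u n y' z' ∧ Tight ℓ u n z' w' ∧
        Tight ℓ u n w' x := by
  induction hg with
  | one =>
    intro y z w h1 h2 h3 h4
    rw [one_mul] at h4
    exact ⟨y, z, w, rfl, rfl, rfl, h1, h2, h3, h4⟩
  | step g h k hd _ ih =>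
    intro y z w h1 h2 h3 h4
    set ρ := h * u ^ ((n : ℤ) * k) * h⁻¹ with hρ
    have hρm : ρ ∈ NC u n := rot_mem u n h k
    by_cases c1 : (B : ℤ) ≤ |p (h⁻¹ * x) - p (h⁻¹ * y)|
    · obtain ⟨y', z', w', e1, e2, e3, r⟩ := ih (ρ * y) (ρ * z) (ρ * w) (h1.rot H hB h k c1)
        (h2.smul ρ) (h3.smul ρ) (by rw [mul_assoc ρ g x]; exact h4.smul ρ)
      exact ⟨y', z', w', by rw [e1, mk_rot hρm], by rw [e2, mk_rot hρm],
        by rw [e3, mk_rot hρm], r⟩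
    by_cases c2 : (B : ℤ) ≤ |p (h⁻¹ * y) - p (h⁻¹ * z)|
    · obtain ⟨y', z', w', e1, e2, e3, r⟩ := ih y (ρ * z) (ρ * w) h1 (h2.rot H hB h k c2)
        (h3.smul ρ) (by rw [mul_assoc ρ g x]; exact h4.smul ρ)
      exact ⟨y', z', w', e1, by rw [e2, mk_rot hρm], by rw [e3, mk_rot hρm], r⟩
    by_cases c3 : (B : ℤ) ≤ |p (h⁻¹ * z) - p (h⁻¹ * w)|
    · obtain ⟨y', z', w', e1, e2, e3, r⟩ := ih y z (ρ * w) h1 h2 (h3.rot H hB h k c3)
        (by rw [mul_assoc ρ g x]; exact h4.smul ρ)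
      exact ⟨y', z', w', e1, e2, by rw [e3, mk_rot hρm], r⟩
    have c4 : (B : ℤ) ≤ |p (h⁻¹ * w) - p (h⁻¹ * (g * x))| := by
      by_contra hcon
      push Not at c1 c2 c3 hcon
      rw [abs_lt] at c1 c2 c3 hcon
      have : |p (h⁻¹ * x) - p (h⁻¹ * (g * x))| < 4 * B := by
        rw [abs_lt]; constructor <;> linarith [c1.1, c1.2, c2.1, c2.2, c3.1, c3.2, hcon.1, hcon.2]
      linarith
    exact ih y z w h1 h2 h3 (by rw [mul_assoc ρ g x]; exact h4.rot H hB h k c4)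

theorem quot_hyp_aux (H : HypLen ℓ δ) (hp : ProperLen ℓ) (u : Γ) (p : Γ → ℤ) (c : ℤ)
    (hcone : ∃ δ' : ℕ, HypLen (wl (coneSet ℓ u)) δ')
    (hbgi : ∃ B : ℕ, ∀ x y h : Γ, (B : ℤ) ≤ |p (h⁻¹ * x) - p (h⁻¹ * y)| →
      ∃ i j : ℤ, dst (wl (coneSet ℓ u)) x (h * u ^ i) + 1 +
        dst (wl (coneSet ℓ u)) (h * u ^ j) y ≤ dst (wl (coneSet ℓ u)) x y)
    (hwind : ∃ n₀ : ℕ, ∀ n ≥ n₀, ∀ x g : Γ, g ∈ NC u n → Res u p n c x g) :
    ∃ n₀ : ℕ, ∀ n ≥ n₀, ∃ (ℓ' : Γ ⧸ NC u n → ℕ) (δ' : ℕ), HypLen ℓ' δ' ∧ ProperLen ℓ' := by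
  obtain ⟨δ', H'⟩ := hcone
  obtain ⟨B, hB⟩ := hbgi
  obtain ⟨n₁, hW⟩ := hwind
  refine ⟨n₁ + 4 * B + c.toNat + 1, fun n hn => ⟨wl (quotSet ℓ u n), δ', ?_, ?_⟩⟩
  · apply wl_hyp (quotSet_inv H u n) (quotSet_gen H u n)
    intro x y z w
    obtain ⟨X, rfl⟩ := QuotientGroup.mk_surjective x
    obtain ⟨Z, hZ, tXZ⟩ := exists_tight H u n X z
    obtain ⟨Y, hY, tZY⟩ := exists_tight H u n Z y
    obtain ⟨W, hW', tYW⟩ := exists_tight H u n Y w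
    obtain ⟨X', hX', tWX⟩ := exists_tight H u n W (X : Γ ⧸ NC u n)
    have hg : X' * X⁻¹ ∈ NC u n := by
      rw [← QuotientGroup.eq_one_iff, QuotientGroup.mk_mul, hX', QuotientGroup.mk_inv,
        mul_inv_cancel]
    have hc : 4 * (B : ℤ) + c ≤ n := by
      have := Int.self_le_toNat c
      omega
    obtain ⟨Z', Y', W', e1, e2, e3, r1, r2, r3, r4⟩ := close_up H hB hc X
      (hW n (by omega) X _ hg) Z Y W tXZ tZY tYW (by
        have : X' * X⁻¹ * X = X' := by group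
        rw [this]; exact tWX)
    unfold Tight at r1 r2 r3 r4
    rw [e1, hZ] at r1 r2
    rw [e2, hY] at r2 r3
    rw [e3, hW'] at r3 r4
    have d1 := quot_dst_le H u n X Y'
    have d2 := quot_dst_le H u n Z' W'
    rw [e2, hY] at d1
    rw [e1, hZ, e3, hW'] at d2
    have hgen := quotSet_gen H u n
    have hinv := quotSet_inv H u n
    have comm : ∀ a b : Γ ⧸ NC u n, dst (wl (quotSet ℓ u n)) a b =
        dst (wl (quotSet ℓ u n)) b a := by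
      intro a b
      unfold dst
      rw [← wl_inv hgen hinv (a⁻¹ * b)]
      congr 1
      group
    have comm' := H'.dst_comm
    have f := H'.four X Y' Z' W'
    rw [comm z y] at r2
    rw [comm w] at r4
    rw [comm' Z' Y'] at r2
    rw [comm' W' X] at r4
    rcases f with f | f
    · left; omega
    · right; omega
  · intro r
    have hfin : (quotSet ℓ u n).Finite := by
      unfold quotSet coneSet
      rw [Set.image_union]
      refine Set.Finite.union ((hp 1).image _) ?_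
      have hn0 : 0 < n := by omega
      have hpow : (QuotientGroup.mk' (NC u n) u) ^ n = 1 := by
        rw [← map_pow]
        exact (QuotientGroup.eq_one_iff _).mpr (Subgroup.subset_normalClosure rfl)
      have hfo : IsOfFinOrder (QuotientGroup.mk' (NC u n) u) :=
        isOfFinOrder_iff_pow_eq_one.mpr ⟨n, hn0, hpow⟩
      have hsub : (QuotientGroup.mk' (NC u n)) '' (Subgroup.zpowers u : Set Γ) ⊆
          (Subgroup.zpowers (QuotientGroup.mk' (NC u n) u) : Set (Γ ⧸ NC u n)) := by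
        rintro _ ⟨_, ⟨i, rfl⟩, rfl⟩
        exact ⟨i, (map_zpow _ _ _).symm⟩
      exact (hfo.finite_zpowers).subset hsub
    have hpw : ∀ k : ℕ, (quotSet ℓ u n ^ k).Finite := by
      intro k
      induction k with
      | zero => simp
      | succ k ih => rw [pow_succ]; exact ih.mul hfin
    refine (hpw r).subset ?_
    intro x hx
    exact pow_mono_one (quotSet_one H u n) hx (mem_pow_wl (quotSet_gen H u n) x)

end Pool.Agent.Lib.MP_06935a_al
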