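import Pool.Agent.Lib.MP_06935a_al.Root0
import Pool.Agent.Lib.MP_06935a_al.Lox
import Pool.Agent.Lib.MP_06935a_al.Proj

set_option autoImplicit false

namespace Pool.Agent.Lib.MP_06935a_al

variable {Γ : Type} [Group Γ] {ℓ : Γ → ℕ} {δ : ℕ}

/-- T4: roots. -/
theorem exists_root (H : HypLen ℓ δ) (hp : ProperLen ℓ)
    (j1 : ∀ c h : Γ, c ≠ 1 → IsOfFinOrder c → c * h = h * c → IsOfFinOrder h)
    (j2 : ∀ c : Γ, c ^ 2 = 1 → c = 1) (w : Γ) (hw : ¬ IsOfFinOrder w) :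
    ∃ u : Γ, w ∈ Subgroup.zpowers u ∧ Mal u := by
  obtain ⟨K₀, Q⟩ := exists_qgeo H hp w hw
  obtain ⟨p, K, M⟩ := exists_metProj H w K₀ Q
  exact exists_root_of H hp j1 j2 w hw Q M

end Pool.Agent.Lib.MP_06935a_al
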