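import Pool.Agent.Lib.MP_06935a_al.Basic

set_option autoImplicit false

namespace Pool.Agent.Lib.MP_06935a_al

variable {Γ : Type} [Group Γ] {ℓ : Γ → ℕ} {δ : ℕ}

theorem conj_zpow_mul {w g : Γ} {i j : ℤ} (h : g * w ^ i * g⁻¹ = w ^ j) (n : ℤ) :
    g * w ^ (i * n) * g⁻¹ = w ^ (j * n) := by
  rw [zpow_mul, zpow_mul, ← h, conj_zpow]

/-- conjugation cannot dilate exponents -/
theorem conj_zpow_natAbs_le (H : HypLen ℓ δ) {w : Γ} {K₀ : ℕ} (Q : QGeo ℓ w K₀) {g : Γ} {i j : ℤ}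
    (h : g * w ^ i * g⁻¹ = w ^ j) : j.natAbs ≤ i.natAbs := by
  by_contra hlt
  obtain ⟨I, hI⟩ := Q.unb (2 * ℓ g + K₀ + 1)
  obtain ⟨d, hd⟩ := Nat.exists_eq_add_of_lt (not_le.mp hlt)
  have h1 := Q.super (i.natAbs * I) ((d + 1) * I)
  have h2 := hI ((d + 1) * I) (by nlinarith)
  have h3 : ℓ (w ^ (j.natAbs * I)) ≤ ℓ (w ^ (i.natAbs * I)) + 2 * ℓ g := by
    have e1 : ℓ (w ^ (j.natAbs * I)) = ℓ (w ^ (j * (I : ℤ))) := by
      rw [H.zpow_natAbs w (j * (I : ℤ)), Int.natAbs_mul, Int.natAbs_natCast]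
    have e2 : ℓ (w ^ (i.natAbs * I)) = ℓ (w ^ (i * (I : ℤ))) := by
      rw [H.zpow_natAbs w (i * (I : ℤ)), Int.natAbs_mul, Int.natAbs_natCast]
    rw [e1, e2, ← conj_zpow_mul h]
    have a1 := H.mul (g * w ^ (i * (I : ℤ))) g⁻¹
    have a2 := H.mul g (w ^ (i * (I : ℤ)))
    have a3 := H.inv g
    omega
  have h4 : i.natAbs * I + (d + 1) * I = j.natAbs * I := by rw [hd]; ring
  rw [h4] at h1
  omega

theorem conj_zpow_natAbs (H : HypLen ℓ δ) {w : Γ} {K₀ : ℕ} (Q : QGeo ℓ w K₀) {g : Γ} {i j : ℤ}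
    (h : g * w ^ i * g⁻¹ = w ^ j) : j.natAbs = i.natAbs := by
  apply le_antisymm (conj_zpow_natAbs_le H Q h)
  have h' : g⁻¹ * w ^ j * g⁻¹⁻¹ = w ^ i := by rw [← h]; group
  exact conj_zpow_natAbs_le H Q h'

/-- elements commensurating the axis are close to the axis -/
theorem near_of_conj (H : HypLen ℓ δ) {w : Γ} {K₀ : ℕ} (Q : QGeo ℓ w K₀) {p : Γ → ℤ} {K : ℕ}
    (M : MetProj ℓ w p K) {g : Γ} {i j : ℤ} (hi : i ≠ 0) (h : g * w ^ i * g⁻¹ = w ^ j) :
    2 * dst ℓ g (w ^ p g) ≤ K₀ + 4 * δ + 2 * K := by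
  obtain ⟨I, hI⟩ := QGeo.unb_int H Q (2 * ℓ g + K₀ + 4 * δ + 1)
  have habs := conj_zpow_natAbs H Q h
  obtain ⟨n, hn⟩ : ∃ n : ℤ, n = (I : ℤ) := ⟨_, rfl⟩
  have hb : 2 * ℓ g + K₀ + 4 * δ + 1 ≤ ℓ (w ^ (i * n)) := by
    apply hI
    rw [abs_mul]
    have h1 : 1 ≤ |i| := Int.one_le_abs hi
    have h2 : |n| = n := abs_of_nonneg (by omega)
    rw [h2]
    nlinarith
  -- comparison of the lengths
  have hbj : ℓ (w ^ (j * n)) = ℓ (w ^ (i * n)) := by
    rw [H.zpow_natAbs w (j * n), H.zpow_natAbs w (i * n), Int.natAbs_mul, Int.natAbs_mul, habs]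
  have h2b : 2 * ℓ (w ^ (i * n)) ≤ ℓ (w ^ (i * n + i * n)) + K₀ := by
    have hs := Q.super (i * n).natAbs (i * n).natAbs
    have e1 : ℓ (w ^ (i * n + i * n)) = ℓ (w ^ ((i * n).natAbs + (i * n).natAbs)) := by
      rw [H.zpow_natAbs]
      congr 2
      omega
    rw [H.zpow_natAbs w (i * n), e1]
    omega
  have hcomm : ∀ m : ℤ, g * w ^ (i * m) = w ^ (j * m) * g := by
    intro m
    have := conj_zpow_mul h m
    rw [← this]; group
  set A : Γ := w ^ (-(j * n)) with hA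
  set B : Γ := w ^ (j * n) with hB
  set A' : Γ := g * w ^ (-(i * n)) with hA'
  set B' : Γ := g * w ^ (i * n) with hB'
  have dAA' : dst ℓ A A' = ℓ g := by
    have : A' = A * g := by
      rw [hA', hA]
      have := hcomm (-n)
      rw [show i * -n = -(i * n) by ring, show j * -n = -(j * n) by ring] at this
      exact this
    rw [this, dst_mul_right]
  have dBB' : dst ℓ B B' = ℓ g := by
    rw [hB', hcomm n, dst_mul_right]
  have dA'g : dst ℓ A' g = ℓ (w ^ (i * n)) := by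
    rw [H.dst_comm, hA', dst_mul_right, H.zpow_neg]
  have dB'g : dst ℓ B' g = ℓ (w ^ (i * n)) := by
    rw [H.dst_comm, hB', dst_mul_right]
  have dA'B' : dst ℓ A' B' = ℓ (w ^ (i * n + i * n)) := by
    rw [hA', hB', dst_mul_left, H.dst_zpow, ← H.zpow_neg]
    congr 2
    ring
  have dA'A : dst ℓ A' A = ℓ g := by rw [H.dst_comm, dAA']
  have dB'B : dst ℓ B' B = ℓ g := by rw [H.dst_comm, dBB']
  have f1 := H.four A' B' A g
  have f2 := H.four A B' B g
  have t1 := H.dst_tri A' A g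
  have t2 := H.dst_tri B' B g
  have c1 : dst ℓ B' A = dst ℓ A B' := H.dst_comm _ _
  have g1 := M.gp g (j * n)
  have g2 := M.gp g (-(j * n))
  have c2 : dst ℓ g (w ^ (j * n)) = dst ℓ B g := H.dst_comm _ _
  have c3 : dst ℓ g (w ^ (-(j * n))) = dst ℓ A g := H.dst_comm _ _
  have dAB : dst ℓ A B ≤ ℓ (w ^ (p g - -(j * n))) + ℓ (w ^ (p g - j * n)) := by
    have t3 := H.dst_tri A (w ^ p g) B
    rw [hA, hB, H.dst_zpow (u := w) (-(j * n)) (p g), H.dst_zpow (u := w) (p g) (j * n)] at t3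
    rw [← H.zpow_neg w (-(j * n) - p g)] at t3
    rw [show -(-(j * n) - p g) = p g - -(j * n) by ring] at t3
    rw [hA, hB]
    exact t3
  omega

/-- a torsion free group with a virtually central cyclic subgroup of finite index is cyclic -/
theorem cyclic_of_virt {E : Type} [Group E] (w : E) (tf : ∀ c : E, IsOfFinOrder c → c = 1)
    [fin : Finite (E ⧸ Subgroup.zpowers w)]
    (hcomm : ∀ g : E, ∃ i : ℤ, i ≠ 0 ∧ g * w ^ i = w ^ i * g) : IsCyclic E := by
  classical
  have : Fintype (E ⧸ Subgroup.zpowers w) := Fintype.ofFinite _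
  choose f hf0 hf using hcomm
  obtain ⟨M, hM⟩ : ∃ M : ℤ, M = ∏ q : E ⧸ Subgroup.zpowers w, f q.out := ⟨_, rfl⟩
  have hM0 : M ≠ 0 := by
    rw [hM]
    exact Finset.prod_ne_zero_iff.mpr fun q _ => hf0 _
  have hcM : ∀ q : E ⧸ Subgroup.zpowers w, Commute q.out (w ^ M) := by
    intro q
    have hd : f q.out ∣ M := by
      rw [hM]
      exact Finset.dvd_prod_of_mem _ (Finset.mem_univ q)
    obtain ⟨k, hk⟩ := hd
    rw [hk, zpow_mul]
    exact Commute.zpow_right (hf q.out) k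
  have hrep : ∀ g : E, ∃ k : ℤ, g = (g : E ⧸ Subgroup.zpowers w).out * w ^ k := by
    intro g
    have h := QuotientGroup.mk_out_eq_mul (Subgroup.zpowers w) g
    obtain ⟨⟨z, hz⟩, hz'⟩ := h
    obtain ⟨k, rfl⟩ := Subgroup.mem_zpowers_iff.mp hz
    refine ⟨-k, ?_⟩
    rw [hz']
    simp
  have hcen : w ^ M ∈ Subgroup.center E := by
    rw [Subgroup.mem_center_iff]
    intro g
    obtain ⟨k, hk⟩ := hrep g
    have h1 : Commute g (w ^ M) := by
      rw [hk]
      exact (hcM _).mul_left ((Commute.refl w).zpow_zpow k M)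
    exact h1
  -- the centre has finite index
  have hfin : Finite (E ⧸ Subgroup.center E) := by
    let φ : (E ⧸ Subgroup.zpowers w) × Fin M.natAbs → E ⧸ Subgroup.center E :=
      fun x => ((x.1.out * w ^ (x.2 : ℕ) : E) : E ⧸ Subgroup.center E)
    apply Finite.of_surjective φ
    intro x
    induction x using QuotientGroup.induction_on with
    | H g =>
      obtain ⟨k, hk⟩ := hrep g
      have hr0 : 0 ≤ k % M := Int.emod_nonneg k hM0
      have hr1 : k % M < |M| := Int.emod_lt_abs k hM0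
      refine ⟨((g : E ⧸ Subgroup.zpowers w), ⟨(k % M).toNat, by
        have := Int.natCast_natAbs M
        omega⟩), ?_⟩
      show (((g : E ⧸ Subgroup.zpowers w).out * w ^ (k % M).toNat : E) :
        E ⧸ Subgroup.center E) = g
      rw [QuotientGroup.eq]
      have e1 : w ^ (k % M).toNat = w ^ (k % M) := by
        rw [← zpow_natCast, Int.toNat_of_nonneg hr0]
      rw [e1]
      have e2 : w ^ k = w ^ (k % M) * (w ^ M) ^ (k / M) := by
        rw [← zpow_mul, ← zpow_add, Int.emod_add_mul_ediv]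
      have e3 : ((g : E ⧸ Subgroup.zpowers w).out * w ^ (k % M))⁻¹ * g = (w ^ M) ^ (k / M) := by
        conv_lhs => rw [hk]
        have : ((((g : E ⧸ Subgroup.zpowers w).out * w ^ k : E) :
            E ⧸ Subgroup.zpowers w)) = g := by rw [← hk]
        rw [this, e2]
        group
      rw [e3]
      exact Subgroup.zpow_mem _ hcen _
  have : (Subgroup.center E).FiniteIndex := Subgroup.finiteIndex_of_finite_quotient
  have hcommE : ∀ a b : E, a * b = b * a := by
    intro a b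
    have hinj : Function.Injective (MonoidHom.transferCenterPow E) := by
      rw [injective_iff_map_eq_one]
      intro c hc
      apply tf
      have h1 : c ^ (Subgroup.center E).index = 1 := by
        rw [← MonoidHom.transferCenterPow_apply, hc]; rfl
      exact isOfFinOrder_iff_pow_eq_one.mpr
        ⟨_, Nat.pos_of_ne_zero (Subgroup.FiniteIndex.index_ne_zero), h1⟩
    apply hinj
    rw [map_mul, map_mul]
    exact Subtype.ext (Subgroup.mem_center_iff.mp (MonoidHom.transferCenterPow E b).2 _)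
  have hfw : (Subgroup.zpowers w).FiniteIndex := Subgroup.finiteIndex_of_finite_quotient
  obtain ⟨N, hN⟩ : ∃ N : ℕ, N = (Subgroup.zpowers w).index.factorial := ⟨_, rfl⟩
  have hN0 : 0 < N := by rw [hN]; exact Nat.factorial_pos _
  have hpow : ∀ g : E, g ^ N ∈ Subgroup.zpowers w := by
    intro g
    apply Subgroup.pow_mem_of_index_ne_zero_of_dvd Subgroup.FiniteIndex.index_ne_zero
    intro m hm hm'
    rw [hN]
    exact Nat.dvd_factorial hm hm'
  let ψ : E →* Subgroup.zpowers w :=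
    { toFun := fun g => ⟨g ^ N, hpow g⟩
      map_one' := by ext; simp
      map_mul' := by
        intro a b
        ext
        show (a * b) ^ N = a ^ N * b ^ N
        exact (show Commute a b from hcommE a b).mul_pow N }
  have hψ : Function.Injective ψ := by
    rw [injective_iff_map_eq_one]
    intro c hc
    apply tf
    have h1 : c ^ N = 1 := congrArg Subtype.val hc
    exact isOfFinOrder_iff_pow_eq_one.mpr ⟨N, hN0, h1⟩
  exact isCyclic_of_injective ψ hψ

/-- the elementary closure of `w` -/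
def elemClosure (w : Γ) : Subgroup Γ where
  carrier := {g | ∃ i j : ℤ, i ≠ 0 ∧ j ≠ 0 ∧ g * w ^ i * g⁻¹ = w ^ j}
  one_mem' := ⟨1, 1, one_ne_zero, one_ne_zero, by group⟩
  mul_mem' := by
    rintro g h ⟨i, j, hi, hj, hg⟩ ⟨k, l, hk, hl, hh⟩
    refine ⟨k * i, j * l, mul_ne_zero hk hi, mul_ne_zero hj hl, ?_⟩
    have h1 := conj_zpow_mul hh i
    have h2 := conj_zpow_mul hg l
    calc g * h * w ^ (k * i) * (g * h)⁻¹ = g * (h * w ^ (k * i) * h⁻¹) * g⁻¹ := by group
      _ = g * w ^ (i * l) * g⁻¹ := by rw [h1, mul_comm l i]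
      _ = w ^ (j * l) := h2
  inv_mem' := by
    rintro g ⟨i, j, hi, hj, hg⟩
    exact ⟨j, i, hj, hi, by rw [← hg]; group⟩

theorem mem_elemClosure {w g : Γ} :
    g ∈ elemClosure w ↔ ∃ i j : ℤ, i ≠ 0 ∧ j ≠ 0 ∧ g * w ^ i * g⁻¹ = w ^ j := Iff.rfl

theorem exists_root_of (H : HypLen ℓ δ) (hp : ProperLen ℓ)
    (j1 : ∀ c h : Γ, c ≠ 1 → IsOfFinOrder c → c * h = h * c → IsOfFinOrder h)
    (j2 : ∀ c : Γ, c ^ 2 = 1 → c = 1) (w : Γ) (hw : ¬ IsOfFinOrder w)
    {K₀ : ℕ} (Q : QGeo ℓ w K₀) {p : Γ → ℤ} {K : ℕ} (M : MetProj ℓ w p K) :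
    ∃ u : Γ, w ∈ Subgroup.zpowers u ∧ Mal u := by
  have hw0 : ∀ i : ℤ, w ^ i = 1 → i = 0 := by
    intro i hi
    by_contra h
    exact hw (isOfFinOrder_iff_zpow_eq_one.mpr ⟨i, h, hi⟩)
  have hwE : w ∈ elemClosure w := ⟨1, 1, one_ne_zero, one_ne_zero, by group⟩
  -- torsion free
  have tf : ∀ c ∈ elemClosure w, IsOfFinOrder c → c = 1 := by
    rintro c ⟨i, j, hi, hj, hc⟩ hfin
    have habs := conj_zpow_natAbs H Q hc
    have hcc : c ^ 2 * w ^ i = w ^ i * c ^ 2 := by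
      rcases Int.natAbs_eq_natAbs_iff.mp habs with h | h
      · rw [h] at hc
        have h1 : Commute c (w ^ i) := mul_inv_eq_iff_eq_mul.mp hc
        exact h1.pow_left 2
      · rw [h, zpow_neg] at hc
        generalize w ^ i = x at hc ⊢
        have h2 : c * x⁻¹ * c⁻¹ = x := by
          have := congrArg (fun x => x⁻¹) hc
          simp only [mul_inv_rev, inv_inv] at this
          rw [mul_assoc]; exact this
        have h3 : c ^ 2 * x * (c ^ 2)⁻¹ = x := by
          calc c ^ 2 * x * (c ^ 2)⁻¹ = c * (c * x * c⁻¹) * c⁻¹ := by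
                simp only [pow_two, mul_inv_rev, mul_assoc]
            _ = x := by rw [hc, h2]
        exact mul_inv_eq_iff_eq_mul.mp h3
    by_cases h2 : c ^ 2 = 1
    · exact j2 c h2
    · exfalso
      have h3 := j1 (c ^ 2) (w ^ i) h2 hfin.pow hcc
      obtain ⟨n, hn, hn'⟩ := isOfFinOrder_iff_pow_eq_one.mp h3
      have h4 : w ^ (i * n) = 1 := by rw [zpow_mul, zpow_natCast]; exact hn'
      have h5 := hw0 _ h4
      rcases mul_eq_zero.mp h5 with h | h
      · exact hi h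
      · have : n = 0 := by exact_mod_cast h
        omega
  -- finite index
  let w' : elemClosure w := ⟨w, hwE⟩
  have hfinE : Finite (elemClosure w ⧸ Subgroup.zpowers w') := by
    have hball : Finite {x : Γ | ℓ x ≤ K₀ + 4 * δ + 2 * K} :=
      (hp (K₀ + 4 * δ + 2 * K)).to_subtype
    let b : Γ → Γ := fun g => w ^ (-(p g⁻¹)) * g⁻¹
    have hb : ∀ g ∈ elemClosure w, ℓ (b g) ≤ K₀ + 4 * δ + 2 * K := by
      intro g hg
      obtain ⟨i, j, hi, hj, hgc⟩ := (elemClosure w).inv_mem hg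
      have h1 := near_of_conj H Q M hi hgc
      have h2 : dst ℓ g⁻¹ (w ^ p g⁻¹) = ℓ (b g) := by
        rw [H.dst_comm]
        show ℓ ((w ^ p g⁻¹)⁻¹ * g⁻¹) = ℓ (w ^ (-(p g⁻¹)) * g⁻¹)
        rw [zpow_neg]
      omega
    let f : elemClosure w ⧸ Subgroup.zpowers w' → {x : Γ | ℓ x ≤ K₀ + 4 * δ + 2 * K} :=
      fun q => ⟨b q.out.1, hb _ q.out.2⟩
    apply Finite.of_injective f
    intro q q' hq
    have h1 : b q.out.1 = b q'.out.1 := congrArg Subtype.val hq
    have h2 : (q.out : elemClosure w)⁻¹ * q'.out ∈ Subgroup.zpowers w' := by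
      refine ⟨p (q.out.1)⁻¹ - p (q'.out.1)⁻¹, ?_⟩
      apply Subtype.ext
      show w ^ (p (q.out.1)⁻¹ - p (q'.out.1)⁻¹) = q.out.1⁻¹ * q'.out.1
      have h1' : w ^ (-(p (q.out.1)⁻¹)) * (q.out.1)⁻¹ = w ^ (-(p (q'.out.1)⁻¹)) * (q'.out.1)⁻¹ := h1
      generalize (q.out : elemClosure w).1 = g at h1' ⊢
      generalize (q'.out : elemClosure w).1 = g' at h1' ⊢
      generalize p g⁻¹ = k at h1' ⊢
      generalize p g'⁻¹ = k' at h1' ⊢
      have h3 : g⁻¹ = w ^ k * (w ^ (-k') * g'⁻¹) := by rw [← h1', zpow_neg]; group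
      rw [h3, zpow_sub, zpow_neg]
      group
    rw [← QuotientGroup.out_eq' q, ← QuotientGroup.out_eq' q']
    exact QuotientGroup.eq.mpr h2
  have hidx : (Subgroup.zpowers w').index ≠ 0 :=
    (Subgroup.finiteIndex_of_finite_quotient (H := Subgroup.zpowers w')).index_ne_zero
  -- no inversions
  have hcomm : ∀ g : elemClosure w, ∃ i : ℤ, i ≠ 0 ∧ g * w' ^ i = w' ^ i * g := by
    rintro ⟨g, hg⟩
    obtain ⟨i, j, hi, hj, hc⟩ := id hg
    refine ⟨i, hi, Subtype.ext ?_⟩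
    show g * w ^ i = w ^ i * g
    have habs := conj_zpow_natAbs H Q hc
    rcases Int.natAbs_eq_natAbs_iff.mp habs with h | h
    · rw [h] at hc
      exact mul_inv_eq_iff_eq_mul.mp hc
    · exfalso
      rw [h] at hc
      obtain ⟨r, hr, -, hr'⟩ := Subgroup.exists_pow_mem_of_index_ne_zero hidx ⟨g, hg⟩
      obtain ⟨l, hl⟩ := hr'
      have hl' : w ^ l = g ^ r := congrArg Subtype.val hl
      have hg1 : g ≠ 1 := by
        rintro rfl
        have h1 : w ^ i = w ^ (-i) := by simpa using hc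
        have h2 : w ^ (i + i) = 1 := by
          rw [zpow_add]
          nth_rewrite 2 [h1]
          rw [zpow_neg]; group
        have := hw0 _ h2
        omega
      have hl0 : l ≠ 0 := by
        rintro rfl
        rw [zpow_zero] at hl'
        exact hg1 (tf g hg (isOfFinOrder_iff_pow_eq_one.mpr ⟨r, hr, hl'.symm⟩))
      have h1 : g * w ^ l * g⁻¹ = w ^ l := by
        rw [hl']
        exact mul_inv_eq_iff_eq_mul.mpr (Commute.refl g |>.pow_right r)
      have h2 := conj_zpow_mul h1 i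
      have h3 := conj_zpow_mul hc l
      rw [show l * i = i * l by ring] at h2
      rw [h2] at h3
      have h4 : w ^ (i * l + i * l) = 1 := by
        rw [zpow_add]
        nth_rewrite 2 [h3]
        rw [← zpow_add, show i * l + -i * l = 0 by ring, zpow_zero]
      have h5 := hw0 _ h4
      have h6 : i * l = 0 := by omega
      rcases mul_eq_zero.mp h6 with h | h
      · exact hi h
      · exact hl0 h
  have hcyc : IsCyclic (elemClosure w) := by
    apply cyclic_of_virt w' _ hcomm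
    rintro ⟨c, hc⟩ hfin
    apply Subtype.ext
    obtain ⟨n, hn, hn'⟩ := isOfFinOrder_iff_pow_eq_one.mp hfin
    exact tf c hc (isOfFinOrder_iff_pow_eq_one.mpr ⟨n, hn, congrArg Subtype.val hn'⟩)
  obtain ⟨u, hu⟩ := hcyc.exists_generator
  have hu' : ∀ g ∈ elemClosure w, g ∈ Subgroup.zpowers (u : Γ) := by
    intro g hg
    obtain ⟨k, hk⟩ := hu ⟨g, hg⟩
    exact ⟨k, congrArg Subtype.val hk⟩
  refine ⟨u, hu' w hwE, ?_⟩
  intro g i j hi hg
  obtain ⟨m, hm⟩ := hu' w hwE
  have hm' : (u : Γ) ^ m = w := hm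
  have h1 : g * w ^ i * g⁻¹ = w ^ j := by
    rw [← hm', ← zpow_mul, ← zpow_mul, mul_comm m i, mul_comm m j]
    exact conj_zpow_mul hg m
  have habs := conj_zpow_natAbs H Q h1
  exact hu' g ⟨i, j, hi, by omega, h1⟩

end Pool.Agent.Lib.MP_06935a_al
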