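import Pool.Agent.Lib.MP_06935a_al.Root
import Pool.Agent.Lib.MP_06935a_al.PSys
import Pool.Agent.Lib.MP_06935a_al.QuotHyp
import Pool.Agent.Lib.MP_06935a_al.Lift1
import Pool.Agent.Lib.MP_06935a_al.Lift2

set_option autoImplicit false

namespace Pool.Agent.Lib.MP_06935a_al

variable {Γ : Type} [Group Γ] {ℓ : Γ → ℕ} {δ : ℕ}

/-- a conjugate of a lift of minimal length -/
theorem exists_min_lift (ℓ : Γ → ℕ) (N : Subgroup Γ) [N.Normal] (c : Γ ⧸ N) :
    ∃ (x b : Γ), (QuotientGroup.mk x : Γ ⧸ N) = (QuotientGroup.mk b)⁻¹ * c * QuotientGroup.mk b ∧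
      ∀ g ∈ N, ∀ b' : Γ, ℓ x ≤ ℓ (b'⁻¹ * (g * x) * b') := by
  classical
  let S : Set ℕ := {k | ∃ x b : Γ, (QuotientGroup.mk x : Γ ⧸ N) =
    (QuotientGroup.mk b)⁻¹ * c * QuotientGroup.mk b ∧ ℓ x = k}
  have hS : S.Nonempty := by
    obtain ⟨x, hx⟩ := QuotientGroup.mk_surjective c
    exact ⟨ℓ x, x, 1, by simp [hx], rfl⟩
  obtain ⟨x, b, hxb, hx⟩ := Nat.sInf_mem hS
  refine ⟨x, b, hxb, fun g hg b' => ?_⟩
  rw [hx]
  apply Nat.sInf_le
  refine ⟨b'⁻¹ * (g * x) * b', b * b', ?_, rfl⟩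
  have hg' : (QuotientGroup.mk g : Γ ⧸ N) = 1 := (QuotientGroup.eq_one_iff g).mpr hg
  rw [QuotientGroup.mk_mul, QuotientGroup.mk_mul, QuotientGroup.mk_mul, hg', QuotientGroup.mk_inv,
    QuotientGroup.mk_mul, one_mul, hxb]
  group

theorem torsion_of_conj {G : Type} [Group G] {x b : G} (h : IsOfFinOrder (b⁻¹ * x * b)) :
    IsOfFinOrder x := by
  rw [isOfFinOrder_iff_pow_eq_one] at h ⊢
  obtain ⟨m, hm, h⟩ := h
  refine ⟨m, hm, ?_⟩
  have e : (b⁻¹ * x * b) ^ m = b⁻¹ * x ^ m * b := by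
    have := conj_pow (i := m) (a := b⁻¹) (b := x)
    simpa using this
  rw [e] at h
  have : x ^ m = b * (b⁻¹ * x ^ m * b) * b⁻¹ := by group
  rw [this, h]
  group

/-- arithmetic: some power of `u ^ j` is congruent to `u ^ (n / q)` -/
theorem exists_prime_quot (n : ℕ) (hn0 : 0 < n) (hn : ∀ q : ℕ, q.Prime → q ∣ n → q = 3 ∨ q = 5)
    (j : ℤ) (hj : ¬ (n : ℤ) ∣ j) :
    ∃ a b j' : ℤ, j' = a * j + b * n ∧ (n : ℤ) ≤ 5 * j' ∧ 3 * j' ≤ n := by
  set d : ℕ := Int.gcd j n with hd
  have hdn : d ∣ n := by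
    have := Int.gcd_dvd_right j (n : ℤ)
    exact_mod_cast this
  obtain ⟨e, he⟩ := hdn
  have hd0 : 0 < d := by
    rcases Nat.eq_zero_or_pos d with h | h
    · rw [h] at he; omega
    · exact h
  have he1 : e ≠ 1 := by
    intro h1
    apply hj
    rw [h1, mul_one] at he
    have h2 := Int.gcd_dvd_left j (n : ℤ)
    rw [← hd, ← he] at h2
    exact h2
  obtain ⟨q, hq, hqe⟩ := Nat.exists_prime_and_dvd he1
  obtain ⟨t, ht⟩ := hqe
  have hqn : q ∣ n := ⟨d * t, by rw [he, ht]; ring⟩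
  have hbez := Int.gcd_eq_gcd_ab j n
  rw [← hd] at hbez
  refine ⟨t * Int.gcdA j n, t * Int.gcdB j n, t * d, ?_, ?_, ?_⟩
  · rw [hbez]; ring
  · have : (n : ℤ) = q * (t * d) := by
      rw [he, ht]; push_cast; ring
    rw [this]
    have h0 : (0 : ℤ) ≤ t * d := by positivity
    rcases hn q hq hqn with h | h <;> subst h <;> push_cast <;> nlinarith
  · have : (n : ℤ) = q * (t * d) := by
      rw [he, ht]; push_cast; ring
    rw [this]
    have h0 : (0 : ℤ) ≤ t * d := by positivity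
    rcases hn q hq hqn with h | h <;> subst h <;> push_cast <;> nlinarith

theorem step (π : Γ →* Multiplicative (ZMod 3)) (α : Γ) (G : Good Γ π α) (w : Γ)
    (hw : ¬ IsOfFinOrder w) :
    ∃ (u : Γ) (n : ℕ), 0 < n ∧ 5 ∣ n ∧ w ∈ Subgroup.zpowers u ∧ π (u ^ n) = 1 ∧
      ∃ π' : Γ ⧸ NC u n →* Multiplicative (ZMod 3), (∀ x : Γ, π' (x : Γ ⧸ NC u n) = π x) ∧
        Good (Γ ⧸ NC u n) π' (α : Γ ⧸ NC u n) := by
  obtain ⟨ℓ, δ, H, hp⟩ := G.hyp
  obtain ⟨u, hwu, mal⟩ := exists_root H hp G.j1 G.j2 w hw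
  have hu : ¬ IsOfFinOrder u := by
    intro h
    apply hw
    obtain ⟨i, hi⟩ := hwu
    have hi' : u ^ i = w := hi
    rw [← hi']
    exact h.zpow
  obtain ⟨K₀, Q⟩ := exists_qgeo H hp u hu
  obtain ⟨p, K, M⟩ := exists_metProj H u K₀ Q
  obtain ⟨C, θ, P⟩ := exists_projSys H hp u K₀ Q mal p K M
  obtain ⟨n₁, h₁⟩ := quot_hyp H hp u p K M C θ P
  obtain ⟨n₂, h₂⟩ := zpow_mem_NC H u K₀ Q mal p K M C θ P
  obtain ⟨n₃, h₃⟩ := lift_centralizer H u K₀ Q mal p K M C θ P (max (6 * δ + 1) (ℓ α))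
  obtain ⟨n₄, h₄⟩ := lift_centralizer_axis H u K₀ Q mal p K M C θ P
  obtain ⟨n₅, h₅⟩ := lift_torsion H u K₀ Q mal p K M C θ P
  -- choice of the exponent
  obtain ⟨n, hn1, hn2, hn3, hn4, hn5, hn0, hn5d, hnp, hπn, hn3d⟩ :
      ∃ n : ℕ, n₁ ≤ n ∧ n₂ ≤ n ∧ n₃ ≤ n ∧ n₄ ≤ n ∧ n₅ ≤ n ∧ 0 < n ∧ 5 ∣ n ∧
        (∀ q : ℕ, q.Prime → q ∣ n → q = 3 ∨ q = 5) ∧ π (u ^ n) = 1 ∧
        (∀ j : ℤ, π (u ^ j) = 1 → (n : ℤ) ∣ 3 * j → (n : ℤ) ∣ j) := by
    set B := n₁ + n₂ + n₃ + n₄ + n₅ with hB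
    have hBlt : B < 5 ^ (B + 1) := lt_trans (Nat.lt_succ_self B) (Nat.lt_pow_self (by norm_num))
    have h3pow : ∀ z : Multiplicative (ZMod 3), z ^ 3 = 1 := by decide
    have hcop : IsCoprime (((5 ^ (B + 1) : ℕ)) : ℤ) 3 := by
      rw [show (3 : ℤ) = ((3 : ℕ) : ℤ) by rfl, Nat.isCoprime_iff_coprime]
      exact Nat.Coprime.pow_left _ (by norm_num)
    by_cases hπu : π u = 1
    · refine ⟨5 ^ (B + 1), by omega, by omega, by omega, by omega, by omega, by positivity,
        ⟨5 ^ B, by ring⟩, ?_, by rw [map_pow, hπu, one_pow], ?_⟩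
      · intro q hq hqd
        right
        exact (Nat.prime_dvd_prime_iff_eq hq (by norm_num)).mp (hq.dvd_of_dvd_pow hqd)
      · intro j _ hj
        exact hcop.dvd_of_dvd_mul_left hj
    · refine ⟨3 * 5 ^ (B + 1), by omega, by omega, by omega, by omega, by omega, by positivity,
        ⟨3 * 5 ^ B, by ring⟩, ?_, by rw [map_pow, pow_mul, h3pow, one_pow], ?_⟩
      · intro q hq hqd
        rcases hq.dvd_mul.mp hqd with h | h
        · left; exact (Nat.prime_dvd_prime_iff_eq hq (by norm_num)).mp h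
        · right; exact (Nat.prime_dvd_prime_iff_eq hq (by norm_num)).mp (hq.dvd_of_dvd_pow h)
      · intro j hj1 hj
        -- 3 ∣ j
        have h3j : (3 : ℤ) ∣ j := by
          rw [map_zpow] at hj1
          have ho : orderOf (π u) = 3 := by
            have h := orderOf_dvd_of_pow_eq_one (h3pow (π u))
            rcases (Nat.dvd_prime Nat.prime_three).mp h with h | h
            · exact absurd (orderOf_eq_one_iff.mp h) hπu
            · exact h
          have := orderOf_dvd_iff_zpow_eq_one.mpr hj1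
          rw [ho] at this
          exact_mod_cast this
        obtain ⟨i, rfl⟩ := h3j
        push_cast at hj ⊢
        have h5i : ((5 : ℤ) ^ (B + 1)) ∣ 3 * i := by
          have h3 : (3 : ℤ) ≠ 0 := by norm_num
          exact (mul_dvd_mul_iff_left h3).mp hj
        have : ((5 : ℤ) ^ (B + 1)) ∣ i := by
          have hc := hcop
          push_cast at hc
          exact hc.dvd_of_dvd_mul_left h5i
        exact mul_dvd_mul_left 3 this
  have H1 := h₁ n hn1
  have H2 := h₂ n hn2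
  have H3 := h₃ n hn3
  have H4 := h₄ n hn4
  have H5 := h₅ n hn5
  have hun : u ^ n ∈ NC u n := Subgroup.subset_normalClosure (Set.mem_singleton _)
  have hπN : NC u n ≤ π.ker := by
    apply Subgroup.normalClosure_le_normal
    intro y hy
    rw [Set.mem_singleton_iff] at hy
    subst hy
    exact hπn
  have hker : ∀ g ∈ NC u n, π g = 1 := fun g hg => hπN hg
  have hconj : ∀ x : Γ, IsOfFinOrder x → x ≠ 1 → ∀ b : Γ, b⁻¹ * x * b ∉ Subgroup.zpowers u := by
    intro x hx hx1 b hb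
    obtain ⟨i, hi⟩ := hb
    have hi' : u ^ i = b⁻¹ * x * b := hi
    rw [isOfFinOrder_iff_pow_eq_one] at hx
    obtain ⟨m, hm, hxm⟩ := hx
    have h1 : u ^ (i * m) = 1 := by
      rw [zpow_mul, hi', zpow_natCast]
      have e : (b⁻¹ * x * b) ^ m = b⁻¹ * x ^ m * b := by
        have := conj_pow (i := m) (a := b⁻¹) (b := x)
        simpa using this
      rw [e, hxm]; group
    have h2 : i * m = 0 := by
      by_contra hne
      apply hu
      rw [isOfFinOrder_iff_zpow_eq_one]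
      exact ⟨_, hne, h1⟩
    have h3 : i = 0 := by
      rcases mul_eq_zero.mp h2 with h | h
      · exact h
      · exfalso
        have : m = 0 := by exact_mod_cast h
        omega
    apply hx1
    rw [h3, zpow_zero] at hi'
    have : x = b * (b⁻¹ * x * b) * b⁻¹ := by group
    rw [this, ← hi']
    group
  -- lifting of torsion elements of small exponent
  have key : ∀ (x : Γ) (m : ℕ), 1 ≤ m → x ^ m ∈ NC u n →
      (∀ g ∈ NC u n, ∀ b : Γ, ℓ x ≤ ℓ (b⁻¹ * (g * x) * b)) → x ≠ 1 →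
      (IsOfFinOrder x ∧ ℓ x ≤ 6 * δ + 1) ∨ ∃ (b : Γ) (j : ℤ), b⁻¹ * x * b = u ^ j := by
    intro x m hm hxm hmin hx1
    rcases H5 x m hm hxm hmin with h | ⟨b, hb⟩
    · left
      have ht : IsOfFinOrder x := by
        rw [isOfFinOrder_iff_pow_eq_one]
        exact ⟨m, hm, h⟩
      refine ⟨ht, conjmin_torsion H x (fun b => ?_) ht⟩
      have := hmin 1 (Subgroup.one_mem _) b
      rwa [one_mul] at this
    · right
      obtain ⟨j, hj⟩ := hb
      exact ⟨b, j, hj.symm⟩
  have hmk : ∀ x : Γ, (QuotientGroup.mk x : Γ ⧸ NC u n) = 1 ↔ x ∈ NC u n :=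
    fun x => QuotientGroup.eq_one_iff x
  refine ⟨u, n, hn0, hn5d, hwu, hπn, QuotientGroup.lift (NC u n) π hπN, fun x => rfl, ?_⟩
  have hπ' : ∀ x : Γ, QuotientGroup.lift (NC u n) π hπN (QuotientGroup.mk x) = π x := fun x => rfl
  have hα1 : α ≠ 1 := by
    intro h
    apply G.a1
    rw [h, map_one]
  have hα : IsOfFinOrder α := by
    rw [isOfFinOrder_iff_pow_eq_one]
    exact ⟨3, by norm_num, G.a3⟩
  constructor
  · exact H1
  · -- j1
    intro c h hc ht hch
    obtain ⟨x, b, hxb, hmin⟩ := exists_min_lift ℓ (NC u n) c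
    obtain ⟨h', hh'⟩ := QuotientGroup.mk_surjective ((QuotientGroup.mk b)⁻¹ * h * QuotientGroup.mk b)
    apply torsion_of_conj (b := (QuotientGroup.mk b : Γ ⧸ NC u n))
    rw [← hh']
    have hx1 : x ∉ NC u n := by
      intro h1
      apply hc
      rw [← hmk, hxb] at h1
      have : c = QuotientGroup.mk b * ((QuotientGroup.mk b)⁻¹ * c * QuotientGroup.mk b) *
        (QuotientGroup.mk b)⁻¹ := by group
      rw [this, h1]; group
    have hcomm : (QuotientGroup.mk x : Γ ⧸ NC u n) * QuotientGroup.mk h' =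
        QuotientGroup.mk h' * QuotientGroup.mk x := by
      rw [hh', hxb]
      have e1 : (QuotientGroup.mk b : Γ ⧸ NC u n)⁻¹ * c * QuotientGroup.mk b *
        ((QuotientGroup.mk b)⁻¹ * h * QuotientGroup.mk b) =
        (QuotientGroup.mk b)⁻¹ * (c * h) * QuotientGroup.mk b := by group
      have e2 : (QuotientGroup.mk b : Γ ⧸ NC u n)⁻¹ * h * QuotientGroup.mk b *
        ((QuotientGroup.mk b)⁻¹ * c * QuotientGroup.mk b) =
        (QuotientGroup.mk b)⁻¹ * (h * c) * QuotientGroup.mk b := by group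
      rw [e1, e2, hch]
    obtain ⟨m, hm, hxm⟩ : ∃ m : ℕ, 0 < m ∧ x ^ m ∈ NC u n := by
      rw [isOfFinOrder_iff_pow_eq_one] at ht
      obtain ⟨m, hm, h1⟩ := ht
      refine ⟨m, hm, ?_⟩
      rw [← hmk, QuotientGroup.mk_pow, hxb]
      have e : ((QuotientGroup.mk b : Γ ⧸ NC u n)⁻¹ * c * QuotientGroup.mk b) ^ m =
        (QuotientGroup.mk b)⁻¹ * c ^ m * QuotientGroup.mk b := by
        have := conj_pow (i := m) (a := (QuotientGroup.mk b : Γ ⧸ NC u n)⁻¹) (b := c)
        simpa using this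
      rw [e, h1]; group
    rcases key x m hm hxm hmin (fun h1 => hx1 (h1 ▸ Subgroup.one_mem _)) with ⟨hxt, hxl⟩ | ⟨b', j, hj⟩
    · -- torsion in Γ
      have hxne : x ≠ 1 := fun h1 => hx1 (h1 ▸ Subgroup.one_mem _)
      have hN : h' * x * h'⁻¹ * x⁻¹ ∈ NC u n := by
        rw [← hmk, QuotientGroup.mk_mul, QuotientGroup.mk_mul, QuotientGroup.mk_mul, ← hcomm,
          QuotientGroup.mk_inv, QuotientGroup.mk_inv]
        group
      obtain ⟨g, hg, hgc⟩ := H3 x (le_trans hxl (le_max_left _ _)) (hconj x hxt hxne) h' hN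
      have hgt := G.j1 x (g * h') hxne hxt hgc.symm
      have e : (QuotientGroup.mk h' : Γ ⧸ NC u n) = QuotientGroup.mk (g * h') := by
        rw [QuotientGroup.mk_mul, (hmk g).mpr hg, one_mul]
      rw [e, isOfFinOrder_iff_pow_eq_one]
      rw [isOfFinOrder_iff_pow_eq_one] at hgt
      obtain ⟨m', hm', h2⟩ := hgt
      exact ⟨m', hm', by rw [← QuotientGroup.mk_pow, h2]; rfl⟩
    · -- conjugate into the axis group
      have hjN : u ^ j ∉ NC u n := by
        intro h1
        apply hx1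
        rw [← hj] at h1
        have := (Subgroup.normalClosure_normal (s := {u ^ n})).conj_mem _ h1 b'
        have e : b' * (b'⁻¹ * x * b') * b'⁻¹ = x := by group
        rwa [e] at this
      have hnj : ¬ (n : ℤ) ∣ j := by
        rintro ⟨i, rfl⟩
        apply hjN
        rw [zpow_mul, zpow_natCast]
        exact Subgroup.zpow_mem _ hun _
      obtain ⟨a, a', j', hj', hj5, hj3⟩ := exists_prime_quot n hn0 hnp j hnj
      set y := b'⁻¹ * h' * b' with hy
      have hcomm2 : (QuotientGroup.mk (u ^ j) : Γ ⧸ NC u n) * QuotientGroup.mk y =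
          QuotientGroup.mk y * QuotientGroup.mk (u ^ j) := by
        rw [← hj, hy]
        simp only [QuotientGroup.mk_mul, QuotientGroup.mk_inv]
        have e1 : (QuotientGroup.mk b' : Γ ⧸ NC u n)⁻¹ * QuotientGroup.mk x * QuotientGroup.mk b' *
          ((QuotientGroup.mk b')⁻¹ * QuotientGroup.mk h' * QuotientGroup.mk b') =
          (QuotientGroup.mk b')⁻¹ * (QuotientGroup.mk x * QuotientGroup.mk h') *
            QuotientGroup.mk b' := by group
        have e2 : (QuotientGroup.mk b' : Γ ⧸ NC u n)⁻¹ * QuotientGroup.mk h' * QuotientGroup.mk b' *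
          ((QuotientGroup.mk b')⁻¹ * QuotientGroup.mk x * QuotientGroup.mk b') =
          (QuotientGroup.mk b')⁻¹ * (QuotientGroup.mk h' * QuotientGroup.mk x) *
            QuotientGroup.mk b' := by group
        rw [e1, e2, hcomm]
      have hj'q : (QuotientGroup.mk (u ^ j') : Γ ⧸ NC u n) = (QuotientGroup.mk (u ^ j)) ^ a := by
        rw [hj', zpow_add, QuotientGroup.mk_mul, mul_comm a j, mul_comm a' (n : ℤ), zpow_mul,
          zpow_mul, zpow_natCast, (hmk ((u ^ n) ^ a')).mpr (Subgroup.zpow_mem _ hun _), mul_one,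
          QuotientGroup.mk_zpow]
      have hcomm3 : (QuotientGroup.mk (u ^ j') : Γ ⧸ NC u n) * QuotientGroup.mk y =
          QuotientGroup.mk y * QuotientGroup.mk (u ^ j') := by
        rw [hj'q]
        exact ((show Commute (QuotientGroup.mk (u ^ j) : Γ ⧸ NC u n) (QuotientGroup.mk y) from
          hcomm2).zpow_left a)
      have hN : y * u ^ j' * y⁻¹ * (u ^ j')⁻¹ ∈ NC u n := by
        rw [← hmk, QuotientGroup.mk_mul, QuotientGroup.mk_mul, QuotientGroup.mk_mul, ← hcomm3,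
          QuotientGroup.mk_inv, QuotientGroup.mk_inv]
        group
      obtain ⟨g, hg, i, hgi⟩ := H4 j' hj5 hj3 y hN
      apply torsion_of_conj (b := (QuotientGroup.mk b' : Γ ⧸ NC u n))
      have e : (QuotientGroup.mk b' : Γ ⧸ NC u n)⁻¹ * QuotientGroup.mk h' * QuotientGroup.mk b' =
          QuotientGroup.mk (u ^ i) := by
        rw [← QuotientGroup.mk_inv, ← QuotientGroup.mk_mul, ← QuotientGroup.mk_mul, ← hy, hgi,
          QuotientGroup.mk_mul, (hmk g).mpr hg, one_mul]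
      rw [e, isOfFinOrder_iff_pow_eq_one]
      refine ⟨n, hn0, ?_⟩
      rw [← QuotientGroup.mk_pow, hmk, ← zpow_natCast, ← zpow_mul, mul_comm, zpow_mul, zpow_natCast]
      exact Subgroup.zpow_mem _ hun _
  · -- j2
    intro c hc
    obtain ⟨x, b, hxb, hmin⟩ := exists_min_lift ℓ (NC u n) c
    by_contra hc1
    have hx1 : x ∉ NC u n := by
      intro h1
      apply hc1
      rw [← hmk, hxb] at h1
      have : c = QuotientGroup.mk b * ((QuotientGroup.mk b)⁻¹ * c * QuotientGroup.mk b) *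
        (QuotientGroup.mk b)⁻¹ := by group
      rw [this, h1]; group
    have hxm : x ^ 2 ∈ NC u n := by
      rw [← hmk, QuotientGroup.mk_pow, hxb]
      have e : ((QuotientGroup.mk b : Γ ⧸ NC u n)⁻¹ * c * QuotientGroup.mk b) ^ 2 =
        (QuotientGroup.mk b)⁻¹ * c ^ 2 * QuotientGroup.mk b := by
        rw [pow_two, pow_two]; group
      rw [e, hc]; group
    rcases H5 x 2 (by norm_num) hxm hmin with h | ⟨b', j, hj⟩
    · exact hx1 (by rw [G.j2 x h]; exact Subgroup.one_mem _)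
    · have hj' : u ^ j = b'⁻¹ * x * b' := hj
      have h2 : u ^ (2 * j) ∈ NC u n := by
        rw [mul_comm, zpow_mul, hj']
        have e : (b'⁻¹ * x * b') ^ (2 : ℤ) = b'⁻¹ * x ^ 2 * b' := by
          rw [zpow_two, pow_two]; group
        rw [e]
        have := (Subgroup.normalClosure_normal (s := {u ^ n})).conj_mem _ hxm b'⁻¹
        simpa using this
      have h3 := H2 _ h2
      have hodd : IsCoprime (n : ℤ) 2 := by
        rw [show (2 : ℤ) = ((2 : ℕ) : ℤ) by rfl, Nat.isCoprime_iff_coprime, Nat.coprime_comm,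
          Nat.Prime.coprime_iff_not_dvd Nat.prime_two]
        intro h2n
        rcases hnp 2 Nat.prime_two h2n with h | h <;> omega
      have h4 := hodd.dvd_of_dvd_mul_left h3
      obtain ⟨i, rfl⟩ := h4
      apply hx1
      have h5 : u ^ ((n : ℤ) * i) ∈ NC u n := by
        rw [zpow_mul, zpow_natCast]
        exact Subgroup.zpow_mem _ hun _
      rw [hj'] at h5
      have := (Subgroup.normalClosure_normal (s := {u ^ n})).conj_mem _ h5 b'
      have e : b' * (b'⁻¹ * x * b') * b'⁻¹ = x := by group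
      rwa [e] at this
  · -- j3
    intro c hπc hc
    obtain ⟨x, b, hxb, hmin⟩ := exists_min_lift ℓ (NC u n) c
    by_contra hc1
    have hx1 : x ∉ NC u n := by
      intro h1
      apply hc1
      rw [← hmk, hxb] at h1
      have : c = QuotientGroup.mk b * ((QuotientGroup.mk b)⁻¹ * c * QuotientGroup.mk b) *
        (QuotientGroup.mk b)⁻¹ := by group
      rw [this, h1]; group
    have hπx : π x = 1 := by
      rw [← hπ' x, hxb, map_mul, map_mul, hπc, map_inv, mul_one, inv_mul_cancel]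
    have hxm : x ^ 3 ∈ NC u n := by
      rw [← hmk, QuotientGroup.mk_pow, hxb]
      have e : ((QuotientGroup.mk b : Γ ⧸ NC u n)⁻¹ * c * QuotientGroup.mk b) ^ 3 =
        (QuotientGroup.mk b)⁻¹ * c ^ 3 * QuotientGroup.mk b := by
        have := conj_pow (i := 3) (a := (QuotientGroup.mk b : Γ ⧸ NC u n)⁻¹) (b := c)
        simpa using this
      rw [e, hc]; group
    rcases H5 x 3 (by norm_num) hxm hmin with h | ⟨b', j, hj⟩
    · exact hx1 (by rw [G.j3 x hπx h]; exact Subgroup.one_mem _)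
    · have hj' : u ^ j = b'⁻¹ * x * b' := hj
      have hπj : π (u ^ j) = 1 := by
        rw [hj', map_mul, map_mul, hπx, map_inv, mul_one, inv_mul_cancel]
      have h2 : u ^ (3 * j) ∈ NC u n := by
        rw [mul_comm, zpow_mul, hj']
        have e : (b'⁻¹ * x * b') ^ (3 : ℤ) = b'⁻¹ * x ^ 3 * b' := by
          have := conj_pow (i := 3) (a := b'⁻¹) (b := x)
          rw [show (3 : ℤ) = ((3 : ℕ) : ℤ) by rfl, zpow_natCast]
          simpa using this
        rw [e]
        have := (Subgroup.normalClosure_normal (s := {u ^ n})).conj_mem _ hxm b'⁻¹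
        simpa using this
      have h3 := H2 _ h2
      have h4 := hn3d j hπj h3
      obtain ⟨i, rfl⟩ := h4
      apply hx1
      have h5 : u ^ ((n : ℤ) * i) ∈ NC u n := by
        rw [zpow_mul, zpow_natCast]
        exact Subgroup.zpow_mem _ hun _
      rw [hj'] at h5
      have := (Subgroup.normalClosure_normal (s := {u ^ n})).conj_mem _ h5 b'
      have e : b' * (b'⁻¹ * x * b') * b'⁻¹ = x := by group
      rwa [e] at this
  · -- j4
    intro h hπh hcomm
    obtain ⟨y, rfl⟩ := QuotientGroup.mk_surjective h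
    have hN : y * α * y⁻¹ * α⁻¹ ∈ NC u n := by
      rw [← hmk, QuotientGroup.mk_mul, QuotientGroup.mk_mul, QuotientGroup.mk_mul,
        QuotientGroup.mk_inv, QuotientGroup.mk_inv]
      have hcomm' : (QuotientGroup.mk y : Γ ⧸ NC u n) * QuotientGroup.mk α =
        QuotientGroup.mk α * QuotientGroup.mk y := hcomm
      rw [hcomm']; group
    obtain ⟨g, hg, hgc⟩ := H3 α (le_max_right _ _) (hconj α hα hα1) y hN
    have h1 := G.j4 (g * y) (by rw [map_mul, hker g hg, one_mul]; exact hπh) hgc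
    rw [hmk]
    have : y = g⁻¹ * (g * y) := by group
    rw [this, h1, mul_one]
    exact Subgroup.inv_mem _ hg
  · rw [hπ']
    exact G.a1
  · show (QuotientGroup.mk α : Γ ⧸ NC u n) ^ 3 = 1
    rw [← QuotientGroup.mk_pow, G.a3]
    rfl

end Pool.Agent.Lib.MP_06935a_al
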